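import Mathlib

/-! Project PK, piece PK-09a: polarization of quartics. -/

set_option autoImplicit false

namespace Pool.Agent.Helper47.PK

open Finset

/-- `P` is the diagonal of an (algebraic) 4-linear form -/
def IsQ4 {F : Type} [AddCommGroup F] [Module ℝ F] (P : F → ℝ) : Prop :=
  ∃ L : MultilinearMap ℝ (fun _ : Fin 4 => F) ℝ, ∀ x, P x = L (fun _ => x)

/-- auxiliary: sums of signs -/
theorem polar_sgn : ∀ r : Fin 4 → Fin 4,
    (∑ e : Fin 4 → Bool, (∏ i, (if e i then (1 : ℤ) else -1)) *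
      ∏ j, (if e (r j) then (1 : ℤ) else -1)) =
    16 * ∑ σ : Equiv.Perm (Fin 4), (if (σ : Fin 4 → Fin 4) = r then 1 else 0) := by
  decide +kernel

/-- auxiliary: real signs -/
def polar_s (b : Bool) : ℝ := if b then 1 else -1

theorem polar_sgn' (r : Fin 4 → Fin 4) :
    (∑ e : Fin 4 → Bool, (∏ i, polar_s (e i)) * ∏ j, polar_s (e (r j))) =
    16 * ∑ σ : Equiv.Perm (Fin 4), (if (σ : Fin 4 → Fin 4) = r then (1 : ℝ) else 0) := by
  have h := congrArg (fun z : ℤ => (z : ℝ)) (polar_sgn r)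
  simp only [polar_s]
  push_cast at h
  exact h

/-- auxiliary: the polarization identity -/
theorem polar_id {F : Type} [AddCommGroup F] [Module ℝ F]
    (L : MultilinearMap ℝ (fun _ : Fin 4 => F) ℝ) (x : Fin 4 → F) :
    (∑ e : Fin 4 → Bool, (∏ i, polar_s (e i)) * L (fun _ => ∑ j, polar_s (e j) • x j)) =
      16 * ∑ σ : Equiv.Perm (Fin 4), L (fun i => x (σ i)) := by
  have h1 : ∀ e : Fin 4 → Bool, L (fun _ => ∑ j, polar_s (e j) • x j) =
      ∑ r : Fin 4 → Fin 4, (∏ j, polar_s (e (r j))) * L (fun i => x (r i)) := by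
    intro e
    rw [MultilinearMap.map_sum]
    refine Finset.sum_congr rfl fun r _ => ?_
    rw [MultilinearMap.map_smul_univ, smul_eq_mul]
  simp only [h1]
  have h2 : (∑ e : Fin 4 → Bool, (∏ i, polar_s (e i)) *
      ∑ r : Fin 4 → Fin 4, (∏ j, polar_s (e (r j))) * L (fun i => x (r i))) =
      ∑ r : Fin 4 → Fin 4, (∑ e : Fin 4 → Bool, (∏ i, polar_s (e i)) *
        ∏ j, polar_s (e (r j))) * L (fun i => x (r i)) := by
    simp only [Finset.mul_sum, Finset.sum_mul]
    rw [Finset.sum_comm]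
    refine Finset.sum_congr rfl fun r _ => Finset.sum_congr rfl fun e _ => ?_
    ring
  rw [h2]
  simp only [polar_sgn']
  have h3 : (∑ r : Fin 4 → Fin 4, 16 * (∑ σ : Equiv.Perm (Fin 4),
      (if (σ : Fin 4 → Fin 4) = r then (1 : ℝ) else 0)) * L (fun i => x (r i))) =
      16 * ∑ σ : Equiv.Perm (Fin 4), ∑ r : Fin 4 → Fin 4,
        (if (σ : Fin 4 → Fin 4) = r then L (fun i => x (r i)) else 0) := by
    rw [Finset.sum_comm, Finset.mul_sum]
    refine Finset.sum_congr rfl fun r _ => ?_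
    rw [mul_assoc, Finset.sum_mul]
    congr 1
    refine Finset.sum_congr rfl fun σ _ => ?_
    split_ifs <;> simp
  rw [h3]
  congr 1
  refine Finset.sum_congr rfl fun σ _ => ?_
  rw [Finset.sum_ite_eq]
  simp

/-- auxiliary: homogeneity -/
theorem polar_bd {F : Type} [NormedAddCommGroup F] [NormedSpace ℝ F]
    (L : MultilinearMap ℝ (fun _ : Fin 4 => F) ℝ) {B : ℝ}
    (hB : ∀ x : Fin 4 → F, (∀ i, ‖x i‖ ≤ 1) → |L x| ≤ B) (x : Fin 4 → F) :
    |L x| ≤ B * ∏ i, ‖x i‖ := by
  by_cases h0 : ∃ i, x i = 0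
  · obtain ⟨i, hi⟩ := h0
    rw [L.map_coord_zero i hi, Finset.prod_eq_zero (Finset.mem_univ i) (by rw [hi, norm_zero])]
    simp
  · push Not at h0
    have hn : ∀ i, ‖x i‖ ≠ 0 := fun i => norm_ne_zero_iff.2 (h0 i)
    have e : L x = (∏ i, ‖x i‖) • L (fun i => ‖x i‖⁻¹ • x i) := by
      rw [← MultilinearMap.map_smul_univ]
      congr 1
      funext i
      rw [smul_smul, mul_inv_cancel₀ (hn i), one_smul]
    rw [e, smul_eq_mul, abs_mul, abs_of_nonneg (Finset.prod_nonneg fun i _ => norm_nonneg _),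
      mul_comm]
    refine mul_le_mul_of_nonneg_right (hB _ fun i => ?_)
      (Finset.prod_nonneg fun i _ => norm_nonneg _)
    rw [norm_smul, norm_inv, norm_norm, inv_mul_cancel₀ (hn i)]

/-- Piece PK-09a (polarization).  Proof: put
`L' x = (1/24) ∑_{S ⊆ Fin 4} (-1)^(4 - |S|) P (∑_{i ∈ S} x i)`.  If `P = diag L` then
`L' x = (1/24) ∑_{σ : Perm (Fin 4)} L (x ∘ σ)` (multilinear expansion; `MultilinearMap.map_sum_finset`
or `MultilinearMap.map_piecewise_add`; perhaps `MultilinearMap` has this as a lemma on `domDomCongr`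
sums), so `L'` is multilinear, `L' (x,x,x,x) = P x`.  It may be easier to define `L'` as the mean of
`L.domDomCongr σ` over permutations and prove the identity with the alternating sum of `P`.
Bound: for `‖x i‖ ≤ 1` one has `|L' x| ≤ (1/24) ∑_S |S|^4 C ≤ 256 C` (crude); finally
`MultilinearMap.mkContinuous` and homogeneity (helper23's `PZ.multilinear_bound` in
`Pool/Agent/Helper23/PZ/Sum.lean`). -/
theorem polar {F : Type} [NormedAddCommGroup F] [NormedSpace ℝ F] {P : F → ℝ} (hP : IsQ4 P)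
    {C : ℝ} (hC0 : 0 ≤ C) (hC : ∀ x, |P x| ≤ C * ‖x‖ ^ 4) :
    ∃ L : ContinuousMultilinearMap ℝ (fun _ : Fin 4 => F) ℝ,
      (∀ x, P x = L (fun _ => x)) ∧ ‖L‖ ≤ 256 * C := by
  obtain ⟨L, hL⟩ := hP
  set L' : MultilinearMap ℝ (fun _ : Fin 4 => F) ℝ :=
    (1 / 24 : ℝ) • ∑ σ : Equiv.Perm (Fin 4), L.domDomCongr σ with hL'
  have hL'x : ∀ x : Fin 4 → F, L' x =
      1 / 24 * ∑ σ : Equiv.Perm (Fin 4), L (fun i => x (σ i)) := by
    intro x
    rw [hL', _root_.smul_apply, _root_.sum_apply, smul_eq_mul]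
    rfl
  have hcard : (Fintype.card (Equiv.Perm (Fin 4)) : ℝ) = 24 := by
    rw [Fintype.card_perm, Fintype.card_fin]
    norm_num [Nat.factorial]
  have hdiag : ∀ x, P x = L' (fun _ => x) := by
    intro x
    rw [hL'x, hL x, Finset.sum_const, Finset.card_univ, nsmul_eq_mul, hcard]
    ring
  have hid : ∀ x : Fin 4 → F, L' x = 1 / 384 * ∑ e : Fin 4 → Bool,
      (∏ i, polar_s (e i)) * P (∑ j, polar_s (e j) • x j) := by
    intro x
    have h := polar_id L x
    simp only [← hL] at h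
    rw [h, hL'x]
    ring
  have hs1 : ∀ b : Bool, |polar_s b| = 1 := by
    intro b
    cases b <;> simp [polar_s]
  have hunit : ∀ x : Fin 4 → F, (∀ i, ‖x i‖ ≤ 1) → |L' x| ≤ 256 * C := by
    intro x hx
    rw [hid x, abs_mul]
    have h1 : |∑ e : Fin 4 → Bool, (∏ i, polar_s (e i)) * P (∑ j, polar_s (e j) • x j)| ≤
        ∑ e : Fin 4 → Bool, C * 4 ^ 4 := by
      refine (Finset.abs_sum_le_sum_abs _ _).trans (Finset.sum_le_sum fun e _ => ?_)
      rw [abs_mul, Finset.abs_prod]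
      simp only [hs1, Finset.prod_const_one, one_mul]
      refine (hC _).trans (mul_le_mul_of_nonneg_left ?_ hC0)
      refine pow_le_pow_left₀ (norm_nonneg _) ?_ 4
      refine (norm_sum_le _ _).trans ?_
      calc (∑ j, ‖polar_s (e j) • x j‖) ≤ ∑ j : Fin 4, (1 : ℝ) := by
            refine Finset.sum_le_sum fun j _ => ?_
            rw [norm_smul, Real.norm_eq_abs, hs1, one_mul]
            exact hx j
        _ = 4 := by simp
    rw [Finset.sum_const, Finset.card_univ] at h1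
    have hc2 : Fintype.card (Fin 4 → Bool) = 16 := by simp
    rw [hc2, nsmul_eq_mul] at h1
    have h2 : |(1 / 384 : ℝ)| = 1 / 384 := by norm_num
    rw [h2]
    push_cast at h1
    nlinarith
  refine ⟨L'.mkContinuous (256 * C) fun x => ?_, ?_, ?_⟩
  · rw [Real.norm_eq_abs]
    exact polar_bd L' hunit x
  · intro x
    exact hdiag x
  · exact MultilinearMap.mkContinuous_norm_le _ (by positivity) _

end Pool.Agent.Helper47.PK
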