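import Pool.Agent.Helper47.PK.Defs

/-! Project PK: elementary properties of `av`, `cm`, `Bo`. -/

set_option autoImplicit false

namespace Pool.Agent.Helper47.PK

open Finset

section Av

variable {Ω : Type} [Fintype Ω]

theorem av_add (f g : Ω → ℝ) : av (fun ω => f ω + g ω) = av f + av g := by
  unfold av; rw [Finset.sum_add_distrib, add_div]

theorem av_sub (f g : Ω → ℝ) : av (fun ω => f ω - g ω) = av f - av g := by
  unfold av; rw [Finset.sum_sub_distrib, sub_div]

theorem av_neg (f : Ω → ℝ) : av (fun ω => - f ω) = - av f := by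
  unfold av; rw [Finset.sum_neg_distrib, neg_div]

theorem av_const_mul (a : ℝ) (f : Ω → ℝ) : av (fun ω => a * f ω) = a * av f := by
  unfold av; rw [← Finset.mul_sum, mul_div_assoc]

theorem av_mul_const (a : ℝ) (f : Ω → ℝ) : av (fun ω => f ω * a) = av f * a := by
  unfold av; rw [← Finset.sum_mul]; ring

theorem av_sum {ι : Type} (s : Finset ι) (f : ι → Ω → ℝ) :
    av (fun ω => ∑ k ∈ s, f k ω) = ∑ k ∈ s, av (f k) := by
  unfold av; rw [Finset.sum_comm, Finset.sum_div]

theorem av_zero : av (fun _ : Ω => (0 : ℝ)) = 0 := by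
  unfold av; simp

theorem av_const [Nonempty Ω] (a : ℝ) : av (fun _ : Ω => a) = a := by
  unfold av
  rw [Finset.sum_const, Finset.card_univ, nsmul_eq_mul]
  have : (Fintype.card Ω : ℝ) ≠ 0 := by exact_mod_cast Fintype.card_ne_zero
  field_simp

theorem av_const_le (a : ℝ) (ha : 0 ≤ a) : av (fun _ : Ω => a) ≤ a := by
  unfold av
  rw [Finset.sum_const, Finset.card_univ, nsmul_eq_mul]
  rcases Nat.eq_zero_or_pos (Fintype.card Ω) with h | h
  · rw [h]; simpa using ha
  · have : (0 : ℝ) < Fintype.card Ω := by exact_mod_cast h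
    rw [div_le_iff₀ this]; linarith

theorem av_mono {f g : Ω → ℝ} (h : ∀ ω, f ω ≤ g ω) : av f ≤ av g := by
  unfold av
  exact div_le_div_of_nonneg_right (Finset.sum_le_sum fun ω _ => h ω) (Nat.cast_nonneg _)

theorem av_nonneg {f : Ω → ℝ} (h : ∀ ω, 0 ≤ f ω) : 0 ≤ av f := by
  unfold av
  exact div_nonneg (Finset.sum_nonneg fun ω _ => h ω) (Nat.cast_nonneg _)

theorem av_congr {f g : Ω → ℝ} (h : ∀ ω, f ω = g ω) : av f = av g := by
  congr 1; exact funext h

theorem abs_av_le (f : Ω → ℝ) : |av f| ≤ av (fun ω => |f ω|) := by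
  unfold av
  rw [abs_div, Nat.abs_cast]
  exact div_le_div_of_nonneg_right (Finset.abs_sum_le_sum_abs _ _) (Nat.cast_nonneg _)

/-- Cauchy-Schwarz -/
theorem av_mul_sq_le (f g : Ω → ℝ) :
    (av (fun ω => f ω * g ω)) ^ 2 ≤ av (fun ω => f ω ^ 2) * av (fun ω => g ω ^ 2) := by
  unfold av
  rw [div_pow, div_mul_div_comm, ← sq]
  exact div_le_div_of_nonneg_right (Finset.sum_mul_sq_le_sq_mul_sq _ _ _) (by positivity)

theorem av_sq_le (f : Ω → ℝ) : (av f) ^ 2 ≤ av (fun ω => f ω ^ 2) := by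
  have h := av_mul_sq_le (fun _ => 1) f
  simp only [one_mul, one_pow] at h
  have h1 : av (fun _ : Ω => (1 : ℝ)) ≤ 1 := av_const_le 1 zero_le_one
  have h2 : 0 ≤ av (fun ω => f ω ^ 2) := av_nonneg fun ω => sq_nonneg _
  nlinarith

theorem eq_zero_of_av_eq_zero {f : Ω → ℝ} (h0 : ∀ ω, 0 ≤ f ω) (h : av f = 0) (ω : Ω) : f ω = 0 := by
  unfold av at h
  have hc : (Fintype.card Ω : ℝ) ≠ 0 := by
    have : Nonempty Ω := ⟨ω⟩
    exact_mod_cast Fintype.card_ne_zero
  rw [div_eq_zero_iff, or_iff_left hc, Finset.sum_eq_zero_iff_of_nonneg fun i _ => h0 i] at h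
  exact h ω (Finset.mem_univ _)

theorem le_card_mul_av {f : Ω → ℝ} (h0 : ∀ ω, 0 ≤ f ω) (ω : Ω) : f ω ≤ Fintype.card Ω * av f := by
  unfold av
  have hc : (Fintype.card Ω : ℝ) ≠ 0 := by
    have : Nonempty Ω := ⟨ω⟩
    exact_mod_cast Fintype.card_ne_zero
  rw [mul_div_cancel₀ _ hc]
  exact Finset.single_le_sum (fun i _ => h0 i) (Finset.mem_univ ω)

end Av

variable {Ω V : Type} [Fintype Ω] [Fintype V] [DecidableEq V] {r : ℕ} (π : Fin r → Ω → V)

section Cm

theorem cm_add (c : Fin r) (y z : Ω → ℝ) (v : V) :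
    cm π c (fun ω => y ω + z ω) v = cm π c y v + cm π c z v := by
  unfold cm
  rw [← mul_add, ← av_add]
  congr 2; funext ω; split_ifs <;> simp

theorem cm_sub (c : Fin r) (y z : Ω → ℝ) (v : V) :
    cm π c (fun ω => y ω - z ω) v = cm π c y v - cm π c z v := by
  unfold cm
  rw [← mul_sub, ← av_sub]
  congr 2; funext ω; split_ifs <;> simp

theorem cm_const_mul (c : Fin r) (a : ℝ) (y : Ω → ℝ) (v : V) :
    cm π c (fun ω => a * y ω) v = a * cm π c y v := by
  unfold cm
  rw [mul_left_comm a, ← av_const_mul a]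
  congr 2; funext ω; split_ifs <;> simp

theorem cm_sum {ι : Type} (s : Finset ι) (c : Fin r) (y : ι → Ω → ℝ) (v : V) :
    cm π c (fun ω => ∑ k ∈ s, y k ω) v = ∑ k ∈ s, cm π c (y k) v := by
  unfold cm
  rw [← Finset.mul_sum, ← av_sum]
  congr 2; funext ω; split_ifs <;> simp

theorem cm_zero (c : Fin r) (v : V) : cm π c (fun _ => 0) v = 0 := by
  unfold cm
  have : (fun ω : Ω => if π c ω = v then (0 : ℝ) else 0) = fun _ => 0 := by
    funext ω; split_ifs <;> rfl
  rw [this, av_zero, mul_zero]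

theorem cm_mono (c : Fin r) {y z : Ω → ℝ} (h : ∀ ω, y ω ≤ z ω) (v : V) :
    cm π c y v ≤ cm π c z v := by
  unfold cm
  refine mul_le_mul_of_nonneg_left (av_mono fun ω => ?_) (Nat.cast_nonneg _)
  split_ifs
  · exact h ω
  · exact le_rfl

theorem cm_nonneg (c : Fin r) {y : Ω → ℝ} (h : ∀ ω, 0 ≤ y ω) (v : V) : 0 ≤ cm π c y v := by
  have := cm_mono π c (y := fun _ => 0) (z := y) h v
  rwa [cm_zero] at this

theorem cm_le_card_mul_av (c : Fin r) {y : Ω → ℝ} (h : ∀ ω, 0 ≤ y ω) (v : V) :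
    cm π c y v ≤ Fintype.card V * av y := by
  unfold cm
  refine mul_le_mul_of_nonneg_left (av_mono fun ω => ?_) (Nat.cast_nonneg _)
  split_ifs
  · exact le_rfl
  · exact h ω

/-- Cauchy-Schwarz on a clique -/
theorem cm_mul_sq_le (c : Fin r) (y z : Ω → ℝ) (v : V) :
    (cm π c (fun ω => y ω * z ω) v) ^ 2 ≤
      cm π c (fun ω => y ω ^ 2) v * cm π c (fun ω => z ω ^ 2) v := by
  unfold cm
  have h := av_mul_sq_le (fun ω => if π c ω = v then y ω else 0)
    (fun ω => if π c ω = v then z ω else 0)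
  have h1 : (fun ω => (if π c ω = v then y ω else 0) * (if π c ω = v then z ω else 0)) =
      fun ω => if π c ω = v then y ω * z ω else 0 := by
    funext ω; split_ifs <;> simp
  have h2 : ∀ u : Ω → ℝ, (fun ω => (if π c ω = v then u ω else 0) ^ 2) =
      fun ω => if π c ω = v then u ω ^ 2 else 0 := by
    intro u; funext ω; split_ifs <;> simp
  rw [h1, h2, h2] at h
  calc _ = (Fintype.card V : ℝ) ^ 2 * (av fun ω => if π c ω = v then y ω * z ω else 0) ^ 2 := by ring
    _ ≤ (Fintype.card V : ℝ) ^ 2 * ((av fun ω => if π c ω = v then y ω ^ 2 else 0) *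
        (av fun ω => if π c ω = v then z ω ^ 2 else 0)) :=
      mul_le_mul_of_nonneg_left h (by positivity)
    _ = _ := by ring

/-- the mean of the conditional means -/
theorem sum_cm (c : Fin r) (y : Ω → ℝ) : ∑ v, cm π c y v = Fintype.card V * av y := by
  unfold cm
  rw [← Finset.mul_sum, ← av_sum]
  congr 2; funext ω
  simp

/-- a function of the class `c` times `y` -/
theorem card_mul_av_comp_mul (c : Fin r) (g : V → ℝ) (y : Ω → ℝ) :
    (Fintype.card V : ℝ) * av (fun ω => g (π c ω) * y ω) = ∑ v, g v * cm π c y v := by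
  unfold cm
  have h1 : ∀ v, g v * ((Fintype.card V : ℝ) * av (fun ω => if π c ω = v then y ω else 0)) =
      (Fintype.card V : ℝ) * av (fun ω => g v * (if π c ω = v then y ω else 0)) := by
    intro v; rw [av_const_mul]; ring
  simp only [h1]
  rw [← Finset.mul_sum, ← av_sum]
  congr 2; funext ω
  simp

end Cm

section Bo

variable (Λ : ℕ)

/-- the mean over `V` -/
theorem av_comp_mul (hV : 0 < Fintype.card V) (c : Fin r) (g : V → ℝ) (y : Ω → ℝ) :
    av (fun ω => g (π c ω) * y ω) = (∑ v, g v * cm π c y v) / Fintype.card V := by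
  rw [← card_mul_av_comp_mul]
  have : (Fintype.card V : ℝ) ≠ 0 := by exact_mod_cast hV.ne'
  field_simp

theorem Bo_add (y z : Ω → ℝ) (i : Ω) :
    Bo π Λ (fun ω => y ω + z ω) i = Bo π Λ y i + Bo π Λ z i := by
  unfold Bo
  rw [av_add]
  simp only [cm_add]
  have : ∑ c, (cm π c y (π c i) + cm π c z (π c i) - (av y + av z)) =
      ∑ c, (cm π c y (π c i) - av y) + ∑ c, (cm π c z (π c i) - av z) := by
    rw [← Finset.sum_add_distrib]
    exact Finset.sum_congr rfl fun c _ => by ring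
  rw [this]; ring

theorem Bo_const_mul (a : ℝ) (y : Ω → ℝ) (i : Ω) :
    Bo π Λ (fun ω => a * y ω) i = a * Bo π Λ y i := by
  unfold Bo
  rw [av_const_mul]
  simp only [cm_const_mul]
  have : ∑ c, (a * cm π c y (π c i) - a * av y) = a * ∑ c, (cm π c y (π c i) - av y) := by
    rw [Finset.mul_sum]
    exact Finset.sum_congr rfl fun c _ => by ring
  rw [this]; ring

theorem Bo_sub (y z : Ω → ℝ) (i : Ω) :
    Bo π Λ (fun ω => y ω - z ω) i = Bo π Λ y i - Bo π Λ z i := by
  have h := Bo_add π Λ y (fun ω => (-1) * z ω) i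
  rw [Bo_const_mul] at h
  have h1 : (fun ω => y ω - z ω) = fun ω => y ω + (-1) * z ω := by funext ω; ring
  rw [h1, h]; ring

theorem Bo_neg (y : Ω → ℝ) (i : Ω) : Bo π Λ (fun ω => - y ω) i = - Bo π Λ y i := by
  have h := Bo_const_mul π Λ (-1) y i
  have h1 : (fun ω => - y ω) = fun ω => (-1) * y ω := by funext ω; ring
  rw [h1, h]; ring

theorem Bo_sum {ι : Type} (s : Finset ι) (y : ι → Ω → ℝ) (i : Ω) :
    Bo π Λ (fun ω => ∑ k ∈ s, y k ω) i = ∑ k ∈ s, Bo π Λ (y k) i := by
  classical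
  induction s using Finset.induction_on with
  | empty =>
    simp only [Finset.sum_empty]
    have := Bo_const_mul π Λ 0 (fun _ => 0) i
    simpa using this
  | insert a s ha ih =>
    simp only [Finset.sum_insert ha]
    rw [Bo_add, ih]

/-- the bilinear form of `B` -/
theorem av_mul_Bo (y z : Ω → ℝ) :
    av (fun ω => z ω * Bo π Λ y ω) = (r : ℝ) * Λ * (av z * av y) +
      (r : ℝ) * ∑ c, ((∑ v, cm π c z v * cm π c y v) / Fintype.card V - av z * av y) := by
  rcases isEmpty_or_nonempty Ω with hΩ | hΩ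
  · have h0 : ∀ f : Ω → ℝ, av f = 0 := fun f => by unfold av; simp
    have h1 : ∀ (c : Fin r) (f : Ω → ℝ) (v : V), cm π c f v = 0 := fun c f v => by
      unfold cm; rw [h0, mul_zero]
    simp [h0, h1]
  · have hV : ∀ c : Fin r, 0 < Fintype.card V := fun c =>
      Fintype.card_pos_iff.2 ⟨π c (Classical.arbitrary Ω)⟩
    unfold Bo
    have h1 : (fun ω => z ω * ((r : ℝ) * Λ * av y + (r : ℝ) * ∑ c, (cm π c y (π c ω) - av y))) =
        fun ω => (r : ℝ) * Λ * av y * z ω + (r : ℝ) * ∑ c, (cm π c y (π c ω) * z ω - av y * z ω) := by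
      funext ω
      have : z ω * ((r : ℝ) * ∑ c, (cm π c y (π c ω) - av y)) =
          (r : ℝ) * ∑ c, (cm π c y (π c ω) * z ω - av y * z ω) := by
        rw [mul_left_comm, Finset.mul_sum]
        congr 1
        exact Finset.sum_congr rfl fun c _ => by ring
      rw [mul_add, this]; ring
    rw [h1, av_add, av_const_mul, av_const_mul, av_sum]
    congr 1
    · ring
    · congr 1
      refine Finset.sum_congr rfl fun c _ => ?_
      rw [av_sub, av_comp_mul π (hV c), av_const_mul]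
      congr 1
      · congr 1
        exact Finset.sum_congr rfl fun v _ => by ring
      · ring

theorem av_mul_Bo_comm (y z : Ω → ℝ) :
    av (fun ω => z ω * Bo π Λ y ω) = av (fun ω => y ω * Bo π Λ z ω) := by
  rw [av_mul_Bo, av_mul_Bo]
  congr 1
  · ring
  · congr 1
    refine Finset.sum_congr rfl fun c _ => ?_
    congr 1
    · congr 1
      exact Finset.sum_congr rfl fun v _ => by ring
    · ring

/-- the variance of the conditional means is nonnegative -/
theorem var_cm_nonneg (c : Fin r) (y : Ω → ℝ) :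
    0 ≤ (∑ v, cm π c y v * cm π c y v) / Fintype.card V - av y * av y := by
  rcases Nat.eq_zero_or_pos (Fintype.card V) with h | h
  · have hΩ : IsEmpty Ω := by
      rw [Fintype.card_eq_zero_iff] at h
      exact ⟨fun ω => h.elim (π c ω)⟩
    have h0 : av y = 0 := by unfold av; simp
    rw [h0, h]; simp
  · have hV : (0 : ℝ) < Fintype.card V := by exact_mod_cast h
    have h1 := Finset.sum_mul_sq_le_sq_mul_sq Finset.univ (fun _ : V => (1 : ℝ)) (fun v => cm π c y v)
    simp only [one_mul, one_pow, Finset.sum_const, Finset.card_univ, nsmul_eq_mul, mul_one] at h1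
    rw [sum_cm] at h1
    rw [sub_nonneg, le_div_iff₀ hV]
    have h2 : ∑ v, cm π c y v * cm π c y v = ∑ v, cm π c y v ^ 2 :=
      Finset.sum_congr rfl fun v _ => by ring
    rw [h2]
    have h3 : (Fintype.card V : ℝ) * (av y * av y * Fintype.card V) ≤
        Fintype.card V * ∑ v, cm π c y v ^ 2 := by nlinarith
    exact le_of_mul_le_mul_left h3 hV

/-- `B` is positive semidefinite -/
theorem av_mul_Bo_nonneg (y : Ω → ℝ) : 0 ≤ av (fun ω => y ω * Bo π Λ y ω) := by
  rw [av_mul_Bo]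
  have h1 : 0 ≤ av y * av y := mul_self_nonneg _
  have h2 : 0 ≤ ∑ c, ((∑ v, cm π c y v * cm π c y v) / Fintype.card V - av y * av y) :=
    Finset.sum_nonneg fun c _ => var_cm_nonneg π c y
  positivity

/-- `2 |<z, B y>| ≤ <z, B z> + <y, B y>`, one side -/
theorem two_av_mul_Bo_le (y z : Ω → ℝ) :
    2 * av (fun ω => z ω * Bo π Λ y ω) ≤
      av (fun ω => z ω * Bo π Λ z ω) + av (fun ω => y ω * Bo π Λ y ω) := by
  have h := av_mul_Bo_nonneg π Λ (fun ω => z ω - y ω)
  have h1 : (fun ω => (z ω - y ω) * Bo π Λ (fun ω => z ω - y ω) ω) =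
      fun ω => (z ω * Bo π Λ z ω - z ω * Bo π Λ y ω) - (y ω * Bo π Λ z ω - y ω * Bo π Λ y ω) := by
    funext ω
    rw [Bo_sub]; ring
  rw [h1, av_sub, av_sub, av_sub, av_mul_Bo_comm π Λ z y] at h
  linarith

theorem neg_two_av_mul_Bo_le (y z : Ω → ℝ) :
    -(2 * av (fun ω => z ω * Bo π Λ y ω)) ≤
      av (fun ω => z ω * Bo π Λ z ω) + av (fun ω => y ω * Bo π Λ y ω) := by
  have h := av_mul_Bo_nonneg π Λ (fun ω => z ω + y ω)
  have h1 : (fun ω => (z ω + y ω) * Bo π Λ (fun ω => z ω + y ω) ω) =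
      fun ω => (z ω * Bo π Λ z ω + z ω * Bo π Λ y ω) + (y ω * Bo π Λ z ω + y ω * Bo π Λ y ω) := by
    funext ω
    rw [Bo_add]; ring
  rw [h1, av_add, av_add, av_add, av_mul_Bo_comm π Λ z y] at h
  linarith

/-- lower bound of `B y` for `y ≥ 0` -/
theorem neg_le_Bo {y : Ω → ℝ} (hy : ∀ ω, 0 ≤ y ω) (i : Ω) : -((r : ℝ) ^ 2 * av y) ≤ Bo π Λ y i := by
  unfold Bo
  have h0 : 0 ≤ av y := av_nonneg hy
  have h1 : ∑ c : Fin r, (- av y) ≤ ∑ c, (cm π c y (π c i) - av y) :=
    Finset.sum_le_sum fun c _ => by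
      have := cm_nonneg π c hy (π c i)
      linarith
  rw [Finset.sum_const, Finset.card_univ, Fintype.card_fin, nsmul_eq_mul] at h1
  have h2 : 0 ≤ (r : ℝ) * Λ * av y := by positivity
  have h3 : (0 : ℝ) ≤ r := Nat.cast_nonneg _
  nlinarith

/-- upper bound of `B y` for `y ≥ 0` -/
theorem Bo_le {y : Ω → ℝ} (hy : ∀ ω, 0 ≤ y ω) (i : Ω) :
    Bo π Λ y i ≤ (r : ℝ) * Λ * av y + (r : ℝ) * ∑ c, cm π c y (π c i) := by
  unfold Bo
  have h0 : 0 ≤ av y := av_nonneg hy
  have h3 : (0 : ℝ) ≤ r := Nat.cast_nonneg _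
  gcongr with c _
  linarith

end Bo

end Pool.Agent.Helper47.PK
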