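import Pool.Agent.Helper47.PK.Convex0

/-! Project PK, piece PK-06b: the second derivative is nonnegative. -/

set_option autoImplicit false

namespace Pool.Agent.Helper47.PK

open Finset

variable {Ω V : Type} [Fintype Ω] [Fintype V] [DecidableEq V] {r : ℕ} (π : Fin r → Ω → V)
  (Λ : ℕ)

/-- a function supported in `Z` (the indicator `e` of `Z` has conditional means at most `p`) -/
theorem convexB_av_sq_le {e u : Ω → ℝ} {p : ℝ} (hee : ∀ ω, e ω ^ 2 = e ω)
    (heu : ∀ ω, e ω * u ω = u ω) (hav : av e ≤ p) :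
    (av u) ^ 2 ≤ p * av (fun ω => u ω ^ 2) := by
  have h := av_mul_sq_le e u
  have e1 : (fun ω => e ω * u ω) = u := funext heu
  have e2 : (fun ω => e ω ^ 2) = e := funext hee
  rw [e1, e2] at h
  exact h.trans (mul_le_mul_of_nonneg_right hav (av_nonneg fun ω => sq_nonneg _))

theorem convexB_cm_sq_le {e u : Ω → ℝ} {p : ℝ} (hee : ∀ ω, e ω ^ 2 = e ω)
    (heu : ∀ ω, e ω * u ω = u ω) (c : Fin r) (v : V) (hcm : cm π c e v ≤ p) :
    (cm π c u v) ^ 2 ≤ p * cm π c (fun ω => u ω ^ 2) v := by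
  have h := cm_mul_sq_le π c e u v
  have e1 : (fun ω => e ω * u ω) = u := funext heu
  have e2 : (fun ω => e ω ^ 2) = e := funext hee
  rw [e1, e2] at h
  exact h.trans (mul_le_mul_of_nonneg_right hcm (cm_nonneg π c (fun ω => sq_nonneg _) v))

/-- the quadratic form of `B` on functions supported in `Z` -/
theorem convexB_quad_le {e u : Ω → ℝ} {p : ℝ} (hee : ∀ ω, e ω ^ 2 = e ω)
    (heu : ∀ ω, e ω * u ω = u ω) (hp : 0 ≤ p) (hav : av e ≤ p)
    (hcm : ∀ (c : Fin r) (v : V), cm π c e v ≤ p) :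
    av (fun ω => u ω * Bo π Λ u ω) ≤ ((r : ℝ) * Λ + (r : ℝ) ^ 2) * p * av (fun ω => u ω ^ 2) := by
  have hu2 : 0 ≤ av (fun ω => u ω ^ 2) := av_nonneg fun ω => sq_nonneg _
  rw [av_mul_Bo]
  have h1 := convexB_av_sq_le hee heu hav
  have h2 : ∀ c : Fin r, (∑ v, cm π c u v * cm π c u v) / Fintype.card V - av u * av u
      ≤ p * av (fun ω => u ω ^ 2) := by
    intro c
    have h3 : ∑ v, cm π c u v * cm π c u v ≤ p * (Fintype.card V * av (fun ω => u ω ^ 2)) := by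
      rw [← sum_cm π c, Finset.mul_sum]
      refine Finset.sum_le_sum fun v _ => ?_
      have := convexB_cm_sq_le π hee heu c v (hcm c v)
      rwa [sq] at this
    have h4 : (∑ v, cm π c u v * cm π c u v) / Fintype.card V ≤ p * av (fun ω => u ω ^ 2) := by
      rcases Nat.eq_zero_or_pos (Fintype.card V) with h | h
      · rw [h]
        simp only [Nat.cast_zero, div_zero]
        positivity
      · have hV : (0 : ℝ) < Fintype.card V := by exact_mod_cast h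
        rw [div_le_iff₀ hV]
        linarith
    have h5 : 0 ≤ av u * av u := mul_self_nonneg _
    linarith
  have h6 : ∑ c : Fin r, ((∑ v, cm π c u v * cm π c u v) / Fintype.card V - av u * av u)
      ≤ ∑ _c : Fin r, p * av (fun ω => u ω ^ 2) := Finset.sum_le_sum fun c _ => h2 c
  rw [Finset.sum_const, Finset.card_univ, Fintype.card_fin, nsmul_eq_mul] at h6
  have h7 := mul_le_mul_of_nonneg_left h6 (Nat.cast_nonneg (α := ℝ) r)
  have h8 : (r : ℝ) * Λ * (av u * av u) ≤ (r : ℝ) * Λ * (p * av (fun ω => u ω ^ 2)) := by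
    refine mul_le_mul_of_nonneg_left ?_ (by positivity)
    rw [← sq]
    exact h1
  nlinarith

/-- pointwise bound of `B w` -/
theorem convexB_Bo_le {e w : Ω → ℝ} {p η : ℝ} (hee : ∀ ω, e ω ^ 2 = e ω)
    (hew : ∀ ω, e ω * w ω = w ω) (hp : 0 ≤ p) (hη : 0 ≤ η) (hav : av e ≤ p)
    (hcm : ∀ (c : Fin r) (v : V), cm π c e v ≤ p) (hw0 : ∀ ω, 0 ≤ w ω)
    (hw : av (fun ω => w ω ^ 2) ≤ 1)
    (h2 : ((r : ℝ) * Λ + (r : ℝ) ^ 2) * Real.sqrt (Fintype.card V * p) ≤ η) (i : Ω) :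
    Bo π Λ w i ≤ η := by
  rcases Nat.eq_zero_or_pos r with hr | hr
  · subst hr
    unfold Bo
    simpa using hη
  have hV : (1 : ℝ) ≤ Fintype.card V := by
    have : 0 < Fintype.card V := Fintype.card_pos_iff.2 ⟨π ⟨0, hr⟩ i⟩
    exact_mod_cast this
  have hw20 : 0 ≤ av (fun ω => w ω ^ 2) := av_nonneg fun ω => sq_nonneg _
  have ha : av w ≤ Real.sqrt (Fintype.card V * p) := by
    refine Real.le_sqrt_of_sq_le ?_
    have h3 := convexB_av_sq_le hee hew hav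
    have h4 : p * av (fun ω => w ω ^ 2) ≤ p * 1 := mul_le_mul_of_nonneg_left hw hp
    nlinarith
  have hc : ∀ c : Fin r, cm π c w (π c i) ≤ Real.sqrt (Fintype.card V * p) := by
    intro c
    refine Real.le_sqrt_of_sq_le ?_
    have h3 := convexB_cm_sq_le π hee hew c (π c i) (hcm c (π c i))
    have h4 := cm_le_card_mul_av π c (y := fun ω => w ω ^ 2) (fun ω => sq_nonneg _) (π c i)
    have h5 : (Fintype.card V : ℝ) * av (fun ω => w ω ^ 2) ≤ Fintype.card V * 1 :=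
      mul_le_mul_of_nonneg_left hw (by linarith)
    have h6 := mul_le_mul_of_nonneg_left (h4.trans h5) hp
    linarith
  refine (Bo_le π Λ hw0 i).trans (le_trans ?_ h2)
  have h7 : ∑ c, cm π c w (π c i) ≤ ∑ _c : Fin r, Real.sqrt (Fintype.card V * p) :=
    Finset.sum_le_sum fun c _ => hc c
  rw [Finset.sum_const, Finset.card_univ, Fintype.card_fin, nsmul_eq_mul] at h7
  have h8 := mul_le_mul_of_nonneg_left h7 (Nat.cast_nonneg (α := ℝ) r)
  have h9 : (r : ℝ) * Λ * av w ≤ (r : ℝ) * Λ * Real.sqrt (Fintype.card V * p) :=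
    mul_le_mul_of_nonneg_left ha (by positivity)
  nlinarith

/-- the indicator of `Z` -/
noncomputable def convexB_ind (η : ℝ) (x : Ω → ℝ) (ω : Ω) : ℝ :=
  open Classical in if Bo π Λ (fun i => x i ^ 2) ω < -(η / 2) then (1 : ℝ) else 0

theorem convexB_ind_sq (η : ℝ) (x : Ω → ℝ) (ω : Ω) :
    convexB_ind π Λ η x ω ^ 2 = convexB_ind π Λ η x ω := by
  unfold convexB_ind
  split_ifs <;> norm_num

theorem convexB_ind_mul {η : ℝ} (hη : 0 < η) (x : Ω → ℝ) (ω : Ω) (t : ℝ) :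
    convexB_ind π Λ η x ω * (deriv (gam η) (Bo π Λ (fun i => x i ^ 2) ω) * t) =
      deriv (gam η) (Bo π Λ (fun i => x i ^ 2) ω) * t := by
  unfold convexB_ind
  split_ifs with h
  · rw [one_mul]
  · rw [gam_deriv_eq_zero hη (by linarith [not_lt.1 h])]
    ring

/-- Piece PK-06b.  `E[w | D] ≤ (N p)^(1/2)` and `E w ≤ (N p)^(1/2)` for `w = x^2 ζ`, `0 ≤ ζ ≤ 1_Z`, and
the bound of the quadratic form of `B` on functions supported in `Z`.  Here
`Z = {B (x^2) < -η}` is contained in `{B (x^2) < -η/2}`, and `N = card V`.  Then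
`ff2 ≥ (12 - 8 - 4) η E v^2 + (12 - 8) E (x v)^2 ≥ 0`:
* `4 E[v^2 (g + γ(g))] ≥ -8 η E v^2` (`gam_ge`), `g = B(x^2)`;
* with `q = x v`, `ζ = -γ'(g) ∈ [0, 1_Z]`: `16 |<ζ q, B q>| ≤ 8 <q, B q> + 8 <ζ q, B (ζ q)>` (`two_av_mul_Bo_le`)
  and `<u, B u> ≤ r Λ (E u)^2 + r ∑_c (1/N) ∑_v (cm u v)^2` (`av_mul_Bo`), for `u = ζ q`:
  `(cm u v)^2 ≤ P(Z | D) E[q^2 | D] ≤ p E[q^2 | D]` (`cm_mul_sq_le`), so
  `<ζ q, B (ζ q)> ≤ (r Λ + r^2) p E q^2 ≤ E q^2` by `h1`;
* `8 E[x^2 γ''(g) (B q)^2] ≥ 0`;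
* `4 E[x^2 γ'(g) B (v^2)] = -4 E[w B (v^2)] = -4 E[v^2 B w]` with `w = x^2 ζ ≥ 0`, and
  `B w ≤ r Λ E w + r ∑_c cm w` (`Bo_le`), `cm w v ≤ (p · E[x^4 | D])^(1/2) ≤ (p N)^(1/2)`
  (`cm_mul_sq_le`, `cm_le_card_mul_av`), `E w ≤ (p N)^(1/2)` too (`N ≥ 1`), so `B w ≤ η` by `h2`. -/
theorem ff2_nonneg {η p : ℝ} (hg : Good π Λ η p) {x : Ω → ℝ}
    (hx : av (fun ω => x ω ^ 4) ≤ 1) (v : Ω → ℝ) : 0 ≤ ff2 π Λ η x v := by
  have hη := hg.eta_pos
  have hy2 : av (fun ω => (x ω ^ 2) ^ 2) ≤ 1 := by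
    have : (fun ω => (x ω ^ 2) ^ 2) = fun ω => x ω ^ 4 := by funext ω; ring
    rw [this]
    exact hx
  obtain ⟨hav, hcm⟩ := hg.rare (fun ω => x ω ^ 2) (fun ω => sq_nonneg _) hy2
  have hav' : av (convexB_ind π Λ η x) ≤ p := hav
  have hcm' : ∀ (c : Fin r) (w : V), cm π c (convexB_ind π Λ η x) w ≤ p := hcm
  have hee := convexB_ind_sq π Λ η x
  set g : Ω → ℝ := fun ω => Bo π Λ (fun i => x i ^ 2) ω with hgdef
  set q : Ω → ℝ := fun ω => x ω * v ω with hq
  -- first group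
  have t1 : -(8 * η * av (fun ω => v ω ^ 2)) ≤
      4 * av (fun ω => v ω ^ 2 * g ω) + 4 * av (fun ω => v ω ^ 2 * gam η (g ω)) := by
    rw [← mul_add, ← av_add]
    have h1 : av (fun ω => -(2 * η) * v ω ^ 2) ≤
        av (fun ω => v ω ^ 2 * g ω + v ω ^ 2 * gam η (g ω)) := by
      refine av_mono fun ω => ?_
      have h2 := gam_ge hη (g ω)
      have h3 : 0 ≤ v ω ^ 2 := sq_nonneg _
      nlinarith
    rw [av_const_mul] at h1
    linarith
  -- second group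
  have t2 : -(8 * av (fun ω => q ω ^ 2)) ≤ 8 * av (fun ω => q ω * Bo π Λ q ω) +
      16 * av (fun ω => deriv (gam η) (g ω) * q ω * Bo π Λ q ω) := by
    have h1 := neg_two_av_mul_Bo_le π Λ q (fun ω => deriv (gam η) (g ω) * q ω)
    have h2 := convexB_quad_le π Λ (e := convexB_ind π Λ η x)
      (u := fun ω => deriv (gam η) (g ω) * q ω) hee
      (fun ω => convexB_ind_mul π Λ hη x ω (q ω)) hg.p_nonneg hav' hcm'
    have h3 : av (fun ω => (deriv (gam η) (g ω) * q ω) ^ 2) ≤ av (fun ω => q ω ^ 2) := by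
      refine av_mono fun ω => ?_
      have h4 := gam_deriv_nonpos hη (g ω)
      have h5 := neg_one_le_gam_deriv hη (g ω)
      have h6 : deriv (gam η) (g ω) ^ 2 ≤ 1 := by nlinarith
      rw [mul_pow]
      nlinarith [sq_nonneg (q ω)]
    have h7 : 0 ≤ av (fun ω => (deriv (gam η) (g ω) * q ω) ^ 2) :=
      av_nonneg fun ω => sq_nonneg _
    have h8 := mul_le_mul_of_nonneg_right hg.h1 h7
    have h9 : av (fun ω => deriv (gam η) (g ω) * q ω * Bo π Λ (fun ω => deriv (gam η) (g ω) * q ω) ω)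
        ≤ av (fun ω => q ω ^ 2) := by linarith
    linarith
  -- third group
  have t3 : 0 ≤ 8 * av (fun ω => x ω ^ 2 * deriv (deriv (gam η)) (g ω) * (Bo π Λ q ω) ^ 2) := by
    refine mul_nonneg (by norm_num) (av_nonneg fun ω => ?_)
    exact mul_nonneg (mul_nonneg (sq_nonneg _) (gam_deriv_deriv_nonneg hη _)) (sq_nonneg _)
  -- fourth group
  have t4 : -(4 * η * av (fun ω => v ω ^ 2)) ≤
      4 * av (fun ω => x ω ^ 2 * deriv (gam η) (g ω) * Bo π Λ (fun i => v i ^ 2) ω) := by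
    set w : Ω → ℝ := fun ω => deriv (gam η) (g ω) * (-(x ω ^ 2)) with hw
    have e1 : (fun ω => x ω ^ 2 * deriv (gam η) (g ω) * Bo π Λ (fun i => v i ^ 2) ω) =
        fun ω => - (w ω * Bo π Λ (fun i => v i ^ 2) ω) := by
      funext ω
      simp only [hw]
      ring
    rw [e1, av_neg, av_mul_Bo_comm]
    have hw0 : ∀ ω, 0 ≤ w ω := fun ω => by
      have h4 := gam_deriv_nonpos hη (g ω)
      have h5 : 0 ≤ x ω ^ 2 := sq_nonneg _
      simp only [hw]
      nlinarith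
    have hww : av (fun ω => w ω ^ 2) ≤ 1 := by
      refine le_trans (av_mono fun ω => ?_) hy2
      have h4 := gam_deriv_nonpos hη (g ω)
      have h5 := neg_one_le_gam_deriv hη (g ω)
      have h6 : deriv (gam η) (g ω) ^ 2 ≤ 1 := by nlinarith
      simp only [hw]
      rw [mul_pow, neg_sq]
      nlinarith [sq_nonneg (x ω ^ 2)]
    have hB := convexB_Bo_le π Λ (e := convexB_ind π Λ η x) (w := w) hee
      (fun ω => convexB_ind_mul π Λ hη x ω _) hg.p_nonneg hη.le hav' hcm' hw0 hww hg.h2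
    have h1 : av (fun ω => v ω ^ 2 * Bo π Λ w ω) ≤ av (fun ω => η * v ω ^ 2) := by
      refine av_mono fun ω => ?_
      have := hB ω
      have h5 : 0 ≤ v ω ^ 2 := sq_nonneg _
      nlinarith
    rw [av_const_mul] at h1
    linarith
  have t5 : 0 ≤ av (fun ω => q ω ^ 2) := av_nonneg fun ω => sq_nonneg _
  have e : ff2 π Λ η x v = 12 * η * av (fun ω => v ω ^ 2) + 12 * av (fun ω => q ω ^ 2) +
      4 * av (fun ω => v ω ^ 2 * g ω) + 8 * av (fun ω => q ω * Bo π Λ q ω) +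
      4 * av (fun ω => v ω ^ 2 * gam η (g ω)) +
      16 * av (fun ω => deriv (gam η) (g ω) * q ω * Bo π Λ q ω) +
      8 * av (fun ω => x ω ^ 2 * deriv (deriv (gam η)) (g ω) * (Bo π Λ q ω) ^ 2) +
      4 * av (fun ω => x ω ^ 2 * deriv (gam η) (g ω) * Bo π Λ (fun i => v i ^ 2) ω) := rfl
  rw [e]
  linarith

end Pool.Agent.Helper47.PK
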