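import Pool.Agent.Helper47.PK.ConvexA
import Pool.Agent.Helper47.PK.ConvexB

/-! Project PK, piece PK-06c: convexity of `ff` on `{E x^4 ≤ 1}` and consequences. -/

set_option autoImplicit false

namespace Pool.Agent.Helper47.PK

open Finset

variable {Ω V : Type} [Fintype Ω] [Fintype V] [DecidableEq V] {r : ℕ} (π : Fin r → Ω → V)
  (Λ : ℕ)

/-- Piece PK-06c.  From PK-06a and PK-06b: restrict to a segment (`convexOn_of_deriv2_nonneg` on
`Icc 0 1`, or monotonicity of `f1`), inside the convex set `{E x^4 ≤ 1}` (`convex_av_four`). -/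
theorem ff_convex {η p : ℝ} (hg : Good π Λ η p) :
    ConvexOn ℝ {x : Ω → ℝ | av (fun ω => x ω ^ 4) ≤ 1} (ff π Λ η) := by
  refine ⟨convex_av_four, fun x hx y hy a b ha hb hab => ?_⟩
  have hseg : ∀ s ∈ Set.Icc (0 : ℝ) 1, av (fun ω => (x + s • (y - x)) ω ^ 4) ≤ 1 := by
    intro s hs
    have := convex_av_four hx hy (a := 1 - s) (b := s) (by linarith [hs.2]) hs.1 (by ring)
    have e : x + s • (y - x) = (1 - s) • x + s • y := by
      funext ω
      simp only [Pi.add_apply, Pi.smul_apply, Pi.sub_apply, smul_eq_mul]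
      ring
    rw [e]
    exact this
  obtain ⟨f1, hf1, hf2⟩ := ff_line π Λ hg.eta_pos x (y - x)
  have hconv : ConvexOn ℝ (Set.Icc (0 : ℝ) 1) (fun s => ff π Λ η (x + s • (y - x))) := by
    refine convexOn_of_hasDerivWithinAt2_nonneg (convex_Icc 0 1)
      (f' := f1) (f'' := fun s => ff2 π Λ η (x + s • (y - x)) (y - x)) ?_ ?_ ?_ ?_
    · exact fun s _ => (hf1 s).continuousAt.continuousWithinAt
    · exact fun s _ => (hf1 s).hasDerivWithinAt
    · exact fun s _ => (hf2 s).hasDerivWithinAt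
    · intro s hs
      rw [interior_Icc] at hs
      exact ff2_nonneg π Λ hg (hseg s ⟨hs.1.le, hs.2.le⟩) (y - x)
  have h := hconv.2 (Set.left_mem_Icc.2 zero_le_one) (Set.right_mem_Icc.2 zero_le_one) ha hb hab
  simp only [smul_eq_mul, mul_zero, mul_one, zero_add, zero_smul, one_smul, add_zero] at h
  have e1 : x + b • (y - x) = a • x + b • y := by
    funext ω
    simp only [Pi.add_apply, Pi.smul_apply, Pi.sub_apply, smul_eq_mul]
    have : a = 1 - b := by linarith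
    rw [this]
    ring
  have e2 : x + (y - x) = y := by
    funext ω
    simp only [Pi.add_apply, Pi.sub_apply]
    ring
  rw [e1, e2] at h
  exact h

/-- Piece PK-06d (`γ ≥ 0`). -/
theorem PP_le_ff {η : ℝ} (hη : 0 < η) (x : Ω → ℝ) : PP π Λ x ≤ ff π Λ η x := by
  unfold ff G1
  have h1 : 0 ≤ av (fun ω => x ω ^ 2) := av_nonneg fun ω => sq_nonneg _
  have h2 : 0 ≤ av (fun ω => x ω ^ 2 * gam η (Bo π Λ (fun i => x i ^ 2) ω)) :=
    av_nonneg fun ω => mul_nonneg (sq_nonneg _) (gam_nonneg hη _)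
  have h3 : 0 ≤ 6 * η * av (fun ω => x ω ^ 2) := by positivity
  linarith

/-- Piece PK-06e.  `6 η E x^2 ≤ 6 η`; and `γ(B x^2)` vanishes off `Z` and is at most `|B x^2| ≤ r^2 E x^2 ≤ r^2`
on `Z` (`gam_le`, `neg_le_Bo`; on `Z` the value `B x^2` is negative), so
`2 E[x^2 γ(B x^2)] ≤ 2 r^2 E[x^2 1_Z] ≤ 2 r^2 p^(1/2) ≤ 2 η` (Cauchy-Schwarz, `E x^4 ≤ 1`, `h2`). -/
theorem ff_le {η p : ℝ} (hg : Good π Λ η p) {x : Ω → ℝ}
    (hx : av (fun ω => x ω ^ 4) ≤ 1) : ff π Λ η x ≤ PP π Λ x + 8 * η := by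
  have hη := hg.eta_pos
  have hp := hg.p_nonneg
  have hy2 : av (fun ω => (x ω ^ 2) ^ 2) ≤ 1 := by
    have : (fun ω => (x ω ^ 2) ^ 2) = fun ω => x ω ^ 4 := by funext ω; ring
    rw [this]
    exact hx
  have hm0 : 0 ≤ av (fun ω => x ω ^ 2) := av_nonneg fun ω => sq_nonneg _
  have hm1 : av (fun ω => x ω ^ 2) ≤ 1 := by
    have h1 := av_sq_le (fun ω => x ω ^ 2)
    nlinarith
  obtain ⟨hav, _⟩ := hg.rare (fun ω => x ω ^ 2) (fun ω => sq_nonneg _) hy2
  have hav' : av (convexB_ind π Λ η x) ≤ p := hav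
  have hee := convexB_ind_sq π Λ η x
  -- the mean of `x^2` on `Z`
  have hZ : av (fun ω => convexB_ind π Λ η x ω * x ω ^ 2) ≤ Real.sqrt p := by
    refine Real.le_sqrt_of_sq_le ?_
    have h1 := av_mul_sq_le (convexB_ind π Λ η x) (fun ω => x ω ^ 2)
    have e2 : (fun ω => convexB_ind π Λ η x ω ^ 2) = convexB_ind π Λ η x := funext hee
    rw [e2] at h1
    have h2 : av (convexB_ind π Λ η x) * av (fun ω => (x ω ^ 2) ^ 2) ≤ p * 1 :=
      mul_le_mul hav' hy2 (av_nonneg fun ω => sq_nonneg _) hp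
    linarith
  have hG : G1 π Λ η x ≤ (r : ℝ) ^ 2 * av (fun ω => convexB_ind π Λ η x ω * x ω ^ 2) := by
    unfold G1
    rw [← av_const_mul]
    refine av_mono fun ω => ?_
    unfold convexB_ind
    have h0 : 0 ≤ x ω ^ 2 := sq_nonneg _
    split_ifs with h
    · have h1 := gam_le hη (Bo π Λ (fun i => x i ^ 2) ω)
      rw [abs_of_neg (by linarith)] at h1
      have h2 := neg_le_Bo π Λ (y := fun i => x i ^ 2) (fun ω => sq_nonneg _) ω
      have h3 : (r : ℝ) ^ 2 * av (fun ω => x ω ^ 2) ≤ (r : ℝ) ^ 2 * 1 :=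
        mul_le_mul_of_nonneg_left hm1 (by positivity)
      have h4 : gam η (Bo π Λ (fun i => x i ^ 2) ω) ≤ (r : ℝ) ^ 2 := by linarith
      nlinarith
    · rw [gam_eq_zero hη (by linarith [not_lt.1 h])]
      simp
  have hG2 : G1 π Λ η x ≤ η := by
    rcases Nat.eq_zero_or_pos r with hr | hr
    · subst hr
      have : G1 π Λ η x ≤ 0 := by simpa using hG
      linarith
    rcases isEmpty_or_nonempty Ω with hΩ | hΩ
    · have : G1 π Λ η x = 0 := by
        unfold G1 av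
        simp
      rw [this]
      exact hη.le
    have hV : (1 : ℝ) ≤ Fintype.card V := by
      have : 0 < Fintype.card V := Fintype.card_pos_iff.2 ⟨π ⟨0, hr⟩ (Classical.arbitrary Ω)⟩
      exact_mod_cast this
    have h1 : Real.sqrt p ≤ Real.sqrt (Fintype.card V * p) := Real.sqrt_le_sqrt (by nlinarith)
    have h2 : (r : ℝ) ^ 2 * av (fun ω => convexB_ind π Λ η x ω * x ω ^ 2) ≤
        (r : ℝ) ^ 2 * Real.sqrt (Fintype.card V * p) :=
      mul_le_mul_of_nonneg_left (hZ.trans h1) (by positivity)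
    have h3 : (r : ℝ) ^ 2 * Real.sqrt (Fintype.card V * p) ≤
        ((r : ℝ) * Λ + (r : ℝ) ^ 2) * Real.sqrt (Fintype.card V * p) := by
      refine mul_le_mul_of_nonneg_right ?_ (Real.sqrt_nonneg _)
      have : 0 ≤ (r : ℝ) * Λ := by positivity
      linarith
    exact hG.trans (h2.trans (h3.trans hg.h2))
  unfold ff
  have h7 : 6 * η * av (fun ω => x ω ^ 2) ≤ 6 * η := by nlinarith
  linarith

/-- Piece PK-06f.  On `{P ≤ 1}`: `ff ≤ 1 + 8 η ≤ 2`; by convexity `ff ≤ 2` on the convex hull, so `P ≤ 2`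
there; conclude with `PP_le_of_UB`. -/
theorem PP_le_two {η p : ℝ} (hg : Good π Λ η p) (x : FB π Λ) : PP π Λ x ≤ 2 * ‖x‖ ^ 4 := by
  refine PP_le_of_UB π Λ (by norm_num) (fun z hz => ?_) x
  have hsub : UB π Λ ⊆ {x ∈ {x : Ω → ℝ | av (fun ω => x ω ^ 4) ≤ 1} | ff π Λ η x ≤ 2} := by
    refine convexHull_min (fun y hy => ?_) ((ff_convex π Λ hg).convex_le 2)
    have hy' : PP π Λ y ≤ 1 := hy
    have h4 : av (fun ω => y ω ^ 4) ≤ 1 := (av_four_le_PP π Λ y).trans hy'
    have h5 := ff_le π Λ hg h4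
    have h6 := hg.eta_le
    exact ⟨h4, by linarith⟩
  exact (PP_le_ff π Λ hg.eta_pos z).trans (hsub hz).2

end Pool.Agent.Helper47.PK
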