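import Pool.Agent.Helper47.PK.Basic

/-! Project PK, piece PK-02: independence, conditional means of simple functions, Bessel's
inequality. -/

set_option autoImplicit false

namespace Pool.Agent.Helper47.PK

open Finset

variable {Ω V : Type} [Fintype Ω] [Fintype V] [DecidableEq V] {r t : ℕ} {π : Fin r → Ω → V}
  {Λ : ℕ}

/-- Piece PK-02a.  Independence: the mean of a product of functions of at most `t + 1` classes.
Proof: expand both sides over `v : U → V` (the function `ω ↦ ∏ g c (π c ω)` is
`∑_v [∀ c ∈ U, π c ω = v c] ∏ g c (v c)`), and use `hπ.indep U hU v`. -/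
theorem av_prod [Nonempty Ω] (hπ : IsDes t π) (U : Finset (Fin r)) (hU : U.card ≤ t + 1)
    (g : Fin r → V → ℝ) :
    av (fun ω => ∏ c ∈ U, g c (π c ω)) = ∏ c ∈ U, ((∑ v, g c v) / Fintype.card V) := by
  classical
  have hΩ : (Fintype.card Ω : ℝ) ≠ 0 := by exact_mod_cast Fintype.card_ne_zero
  have hcard : ∀ h : U → V, ((univ.filter fun ω : Ω => (fun c : U => π c ω) = h).card : ℝ) *
      (Fintype.card V : ℝ) ^ U.card = Fintype.card Ω := by
    intro h
    have h1 := hπ.indep U hU
      (fun c => if hc : c ∈ U then h ⟨c, hc⟩ else π c (Classical.arbitrary Ω))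
    have h2 : (univ.filter fun ω : Ω => (fun c : U => π c ω) = h).card =
        Fintype.card {ω : Ω // ∀ c ∈ U, π c ω =
          (fun c => if hc : c ∈ U then h ⟨c, hc⟩ else π c (Classical.arbitrary Ω)) c} := by
      rw [Fintype.card_subtype]
      congr 1
      ext ω
      simp only [mem_filter, mem_univ, true_and]
      constructor
      · intro h3 c hc
        rw [dif_pos hc, ← h3]
      · intro h3
        funext c
        have := h3 c.1 c.2
        rw [dif_pos c.2] at this
        exact this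
    rw [h2]
    exact_mod_cast h1
  have hV : (Fintype.card V : ℝ) ^ U.card ≠ 0 := by
    intro h0
    have := hcard (fun c => π c (Classical.arbitrary Ω))
    rw [h0, mul_zero] at this
    exact hΩ this.symm
  have hsum : ∑ ω, ∏ c ∈ U, g c (π c ω) =
      ∑ h : U → V, ((univ.filter fun ω : Ω => (fun c : U => π c ω) = h).card : ℝ) *
        ∏ c : U, g c (h c) := by
    have h1 : ∀ ω : Ω, ∏ c ∈ U, g c (π c ω) =
        ∑ h : U → V, if (fun c : U => π c ω) = h then ∏ c : U, g c (h c) else 0 := by
      intro ω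
      rw [Finset.sum_ite_eq univ (fun c : U => π c ω) (fun h => ∏ c : U, g c (h c)),
        if_pos (mem_univ _)]
      exact (Finset.prod_coe_sort U (fun c => g c (π c ω))).symm
    simp only [h1]
    rw [Finset.sum_comm]
    refine Finset.sum_congr rfl fun h _ => ?_
    rw [← Finset.sum_filter, Finset.sum_const, nsmul_eq_mul]
  have hprod : ∏ c ∈ U, (∑ v, g c v) = ∑ h : U → V, ∏ c : U, g c (h c) := by
    rw [← Finset.prod_coe_sort U (fun c => ∑ v, g c v)]
    exact Fintype.prod_sum (fun (c : U) v => g c v)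
  have hval : ∀ h : U → V, ((univ.filter fun ω : Ω => (fun c : U => π c ω) = h).card : ℝ) =
      (Fintype.card Ω : ℝ) / (Fintype.card V : ℝ) ^ U.card := by
    intro h
    rw [eq_div_iff hV]
    exact hcard h
  unfold av
  rw [hsum, Finset.prod_div_distrib, hprod, Finset.prod_const]
  simp only [hval]
  rw [← Finset.mul_sum]
  field_simp

/-- Piece PK-02b. -/
theorem av_comp [Nonempty Ω] (hπ : IsDes t π) (c : Fin r) (g : V → ℝ) :
    av (fun ω => g (π c ω)) = (∑ v, g v) / Fintype.card V := by
  have h := av_prod hπ {c} (by simp) (fun _ => g)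
  simpa using h

/-- Piece PK-02c.  Conditional mean of a function of the same class. -/
theorem cm_comp_self [Nonempty Ω] (hπ : IsDes t π) (c : Fin r) (g : V → ℝ) (v : V) :
    cm π c (fun ω => g (π c ω)) v = g v := by
  have hV : (Fintype.card V : ℝ) ≠ 0 := by
    have : Nonempty V := ⟨v⟩
    exact_mod_cast Fintype.card_ne_zero
  have h := av_comp hπ c (fun w => if w = v then g w else 0)
  unfold cm
  rw [h, Finset.sum_ite_eq' univ v g, if_pos (mem_univ _)]
  field_simp

/-- Piece PK-02d.  Conditional mean of a product of functions of at most `t` other classes. -/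
theorem cm_prod [Nonempty Ω] (hπ : IsDes t π) (c₀ : Fin r) (v₀ : V) (U : Finset (Fin r))
    (hc : c₀ ∉ U) (hU : U.card ≤ t) (g : Fin r → V → ℝ) :
    cm π c₀ (fun ω => ∏ c ∈ U, g c (π c ω)) v₀ = ∏ c ∈ U, ((∑ v, g c v) / Fintype.card V) := by
  have hV : (Fintype.card V : ℝ) ≠ 0 := by
    have : Nonempty V := ⟨v₀⟩
    exact_mod_cast Fintype.card_ne_zero
  have h := av_prod hπ (insert c₀ U) (by rw [Finset.card_insert_of_notMem hc]; omega)
    (Function.update g c₀ (fun w => if w = v₀ then 1 else 0))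
  have h1 : ∀ c ∈ U, Function.update g c₀ (fun w => if w = v₀ then (1 : ℝ) else 0) c = g c := by
    intro c hcU
    exact Function.update_of_ne (by rintro rfl; exact hc hcU) _ _
  have h2 : (fun ω => ∏ c ∈ insert c₀ U,
      Function.update g c₀ (fun w => if w = v₀ then (1 : ℝ) else 0) c (π c ω)) =
      fun ω => if π c₀ ω = v₀ then ∏ c ∈ U, g c (π c ω) else 0 := by
    funext ω
    rw [Finset.prod_insert hc, Function.update_self]
    rw [Finset.prod_congr rfl fun c hcU => by rw [h1 c hcU]]
    split_ifs <;> simp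
  rw [h2, Finset.prod_insert hc, Function.update_self, Finset.sum_ite_eq' univ v₀ (fun _ => (1 : ℝ)),
    if_pos (mem_univ _), Finset.prod_congr rfl fun c hcU => by rw [h1 c hcU]] at h
  unfold cm
  rw [h]
  field_simp

/-- Piece PK-02e.  Bessel's inequality: `∑_c Var (E[y | π c]) ≤ E y^2 - (E y)^2`.
Proof: with `b c v = cm π c y v - av y` and `z ω = ∑_c b c (π c ω)` one has `E z = 0`,
`E[z y] = ∑_c (1/N) ∑_v (b c v) (cm π c y v) = ∑_c (1/N) ∑_v (b c v)^2 = S` and `E z^2 = S` (pairwise
independence, `av_prod` with `U = {c, c'}`, needs `1 ≤ t`); now `0 ≤ E (y - av y - z)^2`. -/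
theorem bessel [Nonempty Ω] (hπ : IsDes t π) (ht : 1 ≤ t) (y : Ω → ℝ) :
    ∑ c, ((∑ v, cm π c y v * cm π c y v) / Fintype.card V - av y * av y) ≤
      av (fun ω => y ω ^ 2) - (av y) ^ 2 := by
  rcases Nat.eq_zero_or_pos r with hr | hr
  · subst hr
    simp only [Finset.univ_eq_empty, Finset.sum_empty]
    have := av_sq_le y
    linarith
  have hVpos : 0 < Fintype.card V :=
    Fintype.card_pos_iff.2 ⟨π ⟨0, hr⟩ (Classical.arbitrary Ω)⟩
  have hV : (Fintype.card V : ℝ) ≠ 0 := by exact_mod_cast hVpos.ne'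
  set b : Fin r → V → ℝ := fun c v => cm π c y v - av y with hb
  set z : Ω → ℝ := fun ω => ∑ c, b c (π c ω) with hz
  have hb0 : ∀ c, ∑ v, b c v = 0 := by
    intro c
    simp only [hb]
    rw [Finset.sum_sub_distrib, sum_cm, Finset.sum_const, Finset.card_univ, nsmul_eq_mul, sub_self]
  have hbb : ∀ c, (∑ v, b c v * cm π c y v) / Fintype.card V =
      (∑ v, cm π c y v * cm π c y v) / Fintype.card V - av y * av y := by
    intro c
    have h1 : ∑ v, b c v * cm π c y v =
        ∑ v, cm π c y v * cm π c y v - av y * (Fintype.card V * av y) := by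
      rw [← sum_cm π c y, Finset.mul_sum, ← Finset.sum_sub_distrib]
      exact Finset.sum_congr rfl fun v _ => by simp only [hb]; ring
    rw [h1]
    field_simp
  have hbb2 : ∀ c, (∑ v, b c v * b c v) / Fintype.card V =
      (∑ v, cm π c y v * cm π c y v) / Fintype.card V - av y * av y := by
    intro c
    rw [← hbb c]
    congr 1
    have h1 : ∑ v, b c v * b c v = ∑ v, b c v * cm π c y v - av y * ∑ v, b c v := by
      rw [Finset.mul_sum, ← Finset.sum_sub_distrib]
      exact Finset.sum_congr rfl fun v _ => by simp only [hb]; ring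
    rw [h1, hb0 c, mul_zero, sub_zero]
  have hcz : ∀ c v, cm π c z v = b c v := by
    intro c v
    have h1 : cm π c z v = ∑ c', cm π c (fun ω => b c' (π c' ω)) v := by
      rw [← cm_sum]
    rw [h1, Finset.sum_eq_single c]
    · exact cm_comp_self hπ c (b c) v
    · intro c' _ hc'
      have h2 := cm_prod hπ c v {c'} (by rw [Finset.mem_singleton]; exact fun h => hc' h.symm)
        (by rw [Finset.card_singleton]; exact ht) b
      simp only [Finset.prod_singleton] at h2
      rw [h2, hb0, zero_div]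
    · intro h2; exact absurd (mem_univ c) h2
  have hEz : av z = 0 := by
    rw [hz, av_sum]
    refine Finset.sum_eq_zero fun c _ => ?_
    have := av_comp hπ c (b c)
    rw [this, hb0, zero_div]
  have hEzy : av (fun ω => z ω * y ω) =
      ∑ c, ((∑ v, cm π c y v * cm π c y v) / Fintype.card V - av y * av y) := by
    have h1 : (fun ω => z ω * y ω) = fun ω => ∑ c, b c (π c ω) * y ω := by
      funext ω; rw [hz, Finset.sum_mul]
    rw [h1, av_sum]
    refine Finset.sum_congr rfl fun c _ => ?_
    rw [av_comp_mul π hVpos, hbb]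
  have hEzz : av (fun ω => z ω * z ω) =
      ∑ c, ((∑ v, cm π c y v * cm π c y v) / Fintype.card V - av y * av y) := by
    have h1 : (fun ω => z ω * z ω) = fun ω => ∑ c, b c (π c ω) * z ω := by
      funext ω
      conv_lhs => rw [hz]
      rw [Finset.sum_mul]
    rw [h1, av_sum]
    refine Finset.sum_congr rfl fun c _ => ?_
    rw [av_comp_mul π hVpos, ← hbb2 c]
    simp only [hcz]
  have hpos : 0 ≤ av (fun ω => (y ω - av y - z ω) ^ 2) := av_nonneg fun ω => sq_nonneg _
  have hexp : av (fun ω => (y ω - av y - z ω) ^ 2) =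
      av (fun ω => y ω ^ 2) - (av y) ^ 2 + av (fun ω => z ω * z ω) -
        2 * av (fun ω => z ω * y ω) + 2 * av y * av z := by
    have h1 : (fun ω => (y ω - av y - z ω) ^ 2) = fun ω => y ω ^ 2 + ((av y) ^ 2 +
        (z ω * z ω + ((-2 * av y) * y ω + ((-2) * (z ω * y ω) + (2 * av y) * z ω)))) := by
      funext ω; ring
    rw [h1, av_add, av_add, av_add, av_add, av_add, av_const, av_const_mul, av_const_mul,
      av_const_mul]
    ring
  rw [hexp, hEz, hEzy, hEzz] at hpos
  linarith

/-- Piece PK-02f.  `B ≤ r Λ` (uses `Λ ≥ 1`, so that `r ≤ r Λ`). -/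
theorem av_mul_Bo_le [Nonempty Ω] (hπ : IsDes t π) (ht : 1 ≤ t) (hΛ : 1 ≤ Λ) (y : Ω → ℝ) :
    av (fun ω => y ω * Bo π Λ y ω) ≤ (r : ℝ) * Λ * av (fun ω => y ω ^ 2) := by
  have h1 := bessel hπ ht y
  have h2 := av_sq_le y
  have h3 : (1 : ℝ) ≤ Λ := by exact_mod_cast hΛ
  have hr : (0 : ℝ) ≤ r := Nat.cast_nonneg _
  rw [av_mul_Bo]
  have h4 : (r : ℝ) * ∑ c, ((∑ v, cm π c y v * cm π c y v) / Fintype.card V - av y * av y) ≤
      (r : ℝ) * (av (fun ω => y ω ^ 2) - (av y) ^ 2) := mul_le_mul_of_nonneg_left h1 hr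
  have h5 : (r : ℝ) * ((Λ - 1) * (av y) ^ 2) ≤ (r : ℝ) * ((Λ - 1) * av (fun ω => y ω ^ 2)) := by
    have : (0 : ℝ) ≤ Λ - 1 := by linarith
    gcongr
  nlinarith

end Pool.Agent.Helper47.PK
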