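import Pool.Agent.Helper47.PK.FB
import Pool.Agent.Helper47.PK.Indep

/-! Project PK, piece PK-04: values of the quartic `P` on special functions. -/

set_option autoImplicit false

namespace Pool.Agent.Helper47.PK

open Finset

variable {Ω V : Type} [Fintype Ω] [Fintype V] [DecidableEq V] {r t : ℕ} {π : Fin r → Ω → V}
  {Λ : ℕ}

/-- Piece PK-04a.  `P x ≤ E x^4 + r Λ E x^4 ≤ 1 + r Λ` if `|x| ≤ 1` (`av_mul_Bo_le` with `y = x^2`). -/
theorem PP_le_of_abs_le [Nonempty Ω] (hπ : IsDes t π) (ht : 1 ≤ t) (hΛ : 1 ≤ Λ) {x : Ω → ℝ}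
    (hx : ∀ ω, |x ω| ≤ 1) : PP π Λ x ≤ 1 + (r : ℝ) * Λ := by
  unfold PP
  have h1 : av (fun ω => x ω ^ 4) ≤ 1 := by
    calc av (fun ω => x ω ^ 4) ≤ av (fun _ : Ω => (1 : ℝ)) := av_mono fun ω => by
          have h2 := (sq_le_one_iff_abs_le_one (x ω)).2 (hx ω)
          nlinarith [sq_nonneg (x ω)]
      _ = 1 := av_const 1
  have h2 := av_mul_Bo_le hπ ht hΛ (fun ω => x ω ^ 2)
  have h3 : (fun ω => (x ω ^ 2) ^ 2) = fun ω => x ω ^ 4 := by funext ω; ring
  rw [h3] at h2
  have h4 : (0 : ℝ) ≤ (r : ℝ) * Λ := by positivity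
  nlinarith

theorem pPVal_av_ite_eq [DecidableEq Ω] (i : Ω) (f : Ω → ℝ) :
    av (fun ω => (if ω = i then f ω else 0)) = f i / Fintype.card Ω := by
  unfold av
  rw [Finset.sum_ite_eq' univ i f, if_pos (mem_univ _)]

/-- Piece PK-04b.  `y = x^2` is the indicator of a point: `E y = 1/n`, `cm y v ≤ N/n` at one `v` and `0`
at the others, so `<y, B y> ≤ r Λ / n^2 + r ∑_c (1/N) (N/n)^2 = (r Λ + r^2 N)/n^2` (`av_mul_Bo`) and
`P ≤ 1/n + (r Λ + r^2 N)/n^2 ≤ 2/n`. -/
theorem PP_single_le [DecidableEq Ω] (i : Ω)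
    (hn : (r : ℝ) * Λ + (r : ℝ) ^ 2 * Fintype.card V ≤ Fintype.card Ω) :
    PP π Λ (Pi.single i 1) ≤ 2 / Fintype.card Ω := by
  have hn0 : (0 : ℝ) < Fintype.card Ω := by
    have : Nonempty Ω := ⟨i⟩
    exact_mod_cast Fintype.card_pos
  set n : ℝ := (Fintype.card Ω : ℝ) with hnd
  set y : Ω → ℝ := fun ω => if ω = i then 1 else 0 with hy
  have h2 : (fun j => (Pi.single i (1 : ℝ) : Ω → ℝ) j ^ 2) = y := by
    funext ω
    by_cases h : ω = i
    · subst h; simp [hy]
    · simp [hy, h]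
  have h4 : (fun j => (Pi.single i (1 : ℝ) : Ω → ℝ) j ^ 4) = y := by
    funext ω
    by_cases h : ω = i
    · subst h; simp [hy]
    · simp [hy, h]
  have hav : av y = 1 / n := pPVal_av_ite_eq i (fun _ => 1)
  unfold PP
  rw [h4, h2, hav]
  have h5 : (fun ω => (Pi.single i (1 : ℝ) : Ω → ℝ) ω ^ 2 * Bo π Λ y ω) =
      fun ω => if ω = i then Bo π Λ y ω else 0 := by
    funext ω
    by_cases h : ω = i
    · subst h; simp
    · simp [h]
  rw [h5, pPVal_av_ite_eq]
  have hcm : ∀ c : Fin r, cm π c y (π c i) = Fintype.card V * (1 / n) := by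
    intro c
    unfold cm
    congr 1
    have : (fun ω => if π c ω = π c i then y ω else 0) = y := by
      funext ω
      by_cases h : ω = i
      · subst h; simp
      · simp [hy, h]
    rw [this, hav]
  have hBo : Bo π Λ y i ≤ 1 := by
    unfold Bo
    simp only [hcm, hav]
    rw [Finset.sum_const, Finset.card_univ, Fintype.card_fin, nsmul_eq_mul]
    have h6 : (r : ℝ) * Λ * (1 / n) + r * (r * (Fintype.card V * (1 / n) - 1 / n)) =
        (((r : ℝ) * Λ + (r : ℝ) ^ 2 * Fintype.card V) - (r : ℝ) ^ 2) / n := by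
      field_simp
      ring
    rw [h6, div_le_one hn0]
    nlinarith [sq_nonneg (r : ℝ)]
  calc 1 / n + Bo π Λ y i / n ≤ 1 / n + 1 / n := by gcongr
    _ = 2 / n := by ring

theorem pPVal_sum_ite (v : V) : ∑ u : V, (if u = v then (1 : ℝ) else 0) = 1 := by simp

/-- Piece PK-04c.  A clique `D = {π c = v}` with signs: `y = x^2 = 1_D`; keep in `av_mul_Bo` only the
variance of the class `c` itself, which is `1/N - 1/N^2 ≥ 1/(2N)` (`cm_comp_self`, `av_comp`). -/
theorem le_PP_clique [Nonempty Ω] (hπ : IsDes t π) (hN : 2 ≤ Fintype.card V) (c : Fin r) (v : V)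
    {x : Ω → ℝ} (hx : ∀ ω, x ω ^ 2 = if π c ω = v then 1 else 0) :
    (r : ℝ) / (2 * Fintype.card V) ≤ PP π Λ x := by
  have hN' : (2 : ℝ) ≤ Fintype.card V := by exact_mod_cast hN
  set N : ℝ := (Fintype.card V : ℝ) with hNd
  set g : V → ℝ := fun u => if u = v then 1 else 0 with hg
  have hy : (fun ω => x ω ^ 2) = fun ω => g (π c ω) := by
    funext ω; rw [hx ω]
  have hav : av (fun ω => x ω ^ 2) = 1 / N := by
    rw [hy, av_comp hπ c g]
    simp only [hg]
    rw [pPVal_sum_ite]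
  have h1 : 0 ≤ av (fun ω => x ω ^ 4) := av_four_nonneg x
  have h2 := av_mul_Bo π Λ (fun ω => x ω ^ 2) (fun ω => x ω ^ 2)
  have hvar : ∀ c' : Fin r, 0 ≤ (∑ u, cm π c' (fun ω => x ω ^ 2) u * cm π c' (fun ω => x ω ^ 2) u) /
      Fintype.card V - av (fun ω => x ω ^ 2) * av (fun ω => x ω ^ 2) :=
    fun c' => var_cm_nonneg π c' _
  have hsum := Finset.single_le_sum (fun c' _ => hvar c') (Finset.mem_univ c)
  have hc : (∑ u, cm π c (fun ω => x ω ^ 2) u * cm π c (fun ω => x ω ^ 2) u) = 1 := by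
    have : ∀ u, cm π c (fun ω => x ω ^ 2) u = g u := by
      intro u
      rw [hy, cm_comp_self hπ c g u]
    simp only [this, hg]
    simp
  rw [hc] at hsum
  unfold PP
  have h3 : (fun ω => x ω ^ 2 * Bo π Λ (fun i => x i ^ 2) ω) =
      fun ω => (fun ω => x ω ^ 2) ω * Bo π Λ (fun ω => x ω ^ 2) ω := rfl
  rw [h3, h2]
  rw [hav] at hsum ⊢
  have hN0 : (0 : ℝ) < N := by linarith
  have h4 : 1 / (2 * N) ≤ 1 / N - 1 / N * (1 / N) := by
    rw [← sub_nonneg]
    have : 1 / N - 1 / N * (1 / N) - 1 / (2 * N) = (N - 2) / (2 * N ^ 2) := by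
      field_simp
      ring
    rw [this]
    apply div_nonneg
    · linarith
    · positivity
  have h5 : (0 : ℝ) ≤ (r : ℝ) * Λ * (1 / N * (1 / N)) := by positivity
  have h6 : (0 : ℝ) ≤ r := Nat.cast_nonneg _
  have h7 : (r : ℝ) / (2 * N) = r * (1 / (2 * N)) := by ring
  rw [h7]
  have h8 : (r : ℝ) * (1 / (2 * N)) ≤ r * (∑ c', ((∑ u, cm π c' (fun ω => x ω ^ 2) u *
      cm π c' (fun ω => x ω ^ 2) u) / N - 1 / N * (1 / N))) := by
    apply mul_le_mul_of_nonneg_left _ h6
    exact h4.trans hsum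
  linarith

/-- Piece PK-04d.  The intersection of two cliques of different classes: `y = x^2 = 1_{D ∩ D'}`,
`E y = 1/N^2`, the conditional means are `1/N^2` for the other classes (variance `0`), and `1/N` on the
clique `D` and `0` elsewhere for the class `c` (variance `≤ 1/N^3`), same for `c'`.  So
`P = 1/N^2 + r Λ / N^4 + 2 r (1/N^3 - 1/N^4) ≤ 2/N^2`. -/
theorem PP_inter_le [Nonempty Ω] (hπ : IsDes t π) (ht : 2 ≤ t)
    (h2 : (r : ℝ) * Λ + 2 * (r : ℝ) * Fintype.card V ≤ (Fintype.card V : ℝ) ^ 2)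
    {c c' : Fin r} (hc : c ≠ c') (v v' : V) {x : Ω → ℝ}
    (hx : ∀ ω, x ω ^ 2 = if π c ω = v ∧ π c' ω = v' then 1 else 0) :
    PP π Λ x ≤ 2 / (Fintype.card V : ℝ) ^ 2 := by
  have hV : 0 < Fintype.card V := Fintype.card_pos_iff.2 ⟨v⟩
  have hN0 : (0 : ℝ) < Fintype.card V := by exact_mod_cast hV
  set N : ℝ := (Fintype.card V : ℝ) with hNd
  -- the functions
  set g : Fin r → V → ℝ := fun d u => if d = c then (if u = v then 1 else 0) else
    (if u = v' then 1 else 0) with hg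
  have hgc : ∀ u, g c u = if u = v then 1 else 0 := fun u => by simp [hg]
  have hgc' : ∀ u, g c' u = if u = v' then 1 else 0 := fun u => by simp [hg, hc.symm]
  have hsc : ∑ u, g c u = 1 := by simp only [hgc]; exact pPVal_sum_ite v
  have hsc' : ∑ u, g c' u = 1 := by simp only [hgc']; exact pPVal_sum_ite v'
  have hy : (fun ω => x ω ^ 2) = fun ω => ∏ d ∈ ({c, c'} : Finset (Fin r)), g d (π d ω) := by
    funext ω
    rw [hx ω, Finset.prod_pair hc, hgc, hgc']
    by_cases h1 : π c ω = v <;> by_cases h2 : π c' ω = v' <;> simp [h1, h2]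
  have hy4 : (fun ω => x ω ^ 4) = fun ω => x ω ^ 2 := by
    funext ω
    have : x ω ^ 4 = (x ω ^ 2) ^ 2 := by ring
    rw [this, hx ω]
    split_ifs <;> simp
  have hav : av (fun ω => x ω ^ 2) = 1 / N ^ 2 := by
    rw [hy, av_prod hπ {c, c'} (by rw [Finset.card_pair hc]; omega) g, Finset.prod_pair hc, hsc,
      hsc', ← hNd]
    field_simp
  -- other classes
  have hother : ∀ d : Fin r, d ≠ c → d ≠ c' → ∀ u, cm π d (fun ω => x ω ^ 2) u = 1 / N ^ 2 := by
    intro d hd hd' u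
    rw [hy, cm_prod hπ d u {c, c'} (by simp [hd, hd']) (by rw [Finset.card_pair hc]; omega) g,
      Finset.prod_pair hc, hsc, hsc', ← hNd]
    field_simp
  -- the class c
  have hcc : ∀ u, cm π c (fun ω => x ω ^ 2) u = g c u * (1 / N) := by
    intro u
    have h3 : cm π c (fun ω => ∏ d ∈ ({c'} : Finset (Fin r)), g d (π d ω)) u = 1 / N := by
      rw [cm_prod hπ c u {c'} (by simp [hc]) (by simp; omega) g, Finset.prod_singleton, hsc']
    rw [← h3, ← cm_const_mul]
    unfold cm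
    congr 2
    funext ω
    by_cases h : π c ω = u
    · rw [if_pos h, if_pos h]
      beta_reduce
      rw [hx ω, Finset.prod_singleton, hgc, hgc', h]
      by_cases h1 : u = v <;> by_cases h2 : π c' ω = v' <;> simp [h1, h2]
    · rw [if_neg h, if_neg h]
  have hcc' : ∀ u, cm π c' (fun ω => x ω ^ 2) u = g c' u * (1 / N) := by
    intro u
    have h3 : cm π c' (fun ω => ∏ d ∈ ({c} : Finset (Fin r)), g d (π d ω)) u = 1 / N := by
      rw [cm_prod hπ c' u {c} (by simp [hc.symm]) (by simp; omega) g, Finset.prod_singleton, hsc]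
    rw [← h3, ← cm_const_mul]
    unfold cm
    congr 2
    funext ω
    by_cases h : π c' ω = u
    · rw [if_pos h, if_pos h]
      beta_reduce
      rw [hx ω, Finset.prod_singleton, hgc, hgc', h]
      by_cases h1 : u = v' <;> by_cases h2 : π c ω = v <;> simp [h1, h2]
    · rw [if_neg h, if_neg h]
  have hvar : ∀ d : Fin r, (∑ u, cm π d (fun ω => x ω ^ 2) u * cm π d (fun ω => x ω ^ 2) u) / N -
      av (fun ω => x ω ^ 2) * av (fun ω => x ω ^ 2) ≤ if d ∈ ({c, c'} : Finset (Fin r)) then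
        1 / N ^ 3 else 0 := by
    intro d
    rw [hav]
    by_cases hd : d = c
    · subst hd
      rw [if_pos (by simp)]
      simp only [hcc, hgc]
      have : ∀ u : V, (if u = v then (1 : ℝ) else 0) * (1 / N) * ((if u = v then 1 else 0) * (1 / N)) =
          (if u = v then (1 : ℝ) else 0) * (1 / N ^ 2) := by
        intro u
        split_ifs
        · field_simp
        · ring
      simp only [this]
      rw [← Finset.sum_mul, pPVal_sum_ite]
      have h3 : (0 : ℝ) ≤ 1 / N ^ 2 * (1 / N ^ 2) := by positivity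
      have h4 : 1 * (1 / N ^ 2) / N = 1 / N ^ 3 := by field_simp
      rw [h4]; linarith
    · by_cases hd' : d = c'
      · subst hd'
        rw [if_pos (by simp)]
        simp only [hcc', hgc']
        have : ∀ u : V, (if u = v' then (1 : ℝ) else 0) * (1 / N) *
            ((if u = v' then 1 else 0) * (1 / N)) =
            (if u = v' then (1 : ℝ) else 0) * (1 / N ^ 2) := by
          intro u
          split_ifs
          · field_simp
          · ring
        simp only [this]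
        rw [← Finset.sum_mul, pPVal_sum_ite]
        have h3 : (0 : ℝ) ≤ 1 / N ^ 2 * (1 / N ^ 2) := by positivity
        have h4 : 1 * (1 / N ^ 2) / N = 1 / N ^ 3 := by field_simp
        rw [h4]; linarith
      · rw [if_neg (by simp [hd, hd'])]
        simp only [hother d hd hd']
        rw [Finset.sum_const, Finset.card_univ, nsmul_eq_mul]
        apply le_of_eq
        rw [← hNd]
        field_simp
        ring
  have hsum : ∑ d, ((∑ u, cm π d (fun ω => x ω ^ 2) u * cm π d (fun ω => x ω ^ 2) u) / N -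
      av (fun ω => x ω ^ 2) * av (fun ω => x ω ^ 2)) ≤ 2 / N ^ 3 := by
    calc _ ≤ ∑ d : Fin r, (if d ∈ ({c, c'} : Finset (Fin r)) then 1 / N ^ 3 else 0) :=
          Finset.sum_le_sum fun d _ => hvar d
      _ = 2 / N ^ 3 := by
          rw [Finset.sum_ite_mem, Finset.univ_inter, Finset.sum_const, Finset.card_pair hc]
          ring
  unfold PP
  have h3 : (fun ω => x ω ^ 2 * Bo π Λ (fun i => x i ^ 2) ω) =
      fun ω => (fun ω => x ω ^ 2) ω * Bo π Λ (fun ω => x ω ^ 2) ω := rfl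
  rw [h3, av_mul_Bo π Λ (fun ω => x ω ^ 2) (fun ω => x ω ^ 2), hy4]
  have h6 : (0 : ℝ) ≤ r := Nat.cast_nonneg _
  have h7 := mul_le_mul_of_nonneg_left hsum h6
  rw [hav] at h7 ⊢
  have h8 : (r : ℝ) * Λ * (1 / N ^ 2 * (1 / N ^ 2)) + r * (2 / N ^ 3) =
      ((r : ℝ) * Λ + 2 * r * N) / N ^ 4 := by
    field_simp
  have h9 : ((r : ℝ) * Λ + 2 * r * N) / N ^ 4 ≤ 1 / N ^ 2 := by
    rw [div_le_div_iff₀ (by positivity) (by positivity)]
    nlinarith [sq_nonneg N, h2, mul_le_mul_of_nonneg_right h2 (sq_nonneg N)]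
  have h10 : (2 : ℝ) / N ^ 2 = 1 / N ^ 2 + 1 / N ^ 2 := by ring
  rw [h10]
  linarith

end Pool.Agent.Helper47.PK
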