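import Pool.Agent.Helper47.PK.Family
import Pool.Agent.Helper47.PK.PPVal
import Pool.Agent.Helper47.PK.ConvexC
import Pool.Agent.Helper23.PZ.Iface

/-! Project PK: the data of a block for the non-smoothness theorem. -/

set_option autoImplicit false

namespace Pool.Agent.Helper47.PK

open Finset

section

variable {Ω V : Type} [Fintype Ω] [Fintype V] [DecidableEq V] {r t : ℕ} {π : Fin r → Ω → V}
  {Λ : ℕ}

theorem card_clique_of_isDes (hπ : IsDes t π) {p : ℕ} (hp : 0 < p) (hV : Fintype.card V = p)
    (hΩ : Fintype.card Ω = p ^ (t + 1)) (c : Fin r) (v : V) :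
    (univ.filter fun i => π c i = v).card = p ^ t := by
  have h := hπ.indep {c} (by simp) (fun _ => v)
  rw [hV, hΩ, Finset.card_singleton, pow_one, pow_succ] at h
  have h1 := Nat.eq_of_mul_eq_mul_right hp h
  rw [Fintype.card_subtype] at h1
  rw [← h1]
  congr 1
  ext i
  simp

/-- the data of a block -/
noncomputable def blockData [DecidableEq Ω] {η p₀ : ℝ} {p : ℕ} (hp : 2 ≤ p) (hπ : IsDes t π) (ht : 2 ≤ t)
    (hg : Good π Λ η p₀) (hV : Fintype.card V = p) (hΩ : Fintype.card Ω = p ^ (t + 1))
    (hΛ : 1 ≤ Λ) (h1 : (r : ℝ) * Λ + (r : ℝ) ^ 2 * p ≤ (p : ℝ) ^ (t + 1))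
    (h2 : (r : ℝ) * Λ + 2 * (r : ℝ) * p ≤ (p : ℝ) ^ 2) :
    Pool.Agent.Helper23.PZ.BlockData (FB π Λ) p r Λ t where
  Ω := Ω
  V := V
  cls := π
  J := { toFun := fun x => x
         map_add' := fun _ _ => rfl
         map_smul' := fun _ _ => rfl }
  card_V := hV
  card_Ω := hΩ
  card_clique := card_clique_of_isDes hπ (by omega) hV hΩ
  agree := hπ.agree
  norm_le := by
    intro x hx
    have : Nonempty Ω := Fintype.card_pos_iff.1 (by rw [hΩ]; positivity)
    exact (norm_pow_le_PP π Λ x).trans (PP_le_of_abs_le hπ (by omega) hΛ hx)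
  norm_clique := by
    intro c v ρ hρ
    have : Nonempty Ω := Fintype.card_pos_iff.1 (by rw [hΩ]; positivity)
    have h := le_PP_clique (Λ := Λ) hπ (by rw [hV]; exact hp) c v
      (x := fun i => if π c i = v then ρ i else 0) (fun ω => by
        split_ifs
        · rcases hρ ω with h | h <;> rw [h] <;> norm_num
        · norm_num)
    have h3 := PP_le_two π Λ hg (fun i => if π c i = v then ρ i else 0)
    rw [hV] at h
    have hp0 : (0 : ℝ) < p := by exact_mod_cast (by omega : 0 < p)
    have h4 : (r : ℝ) / (4 * p) = (r : ℝ) / (2 * p) / 2 := by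
      rw [div_div]; congr 1; ring
    rw [h4]
    have h5 := h.trans h3
    rw [div_le_iff₀ two_pos, mul_comm _ (2 : ℝ)]
    exact h5
  norm_point := by
    intro i
    refine (norm_pow_le_PP π Λ (Pi.single i 1)).trans ?_
    have h := PP_single_le (π := π) (Λ := Λ) i (by rw [hV, hΩ]; exact_mod_cast h1)
    rw [hΩ] at h
    push_cast at h
    exact h
  norm_two := by
    intro c c' hc v v' ρ hρ
    have : Nonempty Ω := Fintype.card_pos_iff.1 (by rw [hΩ]; positivity)
    refine (norm_pow_le_PP π Λ (fun i => if π c i = v ∧ π c' i = v' then ρ i else 0)).trans ?_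
    have h := PP_inter_le (Λ := Λ) hπ ht (by rw [hV]; exact h2) hc v v'
      (x := fun i => if π c i = v ∧ π c' i = v' then ρ i else 0) (fun ω => by
        split_ifs
        · rcases hρ ω with h | h <;> rw [h] <;> norm_num
        · norm_num)
    rw [hV] at h
    exact h

end

end Pool.Agent.Helper47.PK
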