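import Pool.Agent.Helper47.PK.Basic
import Pool.Agent.Helper14.PK.Flat

/-! Project PK, piece PK-03: the functions `hh`, `gam`, `chi`. -/

set_option autoImplicit false

namespace Pool.Agent.Helper47.PK

open Real

/-! `hh u = u * expNegInvGlue u`.  Mathlib: `expNegInvGlue.hasDerivAt_polynomial_eval_inv_mul`:
the derivative of `p.eval x⁻¹ * expNegInvGlue x` is `(X^2 * (p - derivative p)).eval x⁻¹ * expNegInvGlue x`.
So `hh' u = (1 + u⁻¹) exp(-u⁻¹)`, `hh'' u = u⁻³ exp(-u⁻¹)` for `u > 0`, and all derivatives of order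
`i ≥ 1` are `(P_i).eval u⁻¹ * expNegInvGlue u`, bounded on the line (zero for `u ≤ 0`; for `u > 0`
`x ↦ P_i(x) exp(-x)` is bounded on `[0, ∞)`). -/

theorem hHProp_hh : hh = Pool.Agent.Helper14.PK.hfl := rfl

theorem hHProp_gam : gam = Pool.Agent.Helper14.PK.gam := rfl

theorem hHProp_deriv_hh : deriv hh = Pool.Agent.Helper14.PK.hder 0 := by
  rw [hHProp_hh]
  funext u
  exact (Pool.Agent.Helper14.PK.hfl_hasDerivAt u).deriv

theorem hHProp_deriv_gam (η : ℝ) : deriv (gam η) = Pool.Agent.Helper14.PK.gamD η 0 := by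
  rw [hHProp_gam]
  funext u
  exact (Pool.Agent.Helper14.PK.gam_hasDerivAt η u).deriv

theorem hh_contDiff : ContDiff ℝ ((⊤ : ℕ∞) : WithTop ℕ∞) hh :=
  Pool.Agent.Helper14.PK.hfl_contDiff ⊤

theorem hh_of_nonpos {u : ℝ} (hu : u ≤ 0) : hh u = 0 :=
  Pool.Agent.Helper14.PK.hfl_nonpos hu

theorem hh_nonneg (u : ℝ) : 0 ≤ hh u := Pool.Agent.Helper14.PK.hfl_nonneg u

/-- `exp(-1/u) ≤ 1` -/
theorem hh_le {u : ℝ} (hu : 0 ≤ u) : hh u ≤ u := Pool.Agent.Helper14.PK.hfl_le hu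

/-- `u exp(-1/u) ≥ u (1 - 1/u) = u - 1` for `u > 0` -/
theorem sub_one_le_hh (u : ℝ) : u - 1 ≤ hh u := Pool.Agent.Helper14.PK.sub_one_le_hfl u

theorem hh_deriv_nonneg (u : ℝ) : 0 ≤ deriv hh u := by
  rw [hHProp_deriv_hh]
  exact Pool.Agent.Helper14.PK.hder_zero_nonneg u

/-- `(1 + x) exp(-x) ≤ 1` for `x = 1/u ≥ 0` -/
theorem hh_deriv_le_one (u : ℝ) : deriv hh u ≤ 1 := by
  rw [hHProp_deriv_hh]
  exact Pool.Agent.Helper14.PK.hder_zero_le u

theorem hh_deriv_deriv_nonneg (u : ℝ) : 0 ≤ deriv (deriv hh) u := by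
  rw [hHProp_deriv_hh, (Pool.Agent.Helper14.PK.hder_hasDerivAt 0 u).deriv]
  exact Pool.Agent.Helper14.PK.hder_one_nonneg u

theorem hh_iteratedDeriv_bound (i : ℕ) (hi : 1 ≤ i) : ∃ C : ℝ, 0 ≤ C ∧ ∀ u, |iteratedDeriv i hh u| ≤ C := by
  obtain ⟨n, rfl⟩ := Nat.exists_eq_add_of_le' hi
  obtain ⟨C, hC⟩ := Pool.Agent.Helper14.PK.poly_bound (Pool.Agent.Helper14.PK.pj n)
  refine ⟨C, (abs_nonneg _).trans (hC 0), fun u => ?_⟩
  rw [hHProp_hh, Pool.Agent.Helper14.PK.iteratedDeriv_hfl]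
  exact hC u

theorem gam_contDiff (η : ℝ) : ContDiff ℝ ((⊤ : ℕ∞) : WithTop ℕ∞) (gam η) :=
  Pool.Agent.Helper14.PK.gam_contDiff η ⊤

theorem gam_nonneg {η : ℝ} (hη : 0 < η) (s : ℝ) : 0 ≤ gam η s :=
  Pool.Agent.Helper14.PK.gam_nonneg hη s

/-- `γ s = 0` for `s ≥ -η` -/
theorem gam_eq_zero {η : ℝ} (hη : 0 < η) {s : ℝ} (hs : -η ≤ s) : gam η s = 0 :=
  Pool.Agent.Helper14.PK.gam_eq_zero hη hs

/-- `γ s ≥ -s - 2η` -/
theorem gam_ge {η : ℝ} (hη : 0 < η) (s : ℝ) : -s - 2 * η ≤ gam η s :=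
  Pool.Agent.Helper14.PK.neg_sub_le_gam hη s

/-- `γ s ≤ |s|` -/
theorem gam_le {η : ℝ} (hη : 0 < η) (s : ℝ) : gam η s ≤ |s| :=
  Pool.Agent.Helper14.PK.gam_le_abs hη s

/-- `-1 ≤ γ' ≤ 0` -/
theorem gam_deriv_nonpos {η : ℝ} (hη : 0 < η) (s : ℝ) : deriv (gam η) s ≤ 0 := by
  rw [hHProp_deriv_gam]
  exact Pool.Agent.Helper14.PK.gamD_zero_nonpos hη s

theorem neg_one_le_gam_deriv {η : ℝ} (hη : 0 < η) (s : ℝ) : -1 ≤ deriv (gam η) s := by
  rw [hHProp_deriv_gam]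
  exact Pool.Agent.Helper14.PK.neg_one_le_gamD_zero hη s

/-- `γ' s = 0` for `s ≥ -η` -/
theorem gam_deriv_eq_zero {η : ℝ} (hη : 0 < η) {s : ℝ} (hs : -η ≤ s) : deriv (gam η) s = 0 := by
  rw [hHProp_deriv_gam]
  exact Pool.Agent.Helper14.PK.gamD_eq_zero hη 0 hs

theorem gam_deriv_deriv_nonneg {η : ℝ} (hη : 0 < η) (s : ℝ) : 0 ≤ deriv (deriv (gam η)) s := by
  rw [hHProp_deriv_gam, (Pool.Agent.Helper14.PK.gamD_hasDerivAt η 0 s).deriv]
  exact Pool.Agent.Helper14.PK.gamD_one_nonneg hη s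

/-- all derivatives of order `i ≥ 1`: `|γ^(i)| ≤ C_i η^(1-i)`, with `C_i` independent of `η`. -/
theorem gam_iteratedDeriv_bound (i : ℕ) (hi : 1 ≤ i) : ∃ C : ℝ, 0 ≤ C ∧ ∀ η : ℝ, 0 < η → ∀ s,
    |iteratedDeriv i (gam η) s| ≤ C * (η⁻¹) ^ (i - 1) := by
  obtain ⟨n, rfl⟩ := Nat.exists_eq_add_of_le' hi
  obtain ⟨C, hC1, hC⟩ := Pool.Agent.Helper14.PK.iteratedFDeriv_gam_bound
  refine ⟨C n, zero_le_one.trans (hC1 n), fun η hη s => ?_⟩
  have h := hC n η s hη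
  rw [norm_iteratedFDeriv_eq_norm_iteratedDeriv, Real.norm_eq_abs] at h
  rw [hHProp_gam, Nat.add_sub_cancel]
  exact h

theorem chi_contDiff : ContDiff ℝ ((⊤ : ℕ∞) : WithTop ℕ∞) chi := by
  unfold chi
  exact Real.smoothTransition.contDiff.comp (contDiff_const.sub (contDiff_const.mul contDiff_id))

theorem chi_nonneg (s : ℝ) : 0 ≤ chi s := Real.smoothTransition.nonneg _

theorem chi_le_one (s : ℝ) : chi s ≤ 1 := Real.smoothTransition.le_one _

theorem chi_eq_one {s : ℝ} (hs : s ≤ 1 / 2) : chi s = 1 :=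
  Real.smoothTransition.one_of_one_le (by linarith)

theorem chi_eq_zero {s : ℝ} (hs : 1 ≤ s) : chi s = 0 :=
  Real.smoothTransition.zero_of_nonpos (by linarith)

/-- all derivatives of the cutoff are bounded (it is constant outside of `[1/2, 1]`) -/
theorem chi_iteratedDeriv_bound (i : ℕ) : ∃ C : ℝ, 0 ≤ C ∧ ∀ s, |iteratedDeriv i chi s| ≤ C := by
  have hcont : Continuous (iteratedDeriv i chi) := chi_contDiff.continuous_iteratedDeriv i (by
    exact_mod_cast le_top)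
  obtain ⟨C, hC⟩ := (isCompact_Icc (a := (1 / 2 : ℝ)) (b := 1)).exists_bound_of_continuousOn
    hcont.continuousOn
  have hconst : ∀ (a : ℝ) (s : ℝ), (chi =ᶠ[nhds s] fun _ => a) → |iteratedDeriv i chi s| ≤ |a| := by
    intro a s h
    rw [h.iteratedDeriv_eq i, iteratedDeriv_const]
    split_ifs
    · exact le_rfl
    · rw [abs_zero]; exact abs_nonneg a
  refine ⟨max C 1, le_max_of_le_right zero_le_one, fun s => ?_⟩
  rcases lt_or_ge s (1 / 2) with h | h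
  · have h1 : chi =ᶠ[nhds s] fun _ => (1 : ℝ) := by
      filter_upwards [Iio_mem_nhds h] with t ht
      exact chi_eq_one ht.le
    have := hconst 1 s h1
    rw [abs_one] at this
    exact this.trans (le_max_right _ _)
  · rcases lt_or_ge 1 s with h' | h'
    · have h1 : chi =ᶠ[nhds s] fun _ => (0 : ℝ) := by
        filter_upwards [Ioi_mem_nhds h'] with t ht
        exact chi_eq_zero (le_of_lt ht)
      have := hconst 0 s h1
      rw [abs_zero] at this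
      exact this.trans (le_max_of_le_right zero_le_one)
    · have := hC s ⟨h, h'⟩
      rw [Real.norm_eq_abs] at this
      exact this.trans (le_max_left _ _)

end Pool.Agent.Helper47.PK
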