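import Pool.Agent.Helper47.PK.FB
import Pool.Agent.Helper47.PK.HHProp

/-! Project PK: the second derivative of `ff`. -/

set_option autoImplicit false

namespace Pool.Agent.Helper47.PK

open Finset

variable {Ω V : Type} [Fintype Ω] [Fintype V] [DecidableEq V] {r : ℕ} (π : Fin r → Ω → V)
  (Λ : ℕ)

/-- the second derivative of `ff` at `x` in the direction `v` -/
noncomputable def ff2 (η : ℝ) (x v : Ω → ℝ) : ℝ :=
  12 * η * av (fun ω => v ω ^ 2) + 12 * av (fun ω => (x ω * v ω) ^ 2) +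
  4 * av (fun ω => v ω ^ 2 * Bo π Λ (fun i => x i ^ 2) ω) +
  8 * av (fun ω => (x ω * v ω) * Bo π Λ (fun i => x i * v i) ω) +
  4 * av (fun ω => v ω ^ 2 * gam η (Bo π Λ (fun i => x i ^ 2) ω)) +
  16 * av (fun ω => deriv (gam η) (Bo π Λ (fun i => x i ^ 2) ω) * (x ω * v ω) *
    Bo π Λ (fun i => x i * v i) ω) +
  8 * av (fun ω => x ω ^ 2 * deriv (deriv (gam η)) (Bo π Λ (fun i => x i ^ 2) ω) *
    (Bo π Λ (fun i => x i * v i) ω) ^ 2) +
  4 * av (fun ω => x ω ^ 2 * deriv (gam η) (Bo π Λ (fun i => x i ^ 2) ω) *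
    Bo π Λ (fun i => v i ^ 2) ω)

end Pool.Agent.Helper47.PK
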