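import Pool.Agent.Helper47.PK.Convex0

/-! Project PK, piece PK-06a: derivatives of `ff` along lines. -/

set_option autoImplicit false

namespace Pool.Agent.Helper47.PK

open Finset

variable {Ω V : Type} [Fintype Ω] [Fintype V] [DecidableEq V] {r : ℕ} (π : Fin r → Ω → V)
  (Λ : ℕ)

theorem convexA_av {f f' : ℝ → Ω → ℝ} {s : ℝ}
    (h : ∀ i, HasDerivAt (fun s => f s i) (f' s i) s) :
    HasDerivAt (fun s => av (f s)) (av (f' s)) s := by
  unfold av
  exact (HasDerivAt.fun_sum fun i _ => h i).div_const _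

theorem convexA_cm (c : Fin r) (w : V) {f f' : ℝ → Ω → ℝ} {s : ℝ}
    (h : ∀ i, HasDerivAt (fun s => f s i) (f' s i) s) :
    HasDerivAt (fun s => cm π c (f s) w) (cm π c (f' s) w) s := by
  unfold cm
  refine HasDerivAt.const_mul _ (convexA_av (f := fun s ω => if π c ω = w then f s ω else 0)
    (f' := fun s ω => if π c ω = w then f' s ω else 0) fun i => ?_)
  split_ifs
  · exact h i
  · exact hasDerivAt_const s 0

theorem convexA_Bo {f f' : ℝ → Ω → ℝ} {s : ℝ}
    (h : ∀ i, HasDerivAt (fun s => f s i) (f' s i) s) (i : Ω) :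
    HasDerivAt (fun s => Bo π Λ (f s) i) (Bo π Λ (f' s) i) s := by
  unfold Bo
  exact ((convexA_av h).const_mul _).add
    ((HasDerivAt.fun_sum fun c _ => (convexA_cm π c (π c i) h).sub (convexA_av h)).const_mul _)

/-- first derivative along the line -/
noncomputable def convexA_D (η : ℝ) (x v : Ω → ℝ) (s : ℝ) : ℝ :=
  6 * η * av (fun i => 2 * ((x i + s * v i) * v i))
    + (av (fun i => 4 * (x i + s * v i) ^ 3 * v i)
      + av (fun i => 2 * ((x i + s * v i) * v i) * Bo π Λ (fun j => (x j + s * v j) ^ 2) i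
          + (x i + s * v i) ^ 2 * Bo π Λ (fun j => 2 * ((x j + s * v j) * v j)) i))
    + 2 * av (fun i => 2 * ((x i + s * v i) * v i)
          * gam η (Bo π Λ (fun j => (x j + s * v j) ^ 2) i)
        + (x i + s * v i) ^ 2 * (deriv (gam η) (Bo π Λ (fun j => (x j + s * v j) ^ 2) i)
          * Bo π Λ (fun j => 2 * ((x j + s * v j) * v j)) i))

/-- second derivative along the line -/
noncomputable def convexA_D2 (η : ℝ) (x v : Ω → ℝ) (s : ℝ) : ℝ :=
  6 * η * av (fun i => 2 * v i ^ 2)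
    + (av (fun i => 12 * (x i + s * v i) ^ 2 * v i ^ 2)
      + av (fun i => (2 * v i ^ 2 * Bo π Λ (fun j => (x j + s * v j) ^ 2) i
          + 2 * ((x i + s * v i) * v i) * Bo π Λ (fun j => 2 * ((x j + s * v j) * v j)) i)
          + (2 * ((x i + s * v i) * v i) * Bo π Λ (fun j => 2 * ((x j + s * v j) * v j)) i
          + (x i + s * v i) ^ 2 * Bo π Λ (fun j => 2 * v j ^ 2) i)))
    + 2 * av (fun i => (2 * v i ^ 2 * gam η (Bo π Λ (fun j => (x j + s * v j) ^ 2) i)
          + 2 * ((x i + s * v i) * v i) * (deriv (gam η) (Bo π Λ (fun j => (x j + s * v j) ^ 2) i)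
              * Bo π Λ (fun j => 2 * ((x j + s * v j) * v j)) i))
        + (2 * ((x i + s * v i) * v i) * (deriv (gam η) (Bo π Λ (fun j => (x j + s * v j) ^ 2) i)
              * Bo π Λ (fun j => 2 * ((x j + s * v j) * v j)) i)
          + (x i + s * v i) ^ 2 * (deriv (deriv (gam η)) (Bo π Λ (fun j => (x j + s * v j) ^ 2) i)
              * Bo π Λ (fun j => 2 * ((x j + s * v j) * v j)) i
              * Bo π Λ (fun j => 2 * ((x j + s * v j) * v j)) i
            + deriv (gam η) (Bo π Λ (fun j => (x j + s * v j) ^ 2) i)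
              * Bo π Λ (fun j => 2 * v j ^ 2) i)))

theorem convexA_gam0 (η t : ℝ) : HasDerivAt (gam η) (deriv (gam η) t) t :=
  ((gam_contDiff η).differentiable (by simp) t).hasDerivAt

theorem convexA_gam1 (η t : ℝ) : HasDerivAt (deriv (gam η)) (deriv (deriv (gam η)) t) t := by
  have h : ContDiff ℝ 1 (deriv (gam η)) := by
    have h2 : ContDiff ℝ (1 + 1) (gam η) := (gam_contDiff η).of_le (by
      have h : ((1 + 1 : ℕ∞) : WithTop ℕ∞) ≤ ((⊤ : ℕ∞) : WithTop ℕ∞) := WithTop.coe_le_coe.2 le_top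
      exact h)
    exact (contDiff_succ_iff_deriv.1 h2).2.2
  exact (h.differentiable (by simp) t).hasDerivAt

theorem convexA_line (η : ℝ) (x v : Ω → ℝ) (s : ℝ) :
    HasDerivAt (fun s => ff π Λ η (fun i => x i + s * v i)) (convexA_D π Λ η x v s) s := by
  have hX : ∀ i, HasDerivAt (fun s : ℝ => x i + s * v i) (v i) s := fun i => by
    simpa using ((hasDerivAt_id s).mul_const (v i)).const_add (x i)
  have hY : ∀ i, HasDerivAt (fun s : ℝ => (x i + s * v i) ^ 2) (2 * ((x i + s * v i) * v i)) s :=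
    fun i => by
      have := (hX i).pow 2
      refine this.congr_deriv ?_
      simp only [Nat.cast_ofNat, Nat.add_one_sub_one, pow_one]
      ring
  have hB : ∀ i, HasDerivAt (fun s : ℝ => Bo π Λ (fun j => (x j + s * v j) ^ 2) i)
      (Bo π Λ (fun j => 2 * ((x j + s * v j) * v j)) i) s :=
    convexA_Bo π Λ (f := fun s i => (x i + s * v i) ^ 2)
      (f' := fun s i => 2 * ((x i + s * v i) * v i)) hY
  have hY4 : ∀ i, HasDerivAt (fun s : ℝ => (x i + s * v i) ^ 4)
      (4 * (x i + s * v i) ^ 3 * v i) s := fun i => by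
    have := (hX i).pow 4
    refine this.congr_deriv ?_
    simp only [Nat.cast_ofNat, Nat.add_one_sub_one]
  have hγ : ∀ i, HasDerivAt (fun s : ℝ => gam η (Bo π Λ (fun j => (x j + s * v j) ^ 2) i))
      (deriv (gam η) (Bo π Λ (fun j => (x j + s * v j) ^ 2) i)
        * Bo π Λ (fun j => 2 * ((x j + s * v j) * v j)) i) s := fun i =>
    (convexA_gam0 η _).comp s (hB i)
  have m1 := convexA_av (f := fun s i => (x i + s * v i) ^ 2)
    (f' := fun s i => 2 * ((x i + s * v i) * v i)) hY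
  have m2 := convexA_av (f := fun s i => (x i + s * v i) ^ 4)
    (f' := fun s i => 4 * (x i + s * v i) ^ 3 * v i) hY4
  have m3 := convexA_av
    (f := fun s i => (x i + s * v i) ^ 2 * Bo π Λ (fun j => (x j + s * v j) ^ 2) i)
    (f' := fun s i => 2 * ((x i + s * v i) * v i) * Bo π Λ (fun j => (x j + s * v j) ^ 2) i
          + (x i + s * v i) ^ 2 * Bo π Λ (fun j => 2 * ((x j + s * v j) * v j)) i)
    (s := s) (fun i => (hY i).mul (hB i))
  have m4 := convexA_av
    (f := fun s i => (x i + s * v i) ^ 2 * gam η (Bo π Λ (fun j => (x j + s * v j) ^ 2) i))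
    (f' := fun s i => 2 * ((x i + s * v i) * v i)
          * gam η (Bo π Λ (fun j => (x j + s * v j) ^ 2) i)
        + (x i + s * v i) ^ 2 * (deriv (gam η) (Bo π Λ (fun j => (x j + s * v j) ^ 2) i)
          * Bo π Λ (fun j => 2 * ((x j + s * v j) * v j)) i))
    (s := s) (fun i => (hY i).mul (hγ i))
  unfold ff PP G1 convexA_D
  exact ((m1.const_mul _).add (m2.add m3)).add (m4.const_mul _)

theorem convexA_line2 (η : ℝ) (x v : Ω → ℝ) (s : ℝ) :
    HasDerivAt (convexA_D π Λ η x v) (convexA_D2 π Λ η x v s) s := by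
  have hX : ∀ i, HasDerivAt (fun s : ℝ => x i + s * v i) (v i) s := fun i => by
    simpa using ((hasDerivAt_id s).mul_const (v i)).const_add (x i)
  have hY : ∀ i, HasDerivAt (fun s : ℝ => (x i + s * v i) ^ 2) (2 * ((x i + s * v i) * v i)) s :=
    fun i => by
      have := (hX i).pow 2
      refine this.congr_deriv ?_
      simp only [Nat.cast_ofNat, Nat.add_one_sub_one, pow_one]
      ring
  have hY2 : ∀ i, HasDerivAt (fun s : ℝ => 2 * ((x i + s * v i) * v i)) (2 * v i ^ 2) s :=
    fun i => by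
      have := ((hX i).mul_const (v i)).const_mul 2
      refine this.congr_deriv ?_
      ring
  have hY3 : ∀ i, HasDerivAt (fun s : ℝ => 4 * (x i + s * v i) ^ 3 * v i)
      (12 * (x i + s * v i) ^ 2 * v i ^ 2) s := fun i => by
    have := (((hX i).pow 3).const_mul 4).mul_const (v i)
    refine this.congr_deriv ?_
    simp only [Nat.cast_ofNat, Nat.add_one_sub_one]
    ring
  have hB : ∀ i, HasDerivAt (fun s : ℝ => Bo π Λ (fun j => (x j + s * v j) ^ 2) i)
      (Bo π Λ (fun j => 2 * ((x j + s * v j) * v j)) i) s :=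
    convexA_Bo π Λ (f := fun s i => (x i + s * v i) ^ 2)
      (f' := fun s i => 2 * ((x i + s * v i) * v i)) hY
  have hB2 : ∀ i, HasDerivAt (fun s : ℝ => Bo π Λ (fun j => 2 * ((x j + s * v j) * v j)) i)
      (Bo π Λ (fun j => 2 * v j ^ 2) i) s :=
    convexA_Bo π Λ (f := fun s i => 2 * ((x i + s * v i) * v i))
      (f' := fun _ i => 2 * v i ^ 2) hY2
  have hγ : ∀ i, HasDerivAt (fun s : ℝ => gam η (Bo π Λ (fun j => (x j + s * v j) ^ 2) i))
      (deriv (gam η) (Bo π Λ (fun j => (x j + s * v j) ^ 2) i)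
        * Bo π Λ (fun j => 2 * ((x j + s * v j) * v j)) i) s := fun i =>
    (convexA_gam0 η _).comp s (hB i)
  have hg1 : ∀ i, HasDerivAt (fun s : ℝ => deriv (gam η) (Bo π Λ (fun j => (x j + s * v j) ^ 2) i))
      (deriv (deriv (gam η)) (Bo π Λ (fun j => (x j + s * v j) ^ 2) i)
        * Bo π Λ (fun j => 2 * ((x j + s * v j) * v j)) i) s := fun i =>
    (convexA_gam1 η _).comp s (hB i)
  have m1 := convexA_av (f := fun s i => 2 * ((x i + s * v i) * v i))
    (f' := fun _ i => 2 * v i ^ 2) hY2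
  have m2 := convexA_av (f := fun s i => 4 * (x i + s * v i) ^ 3 * v i)
    (f' := fun s i => 12 * (x i + s * v i) ^ 2 * v i ^ 2) hY3
  have m3 := convexA_av
    (f := fun s i => 2 * ((x i + s * v i) * v i) * Bo π Λ (fun j => (x j + s * v j) ^ 2) i
          + (x i + s * v i) ^ 2 * Bo π Λ (fun j => 2 * ((x j + s * v j) * v j)) i)
    (f' := fun s i => (2 * v i ^ 2 * Bo π Λ (fun j => (x j + s * v j) ^ 2) i
          + 2 * ((x i + s * v i) * v i) * Bo π Λ (fun j => 2 * ((x j + s * v j) * v j)) i)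
          + (2 * ((x i + s * v i) * v i) * Bo π Λ (fun j => 2 * ((x j + s * v j) * v j)) i
          + (x i + s * v i) ^ 2 * Bo π Λ (fun j => 2 * v j ^ 2) i))
    (s := s) (fun i => ((hY2 i).mul (hB i)).add ((hY i).mul (hB2 i)))
  have m4 := convexA_av
    (f := fun s i => 2 * ((x i + s * v i) * v i)
          * gam η (Bo π Λ (fun j => (x j + s * v j) ^ 2) i)
        + (x i + s * v i) ^ 2 * (deriv (gam η) (Bo π Λ (fun j => (x j + s * v j) ^ 2) i)
          * Bo π Λ (fun j => 2 * ((x j + s * v j) * v j)) i))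
    (f' := fun s i => (2 * v i ^ 2 * gam η (Bo π Λ (fun j => (x j + s * v j) ^ 2) i)
          + 2 * ((x i + s * v i) * v i) * (deriv (gam η) (Bo π Λ (fun j => (x j + s * v j) ^ 2) i)
              * Bo π Λ (fun j => 2 * ((x j + s * v j) * v j)) i))
        + (2 * ((x i + s * v i) * v i) * (deriv (gam η) (Bo π Λ (fun j => (x j + s * v j) ^ 2) i)
              * Bo π Λ (fun j => 2 * ((x j + s * v j) * v j)) i)
          + (x i + s * v i) ^ 2 * (deriv (deriv (gam η)) (Bo π Λ (fun j => (x j + s * v j) ^ 2) i)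
              * Bo π Λ (fun j => 2 * ((x j + s * v j) * v j)) i
              * Bo π Λ (fun j => 2 * ((x j + s * v j) * v j)) i
            + deriv (gam η) (Bo π Λ (fun j => (x j + s * v j) ^ 2) i)
              * Bo π Λ (fun j => 2 * v j ^ 2) i)))
    (s := s) (fun i => ((hY2 i).mul (hγ i)).add ((hY i).mul ((hg1 i).mul (hB2 i))))
  unfold convexA_D convexA_D2
  exact ((m1.const_mul _).add (m2.add m3)).add (m4.const_mul _)

theorem convexA_D2_eq (η : ℝ) (x v : Ω → ℝ) (s : ℝ) :
    convexA_D2 π Λ η x v s = ff2 π Λ η (fun i => x i + s * v i) v := by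
  unfold convexA_D2 ff2
  set X : Ω → ℝ := fun i => x i + s * v i with hX
  set G : Ω → ℝ := Bo π Λ (fun j => X j ^ 2) with hG
  have hBq : ∀ i, Bo π Λ (fun j => 2 * ((x j + s * v j) * v j)) i
      = 2 * Bo π Λ (fun j => X j * v j) i := fun i =>
    Bo_const_mul π Λ 2 (fun j => (x j + s * v j) * v j) i
  have hBv : ∀ i, Bo π Λ (fun j => 2 * v j ^ 2) i = 2 * Bo π Λ (fun j => v j ^ 2) i :=
    fun i => Bo_const_mul π Λ 2 (fun j => v j ^ 2) i
  have hs : av (fun i => X i ^ 2 * Bo π Λ (fun j => v j ^ 2) i) = av (fun i => v i ^ 2 * G i) := by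
    rw [av_mul_Bo_comm]
  simp only [hBq, hBv]
  have e1 : av (fun i => 2 * v i ^ 2) = 2 * av (fun i => v i ^ 2) := av_const_mul 2 _
  have e2 : av (fun i => 12 * (x i + s * v i) ^ 2 * v i ^ 2)
      = 12 * av (fun i => (X i * v i) ^ 2) := by
    rw [← av_const_mul]
    congr 1
    funext i
    simp only [hX]
    ring
  have e3 : av (fun i => (2 * v i ^ 2 * Bo π Λ (fun j => (x j + s * v j) ^ 2) i
          + 2 * ((x i + s * v i) * v i) * (2 * Bo π Λ (fun j => X j * v j) i))
          + (2 * ((x i + s * v i) * v i) * (2 * Bo π Λ (fun j => X j * v j) i)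
          + (x i + s * v i) ^ 2 * (2 * Bo π Λ (fun j => v j ^ 2) i)))
      = 4 * av (fun i => v i ^ 2 * G i)
        + 8 * av (fun i => (X i * v i) * Bo π Λ (fun j => X j * v j) i) := by
    have : (fun i => (2 * v i ^ 2 * Bo π Λ (fun j => (x j + s * v j) ^ 2) i
          + 2 * ((x i + s * v i) * v i) * (2 * Bo π Λ (fun j => X j * v j) i))
          + (2 * ((x i + s * v i) * v i) * (2 * Bo π Λ (fun j => X j * v j) i)
          + (x i + s * v i) ^ 2 * (2 * Bo π Λ (fun j => v j ^ 2) i)))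
        = fun i => (2 * (v i ^ 2 * G i) + 8 * ((X i * v i) * Bo π Λ (fun j => X j * v j) i))
          + 2 * (X i ^ 2 * Bo π Λ (fun j => v j ^ 2) i) := by
      funext i
      simp only [hG, hX]
      ring
    rw [this, av_add, av_add, av_const_mul, av_const_mul, av_const_mul, hs]
    ring
  have e4 : av (fun i => (2 * v i ^ 2 * gam η (Bo π Λ (fun j => (x j + s * v j) ^ 2) i)
          + 2 * ((x i + s * v i) * v i) * (deriv (gam η) (Bo π Λ (fun j => (x j + s * v j) ^ 2) i)
              * (2 * Bo π Λ (fun j => X j * v j) i)))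
        + (2 * ((x i + s * v i) * v i) * (deriv (gam η) (Bo π Λ (fun j => (x j + s * v j) ^ 2) i)
              * (2 * Bo π Λ (fun j => X j * v j) i))
          + (x i + s * v i) ^ 2 * (deriv (deriv (gam η)) (Bo π Λ (fun j => (x j + s * v j) ^ 2) i)
              * (2 * Bo π Λ (fun j => X j * v j) i)
              * (2 * Bo π Λ (fun j => X j * v j) i)
            + deriv (gam η) (Bo π Λ (fun j => (x j + s * v j) ^ 2) i)
              * (2 * Bo π Λ (fun j => v j ^ 2) i))))
      = 2 * av (fun i => v i ^ 2 * gam η (G i))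
        + 8 * av (fun i => deriv (gam η) (G i) * (X i * v i) * Bo π Λ (fun j => X j * v j) i)
        + 4 * av (fun i => X i ^ 2 * deriv (deriv (gam η)) (G i) *
            (Bo π Λ (fun j => X j * v j) i) ^ 2)
        + 2 * av (fun i => X i ^ 2 * deriv (gam η) (G i) * Bo π Λ (fun j => v j ^ 2) i) := by
    rw [← av_const_mul, ← av_const_mul, ← av_const_mul, ← av_const_mul, ← av_add, ← av_add,
      ← av_add]
    congr 1
    funext i
    simp only [hG, hX]
    ring
  rw [e1, e2, e3, e4]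
  ring

/-- Piece PK-06a.  Derivatives along a line: there is a function `f1` (the first derivative) with
`s ↦ ff (x + s v)` having derivative `f1 s` and `f1` having derivative `ff2 (x + s v) v`.
With `x_s = x + s v`: `(x_s^2)' = 2 x_s v`, `(B x_s^2)' = 2 B(x_s v)`, `(x_s v)' = v^2`, and `B` is
symmetric (`av_mul_Bo_comm`): `(E[x_s^2 B x_s^2])' = 4 E[x_s v B x_s^2]`, second derivative
`4 E[v^2 B x_s^2] + 8 E[x_s v B(x_s v)]`; `(2 E[x_s^2 γ(g)])' = 4 E[x_s v γ(g)] + 4 E[x_s^2 γ'(g) B(x_s v)]`,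
second derivative `4 E[v^2 γ] + 16 E[γ' x_s v B(x_s v)] + 8 E[x_s^2 γ'' (B(x_s v))^2] + 4 E[x_s^2 γ' B(v^2)]`. -/
theorem ff_line {η : ℝ} (_hη : 0 < η) (x v : Ω → ℝ) : ∃ f1 : ℝ → ℝ,
    (∀ s, HasDerivAt (fun s : ℝ => ff π Λ η (x + s • v)) (f1 s) s) ∧
    (∀ s, HasDerivAt f1 (ff2 π Λ η (x + s • v) v) s) := by
  refine ⟨convexA_D π Λ η x v, fun s => convexA_line π Λ η x v s, fun s => ?_⟩
  have h := convexA_line2 π Λ η x v s
  rw [convexA_D2_eq] at h
  exact h

end Pool.Agent.Helper47.PK
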