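import Mathlib

/-! Project PK (Pelczynski's problem, negation).  Basic definitions: a finite probability space `Ω`
(uniform measure), `r` maps `π c : Ω → V` (classes), means, conditional means, the operator `B`, the
quartic `P`, and the smooth convex modification of `P`. -/

set_option autoImplicit false

namespace Pool.Agent.Helper47.PK

open Finset

section Av

variable {Ω : Type} [Fintype Ω]

/-- the mean value of `f` -/
noncomputable def av (f : Ω → ℝ) : ℝ := (∑ ω, f ω) / (Fintype.card Ω : ℝ)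

end Av

variable {Ω V : Type} [Fintype Ω] [Fintype V] [DecidableEq V] {r : ℕ}

/-- the conditional mean of `y` on the clique `π c = v` (for a design all cliques have
`card Ω / card V` elements) -/
noncomputable def cm (π : Fin r → Ω → V) (c : Fin r) (y : Ω → ℝ) (v : V) : ℝ :=
  (Fintype.card V : ℝ) * av (fun ω => if π c ω = v then y ω else 0)

/-- the operator `B`: `B y (i) = r Λ E y + r ∑_c (E[y | π c = π c i] - E y)` -/
noncomputable def Bo (π : Fin r → Ω → V) (Λ : ℕ) (y : Ω → ℝ) (i : Ω) : ℝ :=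
  (r : ℝ) * Λ * av y + (r : ℝ) * ∑ c, (cm π c y (π c i) - av y)

/-- the quartic `P x = E x^4 + <x^2, B x^2>` -/
noncomputable def PP (π : Fin r → Ω → V) (Λ : ℕ) (x : Ω → ℝ) : ℝ :=
  av (fun ω => x ω ^ 4) + av (fun ω => x ω ^ 2 * Bo π Λ (fun i => x i ^ 2) ω)

/-- the convex quartic `Q x = P x + r^2 (E x^2)^2` -/
noncomputable def QQ (π : Fin r → Ω → V) (Λ : ℕ) (x : Ω → ℝ) : ℝ :=
  PP π Λ x + (r : ℝ) ^ 2 * (av (fun ω => x ω ^ 2)) ^ 2

/-- the design properties: any `t + 1` of the maps `π c` are independent and uniform; two distinct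
points have the same value under at most `t` of the maps -/
structure IsDes (t : ℕ) (π : Fin r → Ω → V) : Prop where
  indep : ∀ (S : Finset (Fin r)), S.card ≤ t + 1 → ∀ v : Fin r → V,
    Fintype.card {ω : Ω // ∀ c ∈ S, π c ω = v c} * Fintype.card V ^ S.card = Fintype.card Ω
  agree : ∀ i j : Ω, i ≠ j → (univ.filter fun c => π c i = π c j).card ≤ t

/-- `m(i, j)`: the number of classes in which `i` and `j` lie in the same clique -/
def mm (π : Fin r → Ω → V) (i j : Ω) : ℕ := (univ.filter fun c => π c i = π c j).card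

/-- `h u = u exp (-1/u)` for `u > 0` and `0` for `u ≤ 0` -/
noncomputable def hh (u : ℝ) : ℝ := u * expNegInvGlue u

/-- `γ s = η h (-s/η - 1)`, a smooth convex version of the negative part of `s` -/
noncomputable def gam (η s : ℝ) : ℝ := η * hh (-s / η - 1)

/-- `E[x^2 γ(B(x^2))]` -/
noncomputable def G1 (π : Fin r → Ω → V) (Λ : ℕ) (η : ℝ) (x : Ω → ℝ) : ℝ :=
  av (fun ω => x ω ^ 2 * gam η (Bo π Λ (fun i => x i ^ 2) ω))

/-- the convex function `f = 6 η E x^2 + P x + 2 E[x^2 γ(B(x^2))]` -/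
noncomputable def ff (π : Fin r → Ω → V) (Λ : ℕ) (η : ℝ) (x : Ω → ℝ) : ℝ :=
  6 * η * av (fun ω => x ω ^ 2) + PP π Λ x + 2 * G1 π Λ η x

/-- the cutoff: `1` for `s ≤ 1/2`, `0` for `s ≥ 1` -/
noncomputable def chi (s : ℝ) : ℝ := Real.smoothTransition (2 - 2 * s)

/-- the remainder `χ(E x^4) E[x^2 γ(B(x^2))]` -/
noncomputable def RR (π : Fin r → Ω → V) (Λ : ℕ) (η : ℝ) (x : Ω → ℝ) : ℝ :=
  chi (av (fun ω => x ω ^ 4)) * G1 π Λ η x

/-- for `y ≥ 0` with `E y^2 ≤ 1` the set `{B y < -η/2}` has probability and conditional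
probabilities at most `p` -/
def Rare (π : Fin r → Ω → V) (Λ : ℕ) (η p : ℝ) : Prop :=
  ∀ y : Ω → ℝ, (∀ ω, 0 ≤ y ω) → av (fun ω => y ω ^ 2) ≤ 1 →
    av (fun ω => open Classical in if Bo π Λ y ω < -(η / 2) then (1 : ℝ) else 0) ≤ p ∧
    ∀ (c : Fin r) (v : V),
      cm π c (fun ω => open Classical in if Bo π Λ y ω < -(η / 2) then (1 : ℝ) else 0) v ≤ p

/-- everything about a block which is needed for the convexity of `ff` -/
structure Good (π : Fin r → Ω → V) (Λ : ℕ) (η p : ℝ) : Prop where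
  eta_pos : 0 < η
  eta_le : η ≤ 1 / 8
  p_nonneg : 0 ≤ p
  rare : Rare π Λ η p
  h1 : ((r : ℝ) * Λ + (r : ℝ) ^ 2) * p ≤ 1
  h2 : ((r : ℝ) * Λ + (r : ℝ) ^ 2) * Real.sqrt (Fintype.card V * p) ≤ η

end Pool.Agent.Helper47.PK
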