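import Pool.Agent.Helper47.PK.FB

/-! Project PK: the concrete family of blocks.  Reed-Solomon designs, parameters, index set, blocks. -/

set_option autoImplicit false

namespace Pool.Agent.Helper47.PK

open scoped ENNReal

/-- Reed-Solomon design: the point `ω` is the polynomial `∑ ω_k X^k`, the class `c` is the evaluation
at `c` (mod `N`) -/
def rs (r t N : ℕ) (c : Fin r) (ω : Fin (t + 1) → Fin N) : Fin N :=
  ⟨(∑ k : Fin (t + 1), (ω k : ℕ) * (c : ℕ) ^ (k : ℕ)) % N, Nat.mod_lt _ (ω 0).pos⟩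

/-- moment exponent of type `j` -/
def qj (j : ℕ) : ℕ := 20 * j + 60

/-- strength of the design of type `j` -/
def tj (j : ℕ) : ℕ := 2 * qj j

/-- the parameter `Λ` of a block of type `j` over the prime `N` -/
def Lm (j N : ℕ) : ℕ := N / (4 * (j + 1))

/-- the number of classes of a block of type `j` over the prime `N` -/
def rj (j N : ℕ) : ℕ := (j + 1) * Lm j N

/-- the classes of a block of type `j` over the prime `N` -/
def pj (j N : ℕ) : Fin (rj j N) → (Fin (tj j + 1) → Fin N) → Fin N := rs (rj j N) (tj j) N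

/-- the parameter `η` -/
noncomputable def ej (N : ℕ) : ℝ := ((N : ℝ) ^ 7)⁻¹

/-- the index set of the blocks: type `j`, prime `N ≥ thr j`, and `N ^ 12` copies -/
def Ix (thr : ℕ → ℕ) : Type := Σ j : ℕ, Σ N : {N : ℕ // N.Prime ∧ thr j ≤ N}, Fin (N.1 ^ 12)

/-- the blocks -/
abbrev Eb (thr : ℕ → ℕ) (b : Ix thr) : Type := FB (pj b.1 b.2.1.1) (Lm b.1 b.2.1.1)

instance fact4 : Fact ((1 : ℝ≥0∞) ≤ 4) := ⟨by norm_num⟩

/-- the properties of the thresholds -/
structure Thr (thr : ℕ → ℕ) : Prop where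
  pow : ∀ j, 2 ^ j ≤ thr j
  good : ∀ j N, thr j ≤ N → N.Prime → ∃ p, Good (pj j N) (Lm j N) (ej N) p
  der : ∀ j N, thr j ≤ N → N.Prime → ∀ i ≤ j, ∀ x : FB (pj j N) (Lm j N),
    ‖iteratedFDeriv ℝ i (fun z : FB (pj j N) (Lm j N) => RR (pj j N) (Lm j N) (ej N) z) x‖ ≤
      ((N : ℝ) ^ 14)⁻¹

/-- `N` is an equivalent norm on `X`, `k` times continuously differentiable off the origin -/
def SN {X : Type} [NormedAddCommGroup X] [NormedSpace ℝ X] (k : WithTop ℕ∞) (N : X → ℝ) : Prop :=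
  (∀ x y : X, N (x + y) ≤ N x + N y) ∧
  (∀ (t : ℝ) (x : X), N (t • x) = |t| * N x) ∧
  (∃ c C : ℝ, 0 < c ∧ ∀ x : X, c * ‖x‖ ≤ N x ∧ N x ≤ C * ‖x‖) ∧
  ContDiffOn ℝ k N {x : X | x ≠ 0}

/-- values `±1` -/
def IsSg {α : Type} (f : α → ℝ) : Prop := ∀ a, f a = 1 ∨ f a = -1

/-- the sign `±1` of a Boolean -/
def sg (b : Bool) : ℝ := if b then 1 else -1

/-- mean over all sign vectors -/
noncomputable def sav {α : Type} [Fintype α] [DecidableEq α] (f : (α → ℝ) → ℝ) : ℝ :=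
  av (fun ε : α → Bool => f (fun a => sg (ε a)))

section

variable {Ω V : Type} [Fintype Ω] [Fintype V] [DecidableEq V] [DecidableEq Ω] {r : ℕ}

/-- the kernel `H (i, j) = 1 - m(i,j) / θ` off the diagonal, `0` on the diagonal -/
noncomputable def HH (π : Fin r → Ω → V) (θ : ℝ) (i j : Ω) : ℝ :=
  if i = j then 0 else 1 - (mm π i j : ℝ) / θ

end

end Pool.Agent.Helper47.PK
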