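import Pool.Agent.Helper47.PK.Smooth
import Pool.Agent.Helper47.PK.Family
import Pool.Agent.Helper14.PK.Deriv

/-! Project PK, piece PK-08: bounds for the derivatives of the remainder `RR`. -/

set_option autoImplicit false

namespace Pool.Agent.Helper47.PK

open Finset
open scoped ENNReal

section L4

variable {Ω : Type} [Fintype Ω]

/-- the `L_4` space -/
abbrev G4 (Ω : Type) [Fintype Ω] : Type := PiLp (4 : ℝ≥0∞) (fun _ : Ω => ℝ)

theorem G4_norm (z : G4 Ω) : ‖z‖ ^ 4 = ∑ i, z i ^ 4 := by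
  have h4 : (4 : ℝ≥0∞).toReal = 4 := by norm_num
  rw [PiLp.norm_eq_sum (by rw [h4]; norm_num), h4]
  have h1 : ∀ i, ‖z i‖ ^ (4 : ℝ) = z i ^ 4 := by
    intro i
    have : (4 : ℝ) = ((4 : ℕ) : ℝ) := by norm_num
    rw [this, Real.rpow_natCast, Real.norm_eq_abs]
    exact Even.pow_abs (by decide) (z i)
  simp only [h1]
  have h2 : 0 ≤ ∑ i, z i ^ 4 := Finset.sum_nonneg fun i _ => by positivity
  rw [← Real.rpow_natCast, ← Real.rpow_mul h2]
  norm_num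

/-- Hölder's inequality with four functions -/
theorem holder_four (z : Fin 4 → G4 Ω) : |∑ i, ∏ k, z k i| ≤ ∏ k, ‖z k‖ := by
  rw [Fin.prod_univ_four]
  have h1 : (∑ i, (z 0 i * z 1 i) * (z 2 i * z 3 i)) ^ 2 ≤
      (∑ i, (z 0 i * z 1 i) ^ 2) * ∑ i, (z 2 i * z 3 i) ^ 2 := Finset.sum_mul_sq_le_sq_mul_sq _ _ _
  have h2 : ∀ a b : G4 Ω, (∑ i, (a i * b i) ^ 2) ≤ ‖a‖ ^ 2 * ‖b‖ ^ 2 := by
    intro a b
    have h3 : (∑ i, (a i) ^ 2 * (b i) ^ 2) ^ 2 ≤ (∑ i, ((a i) ^ 2) ^ 2) * ∑ i, ((b i) ^ 2) ^ 2 :=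
      Finset.sum_mul_sq_le_sq_mul_sq _ _ _
    have h4 : ∑ i, ((a i) ^ 2) ^ 2 = ‖a‖ ^ 4 := by
      rw [G4_norm]; exact Finset.sum_congr rfl fun i _ => by ring
    have h5 : ∑ i, ((b i) ^ 2) ^ 2 = ‖b‖ ^ 4 := by
      rw [G4_norm]; exact Finset.sum_congr rfl fun i _ => by ring
    rw [h4, h5] at h3
    have h6 : ∑ i, (a i * b i) ^ 2 = ∑ i, (a i) ^ 2 * (b i) ^ 2 :=
      Finset.sum_congr rfl fun i _ => by ring
    rw [h6]
    refine le_of_sq_le_sq ?_ (by positivity)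
    calc _ ≤ _ := h3
      _ = _ := by ring
  have h3 : (∑ i, ∏ k, z k i) = ∑ i, (z 0 i * z 1 i) * (z 2 i * z 3 i) :=
    Finset.sum_congr rfl fun i _ => by rw [Fin.prod_univ_four]; ring
  rw [h3]
  refine abs_le_of_sq_le_sq ?_ (by positivity)
  have h4 := h2 (z 0) (z 1)
  have h5 := h2 (z 2) (z 3)
  have h6 : 0 ≤ ∑ i, (z 2 i * z 3 i) ^ 2 := Finset.sum_nonneg fun i _ => by positivity
  calc _ ≤ _ := h1
    _ ≤ (‖z 0‖ ^ 2 * ‖z 1‖ ^ 2) * (‖z 2‖ ^ 2 * ‖z 3‖ ^ 2) :=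
      mul_le_mul h4 h5 h6 (by positivity)
    _ = _ := by ring

/-- the coordinate product as a multilinear map -/
noncomputable def cp (m : ℕ) (i : Ω) : ContinuousMultilinearMap ℝ (fun _ : Fin m => G4 Ω) ℝ :=
  (ContinuousMultilinearMap.mkPiAlgebra ℝ (Fin m) ℝ).compContinuousLinearMap
    fun _ => PiLp.proj (𝕜 := ℝ) (4 : ℝ≥0∞) (fun _ : Ω => ℝ) i

theorem cp_apply (m : ℕ) (i : Ω) (z : Fin m → G4 Ω) : cp m i z = ∏ k, z k i := by
  simp [cp, ContinuousMultilinearMap.compContinuousLinearMap_apply]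

/-- the quartic form -/
noncomputable def Q4 : ContinuousMultilinearMap ℝ (fun _ : Fin 4 => G4 Ω) ℝ := ∑ i, cp 4 i

theorem Q4_apply (z : Fin 4 → G4 Ω) : Q4 z = ∑ i, ∏ k, z k i := by
  simp [Q4, cp_apply]

theorem Q4_norm : ‖(Q4 : ContinuousMultilinearMap ℝ (fun _ : Fin 4 => G4 Ω) ℝ)‖ ≤ 1 := by
  refine ContinuousMultilinearMap.opNorm_le_bound zero_le_one fun z => ?_
  rw [Q4_apply, one_mul, Real.norm_eq_abs]
  exact holder_four z

theorem Q4_diag (z : G4 Ω) : Q4 (fun _ : Fin 4 => z) = ‖z‖ ^ 4 := by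
  rw [Q4_apply, G4_norm]
  exact Finset.sum_congr rfl fun i _ => by simp

end L4

section forms

variable {Ω V : Type} [Fintype Ω] [Fintype V] [DecidableEq V] {r : ℕ} (π : Fin r → Ω → V) (Λ : ℕ)

/-- the fourth root of the number of points -/
noncomputable def rt (Ω : Type) [Fintype Ω] : ℝ := (Fintype.card Ω : ℝ) ^ ((1 : ℝ) / 4)

theorem rt_four : rt Ω ^ 4 = Fintype.card Ω := by
  unfold rt
  rw [← Real.rpow_natCast, ← Real.rpow_mul (Nat.cast_nonneg _)]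
  norm_num

theorem rt_nonneg : 0 ≤ rt Ω := Real.rpow_nonneg (Nat.cast_nonneg _) _

theorem rt_pos [Nonempty Ω] : 0 < rt Ω := by
  have : (0 : ℝ) < Fintype.card Ω := by exact_mod_cast Fintype.card_pos
  exact Real.rpow_pos_of_pos this _

theorem rt_sq : rt Ω ^ 2 = Real.sqrt (Fintype.card Ω) := by
  rw [eq_comm, Real.sqrt_eq_iff_mul_self_eq (Nat.cast_nonneg _) (by positivity), ← rt_four (Ω := Ω)]
  ring

theorem av_rt_four [Nonempty Ω] (z : G4 Ω) : av (fun ω => (rt Ω * z ω) ^ 4) = ‖z‖ ^ 4 := by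
  have hc : (Fintype.card Ω : ℝ) ≠ 0 := by exact_mod_cast Fintype.card_ne_zero
  unfold av
  rw [G4_norm]
  have : ∀ ω, (rt Ω * z ω) ^ 4 = Fintype.card Ω * z ω ^ 4 := by
    intro ω; rw [mul_pow, rt_four]
  simp only [this]
  rw [← Finset.mul_sum, mul_div_cancel_left₀ _ hc]

theorem av_rt_sq [Nonempty Ω] (z : G4 Ω) : av (fun ω => (rt Ω * z ω) ^ 2) ≤ ‖z‖ ^ 2 := by
  have h1 := av_sq_le (fun ω => (rt Ω * z ω) ^ 2)
  have h2 : av (fun ω => ((rt Ω * z ω) ^ 2) ^ 2) = ‖z‖ ^ 4 := by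
    rw [← av_rt_four]; exact av_congr fun ω => by ring
  rw [h2] at h1
  refine le_of_sq_le_sq (le_trans h1 (le_of_eq (by ring))) (by positivity)

theorem cm_rt_sq [Nonempty Ω] (hcm : ∀ (c : Fin r) (v : V), cm π c (fun _ => 1) v ≤ 1)
    (c : Fin r) (v : V) (z : G4 Ω) :
    cm π c (fun ω => (rt Ω * z ω) ^ 2) v ≤ Real.sqrt (Fintype.card V) * ‖z‖ ^ 2 := by
  have h1 := cm_mul_sq_le π c (fun _ => 1) (fun ω => (rt Ω * z ω) ^ 2) v
  simp only [one_mul, one_pow] at h1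
  have h2 : cm π c (fun ω => ((rt Ω * z ω) ^ 2) ^ 2) v ≤ Fintype.card V * ‖z‖ ^ 4 := by
    have h3 := cm_le_card_mul_av π c (y := fun ω => ((rt Ω * z ω) ^ 2) ^ 2)
      (fun ω => by positivity) v
    have h4 : av (fun ω => ((rt Ω * z ω) ^ 2) ^ 2) = ‖z‖ ^ 4 := by
      rw [← av_rt_four]; exact av_congr fun ω => by ring
    rw [h4] at h3
    exact h3
  have h5 : 0 ≤ cm π c (fun ω => ((rt Ω * z ω) ^ 2) ^ 2) v :=
    cm_nonneg π c (fun ω => by positivity) v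
  have h6 := hcm c v
  have h7 : 0 ≤ cm π c (fun _ => (1 : ℝ)) v := cm_nonneg π c (fun _ => zero_le_one) v
  have h8 : Real.sqrt (Fintype.card V) ^ 2 = Fintype.card V := Real.sq_sqrt (Nat.cast_nonneg _)
  refine le_of_sq_le_sq ?_ (by positivity)
  calc _ ≤ cm π c (fun _ => 1) v * cm π c (fun ω => ((rt Ω * z ω) ^ 2) ^ 2) v := h1
    _ ≤ 1 * (Fintype.card V * ‖z‖ ^ 4) := mul_le_mul h6 h2 h5 zero_le_one
    _ = (Real.sqrt (Fintype.card V) * ‖z‖ ^ 2) ^ 2 := by rw [mul_pow, h8]; ring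

theorem abs_av_rt [Nonempty Ω] (z w : G4 Ω) :
    |av (fun ω => (rt Ω * z ω) * (rt Ω * w ω))| ≤ ‖z‖ * ‖w‖ := by
  have h1 := av_mul_sq_le (fun ω => rt Ω * z ω) (fun ω => rt Ω * w ω)
  have h2 := av_rt_sq z
  have h3 := av_rt_sq w
  have h4 : 0 ≤ av (fun ω => (rt Ω * w ω) ^ 2) := av_nonneg fun ω => by positivity
  refine abs_le_of_sq_le_sq ?_ (by positivity)
  calc _ ≤ _ := h1
    _ ≤ ‖z‖ ^ 2 * ‖w‖ ^ 2 := mul_le_mul h2 h3 h4 (by positivity)
    _ = _ := by ring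

theorem abs_cm_rt [Nonempty Ω] (hcm : ∀ (c : Fin r) (v : V), cm π c (fun _ => 1) v ≤ 1)
    (c : Fin r) (v : V) (z w : G4 Ω) :
    |cm π c (fun ω => (rt Ω * z ω) * (rt Ω * w ω)) v| ≤
      Real.sqrt (Fintype.card V) * (‖z‖ * ‖w‖) := by
  have h1 := cm_mul_sq_le π c (fun ω => rt Ω * z ω) (fun ω => rt Ω * w ω) v
  have h2 := cm_rt_sq π hcm c v z
  have h3 := cm_rt_sq π hcm c v w
  have h4 : 0 ≤ cm π c (fun ω => (rt Ω * w ω) ^ 2) v := cm_nonneg π c (fun ω => by positivity) v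
  refine abs_le_of_sq_le_sq ?_ (by positivity)
  calc _ ≤ _ := h1
    _ ≤ (Real.sqrt (Fintype.card V) * ‖z‖ ^ 2) * (Real.sqrt (Fintype.card V) * ‖w‖ ^ 2) :=
      mul_le_mul h2 h3 h4 (by positivity)
    _ = _ := by ring

/-- the constant `S` -/
noncomputable def SS (V : Type) [Fintype V] (r Λ : ℕ) : ℝ :=
  ((r : ℝ) * Λ + 2 * (r : ℝ) ^ 2) * Real.sqrt (Fintype.card V)

theorem abs_Bo_rt [Nonempty Ω] (hcm : ∀ (c : Fin r) (v : V), cm π c (fun _ => 1) v ≤ 1)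
    (hr : 1 ≤ r) (z w : G4 Ω) (i : Ω) :
    |Bo π Λ (fun ω => (rt Ω * z ω) * (rt Ω * w ω)) i| ≤ SS V r Λ * (‖z‖ * ‖w‖) := by
  have hV : (1 : ℝ) ≤ Fintype.card V := by
    have : Nonempty V := ⟨π ⟨0, hr⟩ i⟩
    exact_mod_cast Fintype.card_pos
  have hs1 : 1 ≤ Real.sqrt (Fintype.card V) := by
    rw [← Real.sqrt_one]; exact Real.sqrt_le_sqrt hV
  set y : Ω → ℝ := fun ω => (rt Ω * z ω) * (rt Ω * w ω) with hy
  set Z : ℝ := ‖z‖ * ‖w‖ with hZ
  have hZ0 : 0 ≤ Z := by positivity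
  have h1 : |av y| ≤ Z := abs_av_rt z w
  have h2 : ∀ c : Fin r, |cm π c y (π c i) - av y| ≤ 2 * Real.sqrt (Fintype.card V) * Z := by
    intro c
    have h3 := abs_cm_rt π hcm c (π c i) z w
    have h4 := abs_sub (cm π c y (π c i)) (av y)
    have h5 : Z ≤ Real.sqrt (Fintype.card V) * Z := by nlinarith
    calc _ ≤ |cm π c y (π c i)| + |av y| := h4
      _ ≤ _ := by
        have h6 : |cm π c y (π c i)| ≤ Real.sqrt (Fintype.card V) * Z := h3
        linarith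
  have h3 : |∑ c, (cm π c y (π c i) - av y)| ≤ r * (2 * Real.sqrt (Fintype.card V) * Z) := by
    refine (Finset.abs_sum_le_sum_abs _ _).trans ?_
    refine (Finset.sum_le_sum fun c _ => h2 c).trans ?_
    rw [Finset.sum_const, Finset.card_univ, Fintype.card_fin, nsmul_eq_mul]
  unfold Bo SS
  have hr0 : (0 : ℝ) ≤ r := Nat.cast_nonneg _
  have hΛ0 : (0 : ℝ) ≤ Λ := Nat.cast_nonneg _
  refine (abs_add_le _ _).trans ?_
  rw [abs_mul ((r : ℝ) * Λ) (av y), abs_mul (r : ℝ) (∑ c, (cm π c y (π c i) - av y)),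
    abs_of_nonneg (by positivity : 0 ≤ (r : ℝ) * Λ), abs_of_nonneg hr0]
  have h4 : (r : ℝ) * Λ * |av y| ≤ (r : ℝ) * Λ * (Real.sqrt (Fintype.card V) * Z) := by
    refine mul_le_mul_of_nonneg_left ?_ (by positivity)
    nlinarith
  have h5 : (r : ℝ) * |∑ c, (cm π c y (π c i) - av y)| ≤
      r * (r * (2 * Real.sqrt (Fintype.card V) * Z)) := mul_le_mul_of_nonneg_left h3 hr0
  calc _ ≤ (r : ℝ) * Λ * (Real.sqrt (Fintype.card V) * Z) +
        r * (r * (2 * Real.sqrt (Fintype.card V) * Z)) := add_le_add h4 h5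
    _ = _ := by ring

variable [DecidableEq Ω]

theorem Bo_expand (y : Ω → ℝ) (i : Ω) :
    Bo π Λ y i = ∑ j, y j * Bo π Λ (fun ω => if ω = j then 1 else 0) i := by
  have h1 : y = fun ω => ∑ j, y j * (if ω = j then 1 else 0) := by
    funext ω; simp
  conv_lhs => rw [h1]
  rw [Bo_sum π Λ Finset.univ (fun j ω => y j * (if ω = j then 1 else 0)) i]
  exact Finset.sum_congr rfl fun j _ => Bo_const_mul π Λ (y j) _ i

/-- the bilinear form `B(z w)(i)` in the normalisation of `G4` -/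
noncomputable def LL (i : Ω) : ContinuousMultilinearMap ℝ (fun _ : Fin 2 => G4 Ω) ℝ :=
  ∑ j, (rt Ω ^ 2 * Bo π Λ (fun ω => if ω = j then 1 else 0) i) • cp 2 j

theorem LL_apply (i : Ω) (z : Fin 2 → G4 Ω) :
    LL π Λ i z = Bo π Λ (fun ω => (rt Ω * z 0 ω) * (rt Ω * z 1 ω)) i := by
  rw [Bo_expand]
  simp only [LL, _root_.sum_apply, _root_.smul_apply,
    cp_apply, Fin.prod_univ_two, smul_eq_mul]
  exact Finset.sum_congr rfl fun j _ => by ring

theorem LL_norm [Nonempty Ω] (hcm : ∀ (c : Fin r) (v : V), cm π c (fun _ => 1) v ≤ 1)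
    (hr : 1 ≤ r) (i : Ω) : ‖LL π Λ i‖ ≤ SS V r Λ := by
  refine ContinuousMultilinearMap.opNorm_le_bound (by unfold SS; positivity) fun z => ?_
  rw [LL_apply, Real.norm_eq_abs, Fin.prod_univ_two]
  exact abs_Bo_rt π Λ hcm hr (z 0) (z 1) i

/-- the coordinate functional in the normalisation of `G4` -/
noncomputable def ee (i : Ω) : G4 Ω →L[ℝ] ℝ :=
  rt Ω • PiLp.proj (𝕜 := ℝ) (4 : ℝ≥0∞) (fun _ : Ω => ℝ) i

theorem ee_apply (i : Ω) (z : G4 Ω) : ee i z = rt Ω * z i := by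
  simp [ee]

theorem ee_norm (i : Ω) : ‖(ee i : G4 Ω →L[ℝ] ℝ)‖ ≤ rt Ω := by
  refine ContinuousLinearMap.opNorm_le_bound _ rt_nonneg fun z => ?_
  rw [ee_apply, norm_mul, Real.norm_eq_abs, abs_of_nonneg rt_nonneg]
  exact mul_le_mul_of_nonneg_left (PiLp.norm_apply_le z i) rt_nonneg

/-- the contraction of the block into `G4` -/
noncomputable def io : FB π Λ →L[ℝ] G4 Ω :=
  LinearMap.toContinuousLinearMap
    ({ toFun := fun x => WithLp.toLp 4 (fun ω => (rt Ω)⁻¹ * (x : Ω → ℝ) ω)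
       map_add' := fun x y => by
        ext ω
        show (rt Ω)⁻¹ * (x ω + y ω) = (rt Ω)⁻¹ * x ω + (rt Ω)⁻¹ * y ω
        ring
       map_smul' := fun a x => by
        ext ω
        show (rt Ω)⁻¹ * (a * x ω) = a * ((rt Ω)⁻¹ * x ω)
        ring } : FB π Λ →ₗ[ℝ] G4 Ω)

theorem io_apply (x : FB π Λ) (ω : Ω) : io π Λ x ω = (rt Ω)⁻¹ * (x : Ω → ℝ) ω := rfl

theorem rt_io [Nonempty Ω] (x : FB π Λ) (ω : Ω) : rt Ω * io π Λ x ω = (x : Ω → ℝ) ω := by
  rw [io_apply, mul_inv_cancel_left₀ rt_pos.ne']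

theorem io_norm_pow [Nonempty Ω] (x : FB π Λ) :
    ‖io π Λ x‖ ^ 4 = av (fun ω => (x : Ω → ℝ) ω ^ 4) := by
  rw [← av_rt_four]
  exact av_congr fun ω => by rw [rt_io]

theorem io_norm [Nonempty Ω] : ‖io π Λ‖ ≤ 1 := by
  refine ContinuousLinearMap.opNorm_le_bound _ zero_le_one fun x => ?_
  rw [one_mul]
  have h1 := io_norm_pow π Λ x
  have h2 := av_four_le_norm π Λ x
  rw [← h1] at h2
  exact le_of_pow_le_pow_left₀ (by norm_num) (norm_nonneg _) h2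

theorem RR_eq [Nonempty Ω] (η : ℝ) (x : FB π Λ) : RR π Λ η x =
    Pool.Agent.Helper14.PK.chi (Q4 (fun _ : Fin 4 => io π Λ x)) *
      Pool.Agent.Helper14.PK.Rs (fun i : Ω => ee i) (LL π Λ) η (io π Λ x) := by
  unfold RR
  rw [Q4_diag, io_norm_pow]
  congr 1
  · unfold chi Pool.Agent.Helper14.PK.chi
    congr 1; ring
  · unfold G1 Pool.Agent.Helper14.PK.Rs av
    rw [div_eq_inv_mul]
    congr 1
    refine Finset.sum_congr rfl fun i _ => ?_
    unfold Pool.Agent.Helper14.PK.term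
    rw [ee_apply, rt_io, LL_apply]
    have h1 : (fun ω => (rt Ω * io π Λ x ω) * (rt Ω * io π Λ x ω)) =
        fun ω => (x : Ω → ℝ) ω ^ 2 := by
      funext ω; rw [rt_io]; ring
    rw [h1]
    rfl

end forms

/-- Piece PK-08.  Bounds for the derivatives of the remainder. -/
theorem RR_bound (k : ℕ) : ∃ C : ℝ, 0 ≤ C ∧ ∀ (Ω V : Type) [Fintype Ω] [Fintype V]
    [DecidableEq V] [Nonempty Ω] (r : ℕ) (π : Fin r → Ω → V) (Λ : ℕ) (η p : ℝ), 0 < η → η ≤ 1 →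
    0 ≤ p → Rare π Λ η p → 1 ≤ r → (∀ (c : Fin r) (v : V), cm π c (fun _ => 1) v ≤ 1) →
    ∀ i ≤ k, ∀ x : FB π Λ,
    ‖iteratedFDeriv ℝ i (fun z : FB π Λ => RR π Λ η z) x‖ ≤
      C * p * Real.sqrt (Fintype.card Ω) *
        ((((r : ℝ) * Λ + 2 * (r : ℝ) ^ 2) * Real.sqrt (Fintype.card V)) / η) ^ (i + 1) := by
  classical
  refine ⟨∑ i ∈ Finset.range (k + 1), Pool.Agent.Helper14.PK.Kf i,
    Finset.sum_nonneg fun i _ => (Pool.Agent.Helper14.PK.Kf_pos i).le, ?_⟩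
  intro Ω V _ _ _ _ r π Λ η p hη hη1 hp0 hR hr hcm i hi x
  obtain ⟨ω₀⟩ := (inferInstance : Nonempty Ω)
  have hV : (1 : ℝ) ≤ Fintype.card V := by
    have : Nonempty V := ⟨π ⟨0, hr⟩ ω₀⟩
    exact_mod_cast Fintype.card_pos
  have hr1 : (1 : ℝ) ≤ r := by exact_mod_cast hr
  have hs1 : 1 ≤ Real.sqrt (Fintype.card V) := by
    rw [← Real.sqrt_one]; exact Real.sqrt_le_sqrt hV
  have hS1 : 1 ≤ SS V r Λ := by
    unfold SS
    have h1 : (1 : ℝ) ≤ (r : ℝ) * Λ + 2 * (r : ℝ) ^ 2 := by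
      have : (0 : ℝ) ≤ (r : ℝ) * Λ := by positivity
      nlinarith
    nlinarith
  -- the fraction of bad points
  have hbad : ∀ z : G4 Ω, ‖z‖ ≤ 1 →
      ((Finset.univ.filter fun w => LL π Λ w (fun _ => z) < -η).card : ℝ) ≤
        p * Fintype.card Ω := by
    intro z hz
    have hc : (0 : ℝ) < Fintype.card Ω := by exact_mod_cast Fintype.card_pos
    have h1 := (hR (fun ω => (rt Ω * z ω) * (rt Ω * z ω)) (fun ω => mul_self_nonneg _) (by
      have h2 : av (fun ω => ((rt Ω * z ω) * (rt Ω * z ω)) ^ 2) = ‖z‖ ^ 4 := by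
        rw [← av_rt_four]; exact av_congr fun ω => by ring
      rw [h2]
      exact pow_le_one₀ (norm_nonneg _) hz)).1
    rw [← div_le_iff₀ hc]
    refine le_trans ?_ h1
    unfold av
    refine div_le_div_of_nonneg_right ?_ hc.le
    rw [Finset.card_filter, Nat.cast_sum]
    refine Finset.sum_le_sum fun ω _ => ?_
    rw [LL_apply]
    by_cases hω : Bo π Λ (fun ω => (rt Ω * z ω) * (rt Ω * z ω)) ω < -η
    · rw [if_pos hω, if_pos (by linarith)]; simp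
    · rw [if_neg hω]
      split_ifs <;> simp
  have h1 : (fun z : FB π Λ => RR π Λ η z) =
      (fun z : G4 Ω => Pool.Agent.Helper14.PK.chi (Q4 (fun _ : Fin 4 => z)) *
        Pool.Agent.Helper14.PK.Rs (fun i : Ω => ee i) (LL π Λ) η z) ∘ (io π Λ) := by
    funext x; exact RR_eq π Λ η x
  rw [h1, ContinuousLinearMap.iteratedFDeriv_comp_right (io π Λ)
    (show ContDiff ℝ (i : WithTop ℕ∞) _ from by
      exact_mod_cast Pool.Agent.Helper14.PK.final_contDiff (fun i : Ω => ee i) (LL π Λ) Q4 η i)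
    x (i := i) le_rfl]
  refine (ContinuousMultilinearMap.norm_compContinuousLinearMap_le _ _).trans ?_
  have h2 : ∏ _j : Fin i, ‖io π Λ‖ ≤ 1 :=
    Finset.prod_le_one (fun _ _ => norm_nonneg _) (fun _ _ => io_norm π Λ)
  have h3 := Pool.Agent.Helper14.PK.final_bound (e := fun i : Ω => ee i) (L := LL π Λ) (Q := Q4)
    hη hη1 hS1 (fun w => ee_norm w) (fun w => LL_norm π Λ hcm hr w) Q4_norm Q4_diag hp0 hbad i
    (io π Λ x)
  have h4 : Pool.Agent.Helper14.PK.Kf i ≤ ∑ i ∈ Finset.range (k + 1), Pool.Agent.Helper14.PK.Kf i :=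
    Finset.single_le_sum (f := Pool.Agent.Helper14.PK.Kf)
      (fun j _ => (Pool.Agent.Helper14.PK.Kf_pos j).le)
      (Finset.mem_range.2 (Nat.lt_succ_of_le hi))
  have h5 : SS V r Λ ≤ SS V r Λ / η := by
    rw [le_div_iff₀ hη]; nlinarith
  have h6 : 0 ≤ SS V r Λ / η := by
    have : 0 ≤ SS V r Λ := by linarith
    positivity
  calc _ ≤ Pool.Agent.Helper14.PK.Kf i * (p * (rt Ω ^ 2 * SS V r Λ * (SS V r Λ / η) ^ i)) * 1 :=
        mul_le_mul h3 h2 (Finset.prod_nonneg fun _ _ => norm_nonneg _) (le_trans (norm_nonneg _) h3)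
    _ ≤ (∑ i ∈ Finset.range (k + 1), Pool.Agent.Helper14.PK.Kf i) *
        (p * (rt Ω ^ 2 * (SS V r Λ / η) * (SS V r Λ / η) ^ i)) := by
      rw [mul_one]
      have hK := (Pool.Agent.Helper14.PK.Kf_pos i).le
      refine mul_le_mul h4 ?_ ?_ (hK.trans h4)
      · refine mul_le_mul_of_nonneg_left ?_ hp0
        refine mul_le_mul_of_nonneg_right ?_ (by positivity)
        exact mul_le_mul_of_nonneg_left h5 (by positivity)
      · have : 0 ≤ SS V r Λ := by linarith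
        positivity
    _ = _ := by
      rw [rt_sq, pow_succ]
      unfold SS
      ring

end Pool.Agent.Helper47.PK
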