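import Pool.Agent.Helper47.PK.Family

/-! Project PK, piece PK-01: Reed-Solomon codes are designs. -/

set_option autoImplicit false

namespace Pool.Agent.Helper47.PK

open Finset Polynomial

/-- the polynomial with coefficients `a` -/
noncomputable def design_poly {t N : ℕ} (a : Fin (t + 1) → ZMod N) : (ZMod N)[X] :=
  ∑ k : Fin (t + 1), C (a k) * X ^ (k : ℕ)

theorem design_poly_eval {t N : ℕ} (a : Fin (t + 1) → ZMod N) (x : ZMod N) :
    (design_poly a).eval x = ∑ k : Fin (t + 1), a k * x ^ (k : ℕ) := by
  unfold design_poly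
  rw [eval_finsetSum]
  refine Finset.sum_congr rfl fun k _ => ?_
  rw [eval_mul, eval_C, eval_pow, eval_X]

theorem design_poly_coeff {t N : ℕ} (a : Fin (t + 1) → ZMod N) (k : Fin (t + 1)) :
    (design_poly a).coeff (k : ℕ) = a k := by
  unfold design_poly
  rw [finsetSum_coeff]
  rw [Finset.sum_eq_single k]
  · rw [coeff_C_mul, coeff_X_pow, if_pos rfl, mul_one]
  · intro b _ hb
    rw [coeff_C_mul, coeff_X_pow, if_neg, mul_zero]
    intro h
    exact hb (Fin.ext h.symm)
  · intro h
    exact absurd (Finset.mem_univ k) h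

theorem design_poly_natDegree {t N : ℕ} (a : Fin (t + 1) → ZMod N) :
    (design_poly a).natDegree ≤ t := by
  unfold design_poly
  refine natDegree_sum_le_of_forall_le _ _ fun k _ => ?_
  refine (natDegree_C_mul_X_pow_le _ _).trans ?_
  have := k.isLt
  omega

theorem design_poly_ne_zero {t N : ℕ} (a : Fin (t + 1) → ZMod N) (ha : a ≠ 0) :
    design_poly a ≠ 0 := by
  intro h
  apply ha
  funext k
  have := design_poly_coeff a k
  rw [h, coeff_zero] at this
  rw [← this]; rfl

/-- the point as a vector of elements of `ZMod N` -/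
def design_vec {t N : ℕ} (ω : Fin (t + 1) → Fin N) : Fin (t + 1) → ZMod N :=
  fun k => (((ω k : Fin N) : ℕ) : ZMod N)

theorem design_cast_inj {N : ℕ} {a b : ℕ} (ha : a < N) (hb : b < N)
    (h : (a : ZMod N) = (b : ZMod N)) : a = b := by
  rw [ZMod.natCast_eq_natCast_iff'] at h
  rwa [Nat.mod_eq_of_lt ha, Nat.mod_eq_of_lt hb] at h

theorem design_rs_cast {r t N : ℕ} (c : Fin r) (ω : Fin (t + 1) → Fin N) :
    (((rs r t N c ω : Fin N) : ℕ) : ZMod N)
      = ∑ k : Fin (t + 1), design_vec ω k * ((c : ℕ) : ZMod N) ^ (k : ℕ) := by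
  unfold rs design_vec
  simp only [ZMod.natCast_mod]
  push_cast
  rfl

theorem design_rs_eq_iff {r t N : ℕ} (c : Fin r) (ω : Fin (t + 1) → Fin N) (v : Fin N) :
    rs r t N c ω = v ↔
      ∑ k : Fin (t + 1), design_vec ω k * ((c : ℕ) : ZMod N) ^ (k : ℕ) = ((v : ℕ) : ZMod N) := by
  rw [← design_rs_cast]
  constructor
  · intro h; rw [h]
  · intro h
    exact Fin.ext (design_cast_inj (Fin.isLt _) (Fin.isLt _) h)

theorem design_agree {r t N : ℕ} (hN : N.Prime) (hr : r ≤ N) (i j : Fin (t + 1) → Fin N)
    (hij : i ≠ j) : (univ.filter fun c : Fin r => rs r t N c i = rs r t N c j).card ≤ t := by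
  have : Fact N.Prime := ⟨hN⟩
  set a : Fin (t + 1) → ZMod N := design_vec i - design_vec j with ha
  have ha0 : a ≠ 0 := by
    intro h
    apply hij
    funext k
    have h1 : a k = 0 := by rw [h]; rfl
    rw [ha, Pi.sub_apply, sub_eq_zero] at h1
    exact Fin.ext (design_cast_inj (Fin.isLt _) (Fin.isLt _) h1)
  have hp := design_poly_ne_zero a ha0
  have hinj : Function.Injective (fun c : Fin r => ((c : ℕ) : ZMod N)) := by
    intro c d h
    exact Fin.ext (design_cast_inj (c.isLt.trans_le hr) (d.isLt.trans_le hr) h)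
  rw [← Finset.card_image_of_injective _ hinj]
  have hsub : ((univ.filter fun c : Fin r => rs r t N c i = rs r t N c j).image
      (fun c : Fin r => ((c : ℕ) : ZMod N))) ⊆ (design_poly a).roots.toFinset := by
    intro x hx
    rw [Finset.mem_image] at hx
    obtain ⟨c, hc, rfl⟩ := hx
    rw [Finset.mem_filter] at hc
    rw [Multiset.mem_toFinset, mem_roots hp, IsRoot.def, design_poly_eval]
    have h1 := (design_rs_eq_iff c i (rs r t N c j)).1 hc.2
    rw [design_rs_cast] at h1
    rw [ha]
    simp only [Pi.sub_apply, sub_mul, Finset.sum_sub_distrib]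
    rw [h1, sub_self]
  refine (Finset.card_le_card hsub).trans ?_
  refine (Multiset.toFinset_card_le _).trans ?_
  exact (card_roots' _).trans (design_poly_natDegree a)

/-- evaluation at the nodes `f i` -/
noncomputable def design_ev {r : ℕ} (t N : ℕ) {ι : Type} (f : ι → Fin r) :
    (Fin (t + 1) → ZMod N) →+ (ι → ZMod N) where
  toFun a := fun i => ∑ k : Fin (t + 1), a k * ((f i : ℕ) : ZMod N) ^ (k : ℕ)
  map_zero' := by
    funext i
    simp
  map_add' a b := by
    funext i
    simp only [Pi.add_apply, add_mul, Finset.sum_add_distrib]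

theorem design_ev_apply {r : ℕ} (t N : ℕ) {ι : Type} (f : ι → Fin r) (a : Fin (t + 1) → ZMod N)
    (i : ι) : design_ev t N f a i = ∑ k : Fin (t + 1), a k * ((f i : ℕ) : ZMod N) ^ (k : ℕ) := rfl

theorem design_ev_surj {r t N : ℕ} (hN : N.Prime) (hr : r ≤ N) {ι : Type} [Fintype ι]
    [DecidableEq ι] (hc : Fintype.card ι ≤ t + 1)
    (f : ι → Fin r) (hf : Function.Injective f) : Function.Surjective (design_ev t N f) := by
  have : Fact N.Prime := ⟨hN⟩
  intro w
  have hinj : Set.InjOn (fun i : ι => ((f i : ℕ) : ZMod N)) ((univ : Finset ι) : Set ι) := by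
    intro c _ d _ h
    exact hf (Fin.ext (design_cast_inj ((f c).isLt.trans_le hr) ((f d).isLt.trans_le hr) h))
  set p := Lagrange.interpolate (univ : Finset ι) (fun i : ι => ((f i : ℕ) : ZMod N)) w with hp
  have hdeg : p.degree < ((t + 1 : ℕ) : WithBot ℕ) := by
    refine (Lagrange.degree_interpolate_lt w hinj).trans_le ?_
    rw [Finset.card_univ]
    exact_mod_cast hc
  refine ⟨fun k => p.coeff (k : ℕ), ?_⟩
  funext i
  rw [design_ev_apply]
  have h1 : p.eval ((f i : ℕ) : ZMod N) = w i :=
    Lagrange.eval_interpolate_at_node w hinj (Finset.mem_univ i)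
  rw [← h1]
  rcases eq_or_ne p 0 with h0 | h0
  · rw [h0]; simp
  · rw [eval_eq_sum_range' ((natDegree_lt_iff_degree_lt h0).2 hdeg), Finset.sum_range]

theorem design_vec_bij {t N : ℕ} (hN : 0 < N) :
    Function.Bijective (design_vec : (Fin (t + 1) → Fin N) → (Fin (t + 1) → ZMod N)) := by
  have : NeZero N := ⟨hN.ne'⟩
  constructor
  · intro a b h
    funext k
    exact Fin.ext (design_cast_inj (Fin.isLt _) (Fin.isLt _) (congrFun h k))
  · intro w
    refine ⟨fun k => ⟨(w k).val, ZMod.val_lt _⟩, ?_⟩
    funext k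
    unfold design_vec
    exact ZMod.natCast_zmod_val (w k)

theorem design_indep {r t N : ℕ} (hN : N.Prime) (hr : r ≤ N) (S : Finset (Fin r))
    (hS : S.card ≤ t + 1) (v : Fin r → Fin N) :
    Fintype.card {ω : Fin (t + 1) → Fin N // ∀ c ∈ S, rs r t N c ω = v c}
      * Fintype.card (Fin N) ^ S.card = Fintype.card (Fin (t + 1) → Fin N) := by
  classical
  have : Fact N.Prime := ⟨hN⟩
  have : NeZero N := ⟨hN.ne_zero⟩
  have hfi : Function.Injective (fun c : S => (c : Fin r)) := Subtype.val_injective
  have hcard : Fintype.card S ≤ t + 1 := by rwa [Fintype.card_coe]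
  have hsurj := design_ev_surj (t := t) hN hr hcard (fun c : S => (c : Fin r)) hfi
  set e := design_ev t N (fun c : S => (c : Fin r)) with he
  set w : S → ZMod N := fun c => ((v c : ℕ) : ZMod N) with hw
  have hfib : ∀ y : S → ZMod N,
      (univ.filter fun a => e a = y).card = (univ.filter fun a => e a = w).card := by
    intro y
    exact AddMonoidHom.card_fiber_eq_of_mem_range e (Set.mem_range.2 (hsurj y))
      (Set.mem_range.2 (hsurj w))
  have htot : Fintype.card (Fin (t + 1) → ZMod N)
      = Fintype.card (S → ZMod N) * (univ.filter fun a => e a = w).card := by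
    have h1 := Finset.card_eq_sum_card_fiberwise (f := e) (s := univ) (t := univ)
      (fun a _ => Finset.mem_coe.2 (Finset.mem_univ _))
    rw [Finset.card_univ] at h1
    rw [h1, Finset.sum_congr rfl fun y _ => hfib y, Finset.sum_const, Finset.card_univ,
      smul_eq_mul]
  have hsub : Fintype.card {ω : Fin (t + 1) → Fin N // ∀ c ∈ S, rs r t N c ω = v c}
      = (univ.filter fun a => e a = w).card := by
    rw [← Fintype.card_subtype]
    refine Fintype.card_congr (Equiv.subtypeEquiv
      (Equiv.ofBijective _ (design_vec_bij (t := t) hN.pos)) ?_)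
    intro ω
    rw [Equiv.ofBijective_apply]
    constructor
    · intro h
      funext c
      rw [he, design_ev_apply]
      exact (design_rs_eq_iff c.1 ω (v c)).1 (h c.1 c.2)
    · intro h c hc
      have := congrFun h ⟨c, hc⟩
      rw [he, design_ev_apply] at this
      exact (design_rs_eq_iff c ω (v c)).2 this
  rw [hsub]
  have h2 : Fintype.card (Fin (t + 1) → ZMod N) = Fintype.card (Fin (t + 1) → Fin N) := by
    rw [Fintype.card_fun, Fintype.card_fun, ZMod.card, Fintype.card_fin N]
  rw [← h2, htot, Fintype.card_fun, ZMod.card, Fintype.card_fin, Fintype.card_coe]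
  ring

/-- Piece PK-01.  `agree`: if `c = (c : Fin r)` and `π c i = π c j` then the nonzero polynomial
`∑ (i_k - j_k) X^k` over `ZMod N` (degree `≤ t`) vanishes at the `r ≤ N` distinct points `(c : ZMod N)`
of the filter set, so this set has at most `t` elements (`Polynomial.card_roots'`, or
`Polynomial.eq_of_degree_sub_lt_of_eval_finset_eq`).
`indep`: enlarge `S` if you like or use Lagrange interpolation: the linear map
`(ZMod N)^(t+1) → (ZMod N)^S, ω ↦ (∑_k ω_k c^k)_{c ∈ S}` is onto for `|S| ≤ t + 1` (the nodes are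
distinct as `c < r ≤ N`), so all its fibres have `N^(t+1-|S|)` elements
(fibres of a surjective additive group homomorphism have equal cardinality). -/
theorem rs_isDes {r t N : ℕ} (hN : N.Prime) (hr : r ≤ N) : IsDes t (rs r t N) where
  indep S hS v := by
    convert design_indep hN hr S hS v
  agree i j hij := by
    convert design_agree hN hr i j hij

/-- evaluation at `t + 1` distinct nodes is a bijection -/
theorem rs_bij {r t N : ℕ} (hN : N.Prime) (hr : r ≤ N) (f : Fin (t + 1) → Fin r)
    (hf : Function.Injective f) : Function.Bijective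
      (fun (ω : Fin (t + 1) → Fin N) (i : Fin (t + 1)) => rs r t N (f i) ω) := by
  rw [← Finite.injective_iff_bijective, Finite.injective_iff_surjective]
  intro v
  have : NeZero N := ⟨hN.ne_zero⟩
  obtain ⟨a, ha⟩ := design_ev_surj (t := t) hN hr (by rw [Fintype.card_fin]) f hf
    (fun i => ((v i : ℕ) : ZMod N))
  obtain ⟨ω, rfl⟩ := (design_vec_bij (t := t) hN.pos).2 a
  refine ⟨ω, ?_⟩
  funext i
  rw [design_rs_eq_iff]
  have := congrFun ha i
  rwa [design_ev_apply] at this

end Pool.Agent.Helper47.PK
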