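import Pool.Agent.Helper47.PK.Basic

/-! Project PK: the normed space `FB π Λ`: functions on `Ω`, the unit ball being (essentially) the
convex hull of `{P ≤ 1}`. -/

set_option autoImplicit false

namespace Pool.Agent.Helper47.PK

open Finset Pointwise

variable {Ω V : Type} [Fintype Ω] [Fintype V] [DecidableEq V] {r : ℕ} (π : Fin r → Ω → V) (Λ : ℕ)

theorem av_sq_mul_Bo_nonneg (x : Ω → ℝ) :
    0 ≤ av (fun ω => x ω ^ 2 * Bo π Λ (fun i => x i ^ 2) ω) :=
  av_mul_Bo_nonneg π Λ (fun ω => x ω ^ 2)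

theorem av_four_nonneg (x : Ω → ℝ) : 0 ≤ av (fun ω => x ω ^ 4) :=
  av_nonneg fun ω => by positivity

theorem av_four_le_PP (x : Ω → ℝ) : av (fun ω => x ω ^ 4) ≤ PP π Λ x := by
  unfold PP
  linarith [av_sq_mul_Bo_nonneg π Λ x]

theorem PP_nonneg (x : Ω → ℝ) : 0 ≤ PP π Λ x := (av_four_nonneg x).trans (av_four_le_PP π Λ x)

theorem av_four_smul (a : ℝ) (x : Ω → ℝ) :
    av (fun ω => (a • x) ω ^ 4) = a ^ 4 * av (fun ω => x ω ^ 4) := by
  rw [← av_const_mul]
  congr 1; funext ω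
  simp only [Pi.smul_apply, smul_eq_mul]; ring

theorem PP_smul (a : ℝ) (x : Ω → ℝ) : PP π Λ (a • x) = a ^ 4 * PP π Λ x := by
  unfold PP
  rw [av_four_smul, mul_add, ← av_const_mul _ (fun ω => x ω ^ 2 * _)]
  congr 2; funext ω
  have h : (fun i => (a • x) i ^ 2) = fun i => a ^ 2 * x i ^ 2 := by
    funext i; simp only [Pi.smul_apply, smul_eq_mul]; ring
  rw [h, Bo_const_mul]
  simp only [Pi.smul_apply, smul_eq_mul]; ring

theorem PP_neg (x : Ω → ℝ) : PP π Λ (-x) = PP π Λ x := by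
  have := PP_smul π Λ (-1) x
  rw [neg_one_smul] at this
  rw [this]; norm_num

theorem PP_zero : PP π Λ 0 = 0 := by
  have := PP_smul π Λ 0 0
  simpa using this

/-- the convex set `{E x^4 ≤ 1}` -/
theorem convex_av_four : Convex ℝ {x : Ω → ℝ | av (fun ω => x ω ^ 4) ≤ 1} := by
  have h : ConvexOn ℝ Set.univ (fun x : Ω → ℝ => av (fun ω => x ω ^ 4)) := by
    refine ⟨convex_univ, fun x _ y _ a b ha hb hab => ?_⟩
    simp only [smul_eq_mul]
    rw [← av_const_mul, ← av_const_mul, ← av_add]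
    refine av_mono fun ω => ?_
    have := (Even.convexOn_pow (n := 4) (𝕜 := ℝ) (by decide)).2 (Set.mem_univ (x ω))
      (Set.mem_univ (y ω)) ha hb hab
    simpa [smul_eq_mul] using this
  simpa using h.convex_le 1

/-- the unit ball of the norm, before completion -/
def UB : Set (Ω → ℝ) := convexHull ℝ {x : Ω → ℝ | PP π Λ x ≤ 1}

theorem subset_UB {x : Ω → ℝ} (hx : PP π Λ x ≤ 1) : x ∈ UB π Λ := subset_convexHull ℝ _ hx

theorem UB_subset {x : Ω → ℝ} (hx : x ∈ UB π Λ) : av (fun ω => x ω ^ 4) ≤ 1 := by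
  have h : UB π Λ ⊆ {x : Ω → ℝ | av (fun ω => x ω ^ 4) ≤ 1} :=
    convexHull_min (fun x hx => (av_four_le_PP π Λ x).trans hx) convex_av_four
  exact h hx

theorem UB_convex : Convex ℝ (UB π Λ) := convex_convexHull ℝ _

theorem UB_symm : ∀ x ∈ UB π Λ, -x ∈ UB π Λ := by
  intro x hx
  have h : UB π Λ ⊆ {x | -x ∈ UB π Λ} := by
    refine convexHull_min (fun x hx => ?_) ?_
    · exact subset_UB π Λ (by rw [PP_neg]; exact hx)
    · have := (UB_convex π Λ).neg
      intro x hx y hy a b ha hb hab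
      have h1 := (UB_convex π Λ) hx hy ha hb hab
      simp only [Set.mem_ofPred_eq] at *
      rw [neg_add, ← smul_neg, ← smul_neg]
      exact h1
  exact h hx

theorem UB_balanced : Balanced ℝ (UB π Λ) := by
  intro a ha
  rw [Set.smul_set_subset_iff]
  intro x hx
  have ha' : |a| ≤ 1 := by simpa using ha
  obtain ⟨h1, h2⟩ := abs_le.1 ha'
  have h3 := (UB_convex π Λ) hx (UB_symm π Λ x hx) (a := (1 + a) / 2) (b := (1 - a) / 2)
    (by linarith) (by linarith) (by ring)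
  have h4 : ((1 + a) / 2) • x + ((1 - a) / 2) • (-x) = a • x := by
    funext ω
    simp only [Pi.add_apply, Pi.smul_apply, smul_eq_mul, Pi.neg_apply]; ring
  rwa [h4] at h3

theorem zero_mem_UB : (0 : Ω → ℝ) ∈ UB π Λ := subset_UB π Λ (by rw [PP_zero]; exact zero_le_one)

theorem mem_smul_UB {x : Ω → ℝ} {a : ℝ} (ha : 0 < a) (hx : PP π Λ x ≤ a ^ 4) :
    x ∈ a • UB π Λ := by
  refine ⟨a⁻¹ • x, subset_UB π Λ ?_, ?_⟩
  · rw [PP_smul, inv_pow, inv_mul_le_iff₀ (by positivity)]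
    linarith
  · show a • a⁻¹ • x = x
    rw [smul_smul, mul_inv_cancel₀ ha.ne', one_smul]

theorem UB_absorbent : Absorbent ℝ (UB π Λ) := by
  refine absorbent_iff_eventually_nhdsNE_zero.2 fun x => ?_
  have h1 : Filter.Tendsto (fun a : ℝ => a ^ 4 * PP π Λ x) (nhds 0) (nhds 0) := by
    have : Continuous (fun a : ℝ => a ^ 4 * PP π Λ x) := by fun_prop
    simpa using this.tendsto 0
  have h2 := h1.eventually (gt_mem_nhds (show (0 : ℝ) < 1 by norm_num))
  refine (h2.filter_mono nhdsWithin_le_nhds).mono fun a ha => ?_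
  exact subset_UB π Λ (by rw [PP_smul]; exact ha.le)

/-- functions on `Ω`, normed by the gauge of `conv {P ≤ 1}` -/
def FB (_ : Fin r → Ω → V) (_ : ℕ) : Type := Ω → ℝ

noncomputable instance : AddCommGroup (FB π Λ) := inferInstanceAs (AddCommGroup (Ω → ℝ))
noncomputable instance : Module ℝ (FB π Λ) := inferInstanceAs (Module ℝ (Ω → ℝ))
instance : Module.Finite ℝ (FB π Λ) := inferInstanceAs (Module.Finite ℝ (Ω → ℝ))

noncomputable instance : Norm (FB π Λ) := ⟨fun x => gauge (UB π Λ) x⟩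

theorem norm_eq_gauge (x : FB π Λ) : ‖x‖ = gauge (UB π Λ) x := rfl

theorem av_four_le_of_gauge (x : Ω → ℝ) : av (fun ω => x ω ^ 4) ≤ (gauge (UB π Λ) x) ^ 4 := by
  have h0 : 0 ≤ gauge (UB π Λ) x := gauge_nonneg x
  have h1 : ∀ ε > 0, av (fun ω => x ω ^ 4) ≤ (gauge (UB π Λ) x + ε) ^ 4 := by
    intro ε hε
    obtain ⟨b, hb0, hb, hx⟩ := exists_lt_of_gauge_lt (UB_absorbent π Λ)
      (show gauge (UB π Λ) x < gauge (UB π Λ) x + ε by linarith)
    obtain ⟨z, hz, rfl⟩ := hx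
    show av (fun ω => (b • z) ω ^ 4) ≤ _
    rw [av_four_smul]
    have h2 := UB_subset π Λ hz
    calc b ^ 4 * av (fun ω => z ω ^ 4) ≤ b ^ 4 * 1 := by gcongr
      _ ≤ _ := by
        rw [mul_one]
        exact pow_le_pow_left₀ hb0.le hb.le 4
  have h2 : Filter.Tendsto (fun ε : ℝ => (gauge (UB π Λ) x + ε) ^ 4) (nhdsWithin 0 (Set.Ioi 0))
      (nhds ((gauge (UB π Λ) x) ^ 4)) := by
    have : Continuous (fun ε : ℝ => (gauge (UB π Λ) x + ε) ^ 4) := by fun_prop
    have h3 := this.tendsto 0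
    rw [add_zero] at h3
    exact h3.mono_left nhdsWithin_le_nhds
  exact ge_of_tendsto h2 (Filter.eventually_of_mem self_mem_nhdsWithin fun ε hε => h1 ε hε)

theorem FB_core : NormedSpace.Core ℝ (FB π Λ) where
  norm_nonneg x := gauge_nonneg _
  norm_smul a x := gauge_smul (UB_balanced π Λ) a x
  norm_triangle x y := gauge_add_le (UB_convex π Λ) (UB_absorbent π Λ) x y
  norm_eq_zero_iff x := by
    constructor
    · intro h
      have h1 := av_four_le_of_gauge π Λ x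
      rw [norm_eq_gauge] at h
      rw [h] at h1
      have h2 : av (fun ω => (x : Ω → ℝ) ω ^ 4) = 0 :=
        le_antisymm (by simpa using h1) (av_four_nonneg _)
      funext ω
      have h3 := eq_zero_of_av_eq_zero (fun ω => by positivity) h2 ω
      have h4 : (x : Ω → ℝ) ω = 0 := by simpa using h3
      exact h4
    · rintro rfl
      exact gauge_zero

noncomputable instance : NormedAddCommGroup (FB π Λ) := NormedAddCommGroup.ofCore (FB_core π Λ)
noncomputable instance : NormedSpace ℝ (FB π Λ) := NormedSpace.ofCore (FB_core π Λ)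

/-- evaluation at `ω` is a linear functional -/
noncomputable def evl (ω : Ω) : FB π Λ →L[ℝ] ℝ :=
  LinearMap.toContinuousLinearMap
    ({ toFun := fun x => x ω
       map_add' := fun _ _ => rfl
       map_smul' := fun _ _ => rfl } : FB π Λ →ₗ[ℝ] ℝ)

@[simp] theorem evl_apply (ω : Ω) (x : FB π Λ) : evl π Λ ω x = x ω := rfl

theorem av_four_le_norm (x : FB π Λ) : av (fun ω => (x : Ω → ℝ) ω ^ 4) ≤ ‖x‖ ^ 4 :=
  av_four_le_of_gauge π Λ x

theorem norm_le_of_PP_le (x : FB π Λ) {a : ℝ} (ha : 0 < a) (hx : PP π Λ x ≤ a ^ 4) : ‖x‖ ≤ a :=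
  gauge_le_of_mem ha.le (mem_smul_UB π Λ ha hx)

theorem norm_pow_le_PP (x : FB π Λ) : ‖x‖ ^ 4 ≤ PP π Λ x := by
  rcases (PP_nonneg π Λ x).eq_or_lt with h | h
  · have h1 : ‖x‖ ≤ 0 := by
      refine le_of_forall_pos_le_add fun ε hε => ?_
      rw [zero_add]
      exact norm_le_of_PP_le π Λ x hε (by rw [← h]; positivity)
    have h2 : ‖x‖ = 0 := le_antisymm h1 (norm_nonneg _)
    rw [h2, ← h]; norm_num
  · set a : ℝ := (PP π Λ x) ^ ((1 : ℝ) / 4) with ha
    have ha0 : 0 < a := Real.rpow_pos_of_pos h _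
    have ha4 : a ^ 4 = PP π Λ x := by
      rw [ha, ← Real.rpow_natCast, ← Real.rpow_mul h.le]
      norm_num
    have h1 := norm_le_of_PP_le π Λ x ha0 ha4.ge
    calc ‖x‖ ^ 4 ≤ a ^ 4 := pow_le_pow_left₀ (norm_nonneg _) h1 4
      _ = _ := ha4

/-- a quartic bound on the ball `UB` gives a bound by the norm -/
theorem PP_le_of_UB {K : ℝ} (hK : 0 ≤ K) (h : ∀ z ∈ UB π Λ, PP π Λ z ≤ K) (x : FB π Λ) :
    PP π Λ x ≤ K * ‖x‖ ^ 4 := by
  have h1 : ∀ ε > 0, PP π Λ x ≤ K * (‖x‖ + ε) ^ 4 := by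
    intro ε hε
    obtain ⟨b, hb0, hb, hx⟩ := exists_lt_of_gauge_lt (UB_absorbent π Λ)
      (show gauge (UB π Λ) x < gauge (UB π Λ) x + ε by linarith)
    obtain ⟨z, hz, hzx⟩ := hx
    have h2 : PP π Λ x = b ^ 4 * PP π Λ z := by rw [← hzx]; exact PP_smul π Λ b z
    rw [h2]
    have h3 := h z hz
    calc b ^ 4 * PP π Λ z ≤ b ^ 4 * K := by gcongr
      _ ≤ (‖x‖ + ε) ^ 4 * K := by
        have : b ^ 4 ≤ (‖x‖ + ε) ^ 4 := pow_le_pow_left₀ hb0.le hb.le 4
        gcongr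
      _ = _ := by ring
  have h2 : Filter.Tendsto (fun ε : ℝ => K * (‖x‖ + ε) ^ 4) (nhdsWithin 0 (Set.Ioi 0))
      (nhds (K * ‖x‖ ^ 4)) := by
    have : Continuous (fun ε : ℝ => K * (‖x‖ + ε) ^ 4) := by fun_prop
    have h3 := this.tendsto 0
    rw [add_zero] at h3
    exact h3.mono_left nhdsWithin_le_nhds
  exact ge_of_tendsto h2 (Filter.eventually_of_mem self_mem_nhdsWithin fun ε hε => h1 ε hε)

end Pool.Agent.Helper47.PK
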