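import Pool.Agent.Helper47.PK.Family

/-! Project PK, piece PK-27: completeness, separability, the enumeration of the index set. -/

set_option autoImplicit false

namespace Pool.Agent.Helper47.PK

open Finset TopologicalSpace
open scoped ENNReal

variable {Ω V : Type} [Fintype Ω] [Fintype V] [DecidableEq V] {r : ℕ} (π : Fin r → Ω → V)
  (Λ : ℕ)

instance : CompleteSpace (FB π Λ) := FiniteDimensional.complete ℝ _

/-- Piece PK-27a (finite-dimensional). -/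
instance : SeparableSpace (FB π Λ) := by
  have : ProperSpace (FB π Λ) := FiniteDimensional.proper_real _
  have : SecondCountableTopology (FB π Λ) := secondCountable_of_proper
  infer_instance

theorem sep_single_cont (E : ℕ → Type) [∀ b, NormedAddCommGroup (E b)]
    (b : ℕ) : Continuous fun v : E b => lp.single (E := E) 4 b v := by
  have h : Isometry fun v : E b => lp.single (E := E) 4 b v := by
    refine Isometry.of_dist_eq fun v w => ?_
    rw [dist_eq_norm, dist_eq_norm, ← lp.norm_single (E := E) (p := 4) (by norm_num) b (v - w)]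
    congr 1
    ext c
    by_cases hc : c = b
    · subst hc
      simp
    · simp [hc]
  exact h.continuous

/-- Piece PK-27b.  The finite sums `∑_{b < n} single b (v_b)` with `v_b` in a countable dense set of
`E b` are dense (`lp.hasSum_single`). -/
theorem lp_separable (E : ℕ → Type) [∀ b, NormedAddCommGroup (E b)] [∀ b, NormedSpace ℝ (E b)]
    [∀ b, SeparableSpace (E b)] : SeparableSpace (lp E 4) := by
  have h1 : ∀ b, IsSeparable (Set.range fun v : E b => lp.single (E := E) 4 b v) := fun b =>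
    isSeparable_range (sep_single_cont E b)
  have h2 : IsSeparable (⋃ b, Set.range fun v : E b => lp.single (E := E) 4 b v) :=
    IsSeparable.iUnion h1
  have h3 := (h2.span (R := ℝ)).closure
  rw [← isSeparable_univ_iff]
  refine h3.mono fun f _ => ?_
  refine mem_closure_of_tendsto (lp.hasSum_single (by norm_num) f) (Filter.Eventually.of_forall ?_)
  intro s
  refine Submodule.sum_mem _ fun b _ => Submodule.subset_span ?_
  exact Set.mem_iUnion.2 ⟨b, f b, rfl⟩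

/-- Piece PK-27c.  `Ix thr` is countable and infinite (there are infinitely many primes; every
`Fin (N ^ 12)` with `N` prime is nonempty). -/
theorem exists_enum (thr : ℕ → ℕ) : Nonempty (ℕ ≃ Ix thr) := by
  have : Countable (Ix thr) := by
    unfold Ix
    infer_instance
  have : Infinite (Ix thr) := by
    have h : ∀ j, ∃ N, thr j ≤ N ∧ N.Prime := fun j => Nat.exists_infinite_primes _
    choose N hN hp using h
    refine Infinite.of_injective
      (fun j => (⟨j, ⟨N j, hp j, hN j⟩, ⟨0, pow_pos (hp j).pos 12⟩⟩ : Ix thr)) ?_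
    intro i j hij
    exact congrArg Sigma.fst hij
  exact nonempty_equiv_of_countable

/-- Piece PK-27d.  `∑_b N_b^(-14) = ∑_j ∑_{N ≥ thr j, prime} N^12 N^(-14) ≤ ∑_j ∑_{N ≥ 2^j} N^(-2)
≤ ∑_j 2 / 2^j`.  (`ENNReal` sums or `summable_sigma_of_nonneg`.) -/
theorem summable_Ix (thr : ℕ → ℕ) (h : ∀ j, 2 ^ j ≤ thr j) :
    Summable (fun b : Ix thr => (((b.2.1.1 : ℕ) : ℝ) ^ 14)⁻¹) := by
  have h0 : ∀ b : Ix thr, 0 ≤ (((b.2.1.1 : ℕ) : ℝ) ^ 14)⁻¹ := fun b => by positivity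
  -- the sum over the copies
  have hcop : ∀ N : ℕ, 1 ≤ N → ∑' _ : Fin (N ^ 12), ((N : ℝ) ^ 14)⁻¹ = ((N : ℝ) ^ 2)⁻¹ := by
    intro N hN
    have : (N : ℝ) ≠ 0 := by positivity
    rw [tsum_fintype, Finset.sum_const, Finset.card_univ, Fintype.card_fin, nsmul_eq_mul]
    push_cast
    field_simp
  have hsq : Summable fun N : ℕ => ((N : ℝ) ^ 2)⁻¹ := Real.summable_nat_pow_inv.2 (by norm_num)
  have h32 : Summable fun N : ℕ => ((N : ℝ) ^ (3 / 2 : ℝ))⁻¹ :=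
    Real.summable_nat_rpow_inv.2 (by norm_num)
  have hj : ∀ j, Summable (fun c : Σ N : {N : ℕ // N.Prime ∧ thr j ≤ N}, Fin (N.1 ^ 12) =>
      (((c.1.1 : ℕ) : ℝ) ^ 14)⁻¹) := by
    intro j
    refine (summable_sigma_of_nonneg fun c => by positivity).2 ⟨fun N => ?_, ?_⟩
    · exact (hasSum_fintype _).summable
    · have h1 : (fun N : {N : ℕ // N.Prime ∧ thr j ≤ N} =>
          ∑' _ : Fin (N.1 ^ 12), (((N.1 : ℕ) : ℝ) ^ 14)⁻¹) = fun N => (((N.1 : ℕ) : ℝ) ^ 2)⁻¹ := by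
        funext N
        exact hcop N.1 N.2.1.one_lt.le
      show Summable (fun N : {N : ℕ // N.Prime ∧ thr j ≤ N} =>
          ∑' _ : Fin (N.1 ^ 12), (((N.1 : ℕ) : ℝ) ^ 14)⁻¹)
      rw [h1]
      exact hsq.comp_injective Subtype.val_injective
  refine (summable_sigma_of_nonneg (f := fun b : Ix thr => (((b.2.1.1 : ℕ) : ℝ) ^ 14)⁻¹) h0).2
    ⟨fun j => hj j, ?_⟩
  have hq : Summable fun j : ℕ => (∑' N : ℕ, ((N : ℝ) ^ (3 / 2 : ℝ))⁻¹) * ((2 : ℝ) ^ (-(1 / 2) : ℝ)) ^ j := by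
    refine Summable.mul_left _ (summable_geometric_of_lt_one (by positivity) ?_)
    exact Real.rpow_lt_one_of_one_lt_of_neg (by norm_num) (by norm_num)
  refine Summable.of_nonneg_of_le (fun j => tsum_nonneg fun c => by positivity) (fun j => ?_) hq
  show ∑' c : Σ N : {N : ℕ // N.Prime ∧ thr j ≤ N}, Fin (N.1 ^ 12),
      (((c.1.1 : ℕ) : ℝ) ^ 14)⁻¹ ≤ _
  rw [(hj j).tsum_sigma' fun N => (hasSum_fintype _).summable]
  have h1 : (fun N : {N : ℕ // N.Prime ∧ thr j ≤ N} =>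
      ∑' _ : Fin (N.1 ^ 12), (((N.1 : ℕ) : ℝ) ^ 14)⁻¹) = fun N => (((N.1 : ℕ) : ℝ) ^ 2)⁻¹ := by
    funext N
    exact hcop N.1 N.2.1.one_lt.le
  have h2 : ∀ N : {N : ℕ // N.Prime ∧ thr j ≤ N}, (((N.1 : ℕ) : ℝ) ^ 2)⁻¹ ≤
      (((N.1 : ℕ) : ℝ) ^ (3 / 2 : ℝ))⁻¹ * ((2 : ℝ) ^ (-(1 / 2) : ℝ)) ^ j := by
    intro N
    have hN1 : (1 : ℝ) ≤ (N.1 : ℝ) := by exact_mod_cast N.2.1.one_lt.le
    have hN0 : (0 : ℝ) < (N.1 : ℝ) := by linarith
    have hN2 : ((2 : ℝ) ^ j) ≤ (N.1 : ℝ) := by exact_mod_cast (h j).trans N.2.2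
    have e1 : (((N.1 : ℕ) : ℝ) ^ 2)⁻¹ =
        (((N.1 : ℕ) : ℝ) ^ (3 / 2 : ℝ))⁻¹ * ((N.1 : ℝ) ^ (-(1 / 2) : ℝ)) := by
      rw [← Real.rpow_natCast, ← Real.rpow_neg hN0.le, ← Real.rpow_neg hN0.le,
        ← Real.rpow_add hN0]
      norm_num
    rw [e1]
    refine mul_le_mul_of_nonneg_left ?_ (by positivity)
    calc (N.1 : ℝ) ^ (-(1 / 2) : ℝ) ≤ ((2 : ℝ) ^ j) ^ (-(1 / 2) : ℝ) :=
          Real.rpow_le_rpow_of_nonpos (by positivity) hN2 (by norm_num)
      _ = ((2 : ℝ) ^ (-(1 / 2) : ℝ)) ^ j := by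
          rw [← Real.rpow_natCast, ← Real.rpow_natCast, ← Real.rpow_mul (by norm_num),
            ← Real.rpow_mul (by norm_num), mul_comm]
  have hs1 : Summable fun N : {N : ℕ // N.Prime ∧ thr j ≤ N} => (((N.1 : ℕ) : ℝ) ^ 2)⁻¹ :=
    hsq.comp_injective Subtype.val_injective
  have hs2 : Summable fun N : {N : ℕ // N.Prime ∧ thr j ≤ N} =>
      (((N.1 : ℕ) : ℝ) ^ (3 / 2 : ℝ))⁻¹ := h32.comp_injective Subtype.val_injective
  calc ∑' N : {N : ℕ // N.Prime ∧ thr j ≤ N},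
        ∑' _ : Fin (N.1 ^ 12), (((N.1 : ℕ) : ℝ) ^ 14)⁻¹
      = ∑' N : {N : ℕ // N.Prime ∧ thr j ≤ N}, (((N.1 : ℕ) : ℝ) ^ 2)⁻¹ := by rw [h1]
    _ ≤ ∑' N : {N : ℕ // N.Prime ∧ thr j ≤ N},
        (((N.1 : ℕ) : ℝ) ^ (3 / 2 : ℝ))⁻¹ * ((2 : ℝ) ^ (-(1 / 2) : ℝ)) ^ j :=
        hs1.tsum_le_tsum h2 (hs2.mul_right _)
    _ = (∑' N : {N : ℕ // N.Prime ∧ thr j ≤ N}, (((N.1 : ℕ) : ℝ) ^ (3 / 2 : ℝ))⁻¹) *
        ((2 : ℝ) ^ (-(1 / 2) : ℝ)) ^ j := tsum_mul_right
    _ ≤ _ := by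
        refine mul_le_mul_of_nonneg_right ?_ (by positivity)
        exact h32.tsum_subtype_le _ _ fun N => by positivity

/-- Piece PK-27e.  For every `j` and every finite set of indices there is `N₀` such that no index of
type `j` and prime `N ≥ N₀` is in the set. -/
theorem exists_avoid (thr : ℕ → ℕ) (S : Finset (Ix thr)) (j : ℕ) :
    ∃ N₀ : ℕ, ∀ b : Ix thr, b.1 = j → N₀ ≤ b.2.1.1 → b ∉ S := by
  refine ⟨S.sup (fun b => b.2.1.1) + 1, fun b _ hb hS => ?_⟩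
  have h1 : b.2.1.1 ≤ S.sup (fun b : Ix thr => b.2.1.1) :=
    Finset.le_sup (f := fun b : Ix thr => b.2.1.1) hS
  omega

end Pool.Agent.Helper47.PK
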