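import Pool.Agent.Helper47.PK.Moment

/-! Project PK, piece PK-05: the sets `{B y < -η/2}` are small. -/

set_option autoImplicit false
set_option linter.unusedSectionVars false

namespace Pool.Agent.Helper47.PK

open Finset

variable {Ω V : Type} [Fintype Ω] [Fintype V] [DecidableEq V] {r t : ℕ} {π : Fin r → Ω → V}
  {Λ : ℕ}

/-- pointwise splitting -/
lemma ra_split {q : ℕ} (hq1 : 1 ≤ q) {W : ℝ} (hW : 0 < W) (g : ℝ) :
    |g| ≤ W / 2 + (2 / W) ^ (q - 1) * |g| ^ q := by
  rcases le_total |g| (W / 2) with h | h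
  · have : 0 ≤ (2 / W) ^ (q - 1) * |g| ^ q := by positivity
    linarith
  · obtain ⟨k, rfl⟩ : ∃ k, q = k + 1 := ⟨q - 1, by omega⟩
    simp only [Nat.add_sub_cancel]
    have h1 : 1 ≤ (2 / W) * |g| := by
      rw [div_mul_eq_mul_div, le_div_iff₀ hW]
      linarith
    have h2 : 1 ≤ (2 / W) ^ k * |g| ^ k := by
      rw [← mul_pow]
      exact one_le_pow₀ h1
    have h3 : |g| ≤ (2 / W) ^ k * |g| ^ (k + 1) := by
      rw [pow_succ, ← mul_assoc]
      nlinarith [abs_nonneg g]
    linarith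

/-- the main estimate for `y ≥ 0` with positive mean `m`, normalised to mean `1` -/
lemma ra_W_le [Nonempty Ω] (hπ : IsDes t π) {q : ℕ} (hq1 : 1 ≤ q) (hq : 2 * q ≤ t)
    (hV : 0 < Fintype.card V) (Y : Ω → ℝ) (hY : ∀ ω, 0 ≤ Y ω) (hY1 : av Y = 1) {Q : ℝ}
    (_hQ0 : 0 ≤ Q) (hQ : av (fun ω => Y ω ^ 2) ≤ Q ^ 2) {L : ℝ} (hL1 : 1 ≤ L)
    (hLq : 4 ^ q * ((2 * q : ℕ) : ℝ) ^ (2 * q) * Q ^ 2 ≤ L ^ q) :
    ∑ c, (∑ v, (max 0 (1 - cm π c Y v)) ^ 2) / Fintype.card V ≤ L := by
  have hN : (0 : ℝ) < Fintype.card V := by exact_mod_cast hV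
  set P : Fin r → V → ℝ := fun c v => max 0 (1 - cm π c Y v) with hP
  set W : ℝ := ∑ c, (∑ v, P c v ^ 2) / Fintype.card V with hW
  by_contra hcon
  push Not at hcon
  have hW1 : 1 ≤ W := by linarith
  have hW0 : 0 < W := by linarith
  have hP0 : ∀ c v, 0 ≤ P c v := fun c v => le_max_left _ _
  have hP1 : ∀ c v, P c v ≤ 1 := by
    intro c v
    apply max_le zero_le_one
    have := cm_nonneg π c hY v
    linarith
  set mp : Fin r → ℝ := fun c => (∑ v, P c v) / Fintype.card V with hmp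
  have hmp0 : ∀ c, 0 ≤ mp c := fun c => div_nonneg (Finset.sum_nonneg fun v _ => hP0 c v) hN.le
  have hmp1 : ∀ c, mp c ≤ 1 := by
    intro c
    rw [hmp]
    simp only
    rw [div_le_one hN]
    calc ∑ v, P c v ≤ ∑ v : V, (1 : ℝ) := Finset.sum_le_sum fun v _ => hP1 c v
      _ = Fintype.card V := by simp
  set X : Fin r → V → ℝ := fun c v => P c v - mp c with hX
  have hX0 : ∀ c, ∑ v, X c v = 0 := by
    intro c
    simp only [hX, Finset.sum_sub_distrib, Finset.sum_const, Finset.card_univ, nsmul_eq_mul, hmp]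
    field_simp
    ring
  have hX1 : ∀ c v, |X c v| ≤ 1 := by
    intro c v
    rw [abs_le]
    constructor
    · have := hP0 c v
      have := hmp1 c
      simp only [hX]
      linarith
    · have := hP1 c v
      have := hmp0 c
      simp only [hX]
      linarith
  have hXW : ∑ c, (∑ v, X c v ^ 2) / Fintype.card V ≤ W := by
    rw [hW]
    apply Finset.sum_le_sum
    intro c _
    apply div_le_div_of_nonneg_right _ hN.le
    have h1 : ∑ v, X c v ^ 2 = ∑ v, P c v ^ 2 - Fintype.card V * mp c ^ 2 := by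
      have h2 : ∀ v, X c v ^ 2 = P c v ^ 2 - 2 * mp c * P c v + mp c ^ 2 := by
        intro v
        simp only [hX]
        ring
      simp only [h2, Finset.sum_add_distrib, Finset.sum_sub_distrib, ← Finset.mul_sum,
        Finset.sum_const, Finset.card_univ, nsmul_eq_mul]
      have h3 : ∑ v, P c v = Fintype.card V * mp c := by
        simp only [hmp]
        field_simp
      rw [h3]
      ring
    rw [h1]
    have : 0 ≤ (Fintype.card V : ℝ) * mp c ^ 2 := by positivity
    linarith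
  obtain ⟨hM, -⟩ := moment hπ hq1 hq X hX0 hX1 Finset.univ hW1 hXW
  set G : Ω → ℝ := fun ω => ∑ c, X c (π c ω) with hG
  -- the mean of `Y G`
  have hYG : av (fun ω => Y ω * G ω) = -W := by
    have h1 : (fun ω => Y ω * G ω) = fun ω => ∑ c, (P c (π c ω) * Y ω - mp c * Y ω) := by
      funext ω
      simp only [hG, hX, Finset.mul_sum]
      exact Finset.sum_congr rfl fun c _ => by ring
    rw [h1, av_sum, hW, ← Finset.sum_neg_distrib]
    apply Finset.sum_congr rfl
    intro c _
    rw [av_sub, av_comp_mul π hV, av_const_mul, hY1, mul_one]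
    simp only [hmp]
    rw [← sub_div, ← neg_div, ← Finset.sum_sub_distrib, ← Finset.sum_neg_distrib]
    congr 1
    apply Finset.sum_congr rfl
    intro v _
    simp only [hP]
    rcases le_total 0 (1 - cm π c Y v) with h | h
    · rw [max_eq_right h]
      ring
    · rw [max_eq_left h]
      ring
  have hpt : ∀ ω, -(Y ω * G ω) ≤ W / 2 * Y ω + (2 / W) ^ (q - 1) * (Y ω * |G ω| ^ q) := by
    intro ω
    have h1 := ra_split hq1 hW0 (G ω)
    have h2 : -(G ω) ≤ |G ω| := neg_le_abs _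
    have h3 : Y ω * (-(G ω)) ≤ Y ω * (W / 2 + (2 / W) ^ (q - 1) * |G ω| ^ q) :=
      mul_le_mul_of_nonneg_left (h2.trans h1) (hY ω)
    nlinarith
  have hav := av_mono hpt
  rw [av_neg, hYG, av_add, av_const_mul, av_const_mul, hY1] at hav
  -- Cauchy-Schwarz
  have hCS := av_mul_sq_le Y (fun ω => |G ω| ^ q)
  have hG2 : (fun ω => (|G ω| ^ q) ^ 2) = fun ω => (∑ c, X c (π c ω)) ^ (2 * q) := by
    funext ω
    rw [← pow_mul, mul_comm q 2, pow_mul, sq_abs, ← pow_mul]
  rw [hG2] at hCS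
  set E : ℝ := av (fun ω => Y ω * |G ω| ^ q) with hE
  have hE0 : 0 ≤ E := av_nonneg fun ω => mul_nonneg (hY ω) (by positivity)
  have hM0 : 0 ≤ av (fun ω => (∑ c, X c (π c ω)) ^ (2 * q)) := av_nonneg fun ω => by
    rw [pow_mul]
    positivity
  have hE2 : E ^ 2 ≤ Q ^ 2 * (((2 * q : ℕ) : ℝ) ^ (2 * q) * W ^ q) := by
    refine hCS.trans ?_
    exact mul_le_mul hQ hM hM0 (by positivity)
  -- conclusion
  have h4 : W / 2 ≤ (2 / W) ^ (q - 1) * E := by linarith
  obtain ⟨k, hk⟩ : ∃ k, q = k + 1 := ⟨q - 1, by omega⟩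
  have h5 : (W / 2) ^ q ≤ E := by
    have h6 : (W / 2) ^ (q - 1) * (W / 2) ≤ (W / 2) ^ (q - 1) * ((2 / W) ^ (q - 1) * E) :=
      mul_le_mul_of_nonneg_left h4 (by positivity)
    rw [← mul_assoc, ← mul_pow, ← pow_succ] at h6
    have h7 : W / 2 * (2 / W) = 1 := by
      field_simp
    rw [h7, one_pow, one_mul] at h6
    have h8 : q - 1 + 1 = q := by omega
    rwa [h8] at h6
  have h9 : ((W / 2) ^ q) ^ 2 ≤ Q ^ 2 * (((2 * q : ℕ) : ℝ) ^ (2 * q) * W ^ q) :=
    (pow_le_pow_left₀ (by positivity) h5 2).trans hE2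
  have h10 : W ^ q ≤ 4 ^ q * ((2 * q : ℕ) : ℝ) ^ (2 * q) * Q ^ 2 := by
    have hWq : 0 < W ^ q := by positivity
    have h11 : ((W / 2) ^ q) ^ 2 = W ^ q * W ^ q / 4 ^ q := by
      rw [div_pow, div_pow]
      have : ((2 : ℝ) ^ q) ^ 2 = 4 ^ q := by
        rw [← pow_mul, mul_comm, pow_mul]
        norm_num
      rw [this]
      ring
    rw [h11, div_le_iff₀ (by positivity)] at h9
    have h12 : W ^ q * W ^ q ≤ W ^ q * (4 ^ q * ((2 * q : ℕ) : ℝ) ^ (2 * q) * Q ^ 2) := by
      refine h9.trans (le_of_eq ?_)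
      ring
    exact le_of_mul_le_mul_left h12 hWq
  have h13 : W ^ q ≤ L ^ q := h10.trans hLq
  have h14 : L ^ q < W ^ q := pow_lt_pow_left₀ hcon (by linarith) (by omega)
  linarith

/-- Piece PK-05.  Proof.  Write `N = card V`, `C_q = (2q)^(2q)`.  Let `y ≥ 0`, `E y^2 ≤ 1` and
`Z = {i : (B y)(i) < -η/2}`.  It is enough to bound all `P(Z | D)` (cliques `D` of any class `c`, with
`r ≥ 1`; the mean is the average of the conditional means, `sum_cm`).  If `Z` is empty there is
nothing to do.  Otherwise (`neg_le_Bo`) `r^2 (E y) > η/2`, so `m := E y > 0` and `1/m < Q := 2 r^2/η`.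
Put `Y = y/m` (`E Y = 1`, `E Y^2 ≤ Q^2`), `A_c v = cm π c Y v ≥ 0`, `p_c v = max 0 (1 - A_c v) ∈ [0,1]`,
`W = ∑_c (1/N) ∑_v (p_c v)^2`, `X_c v = p_c v - (1/N) ∑_u p_c u` (mean `0`, `|X_c| ≤ 1`,
`∑_c E X_c^2 ≤ W`), `G ω = ∑_c X_c (π c ω)`.

Step 1: `W ≤ L` (`ra_W_le`).
Step 2: `∑_c E p_c ≤ (r ∑_c E p_c^2)^(1/2) ≤ (r L)^(1/2) ≤ Λ/2` by `4 r L ≤ Λ^2`.
Step 3: for `i ∈ Z`, `(B y)(i) < 0` gives `Λ + ∑_c (A_c (π c i) - 1) < 0`, so `∑_c p_c (π c i) > Λ` and
`G i > Λ/2`; for a class `c₀` the sum `G'` over `S = univ.erase c₀` is `> Λ/2 - 1 ≥ Λ/4`.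
Step 4 (Markov on the clique): `P(Z | D) ≤ E[G'^(2q) | D] / (Λ/4)^(2q) ≤ C_q L^q (16/Λ^2)^q`. -/
theorem rare_of [Nonempty Ω] (hπ : IsDes t π) {q : ℕ} (hq1 : 1 ≤ q) (hq : 2 * q ≤ t) (hr : 1 ≤ r)
    (hΛ : 4 ≤ Λ) {L : ℝ} (hL1 : 1 ≤ L) (hL : 4 * (r : ℝ) * L ≤ (Λ : ℝ) ^ 2) {η : ℝ} (hη : 0 < η)
    (hLq : 4 ^ q * ((2 * q : ℕ) : ℝ) ^ (2 * q) * (2 * (r : ℝ) ^ 2 / η) ^ 2 ≤ L ^ q) :
    Rare π Λ η (((2 * q : ℕ) : ℝ) ^ (2 * q) * (16 * L / (Λ : ℝ) ^ 2) ^ q) := by
  classical
  intro y hy hy2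
  have hVn : Nonempty V := ⟨π ⟨0, hr⟩ (Classical.arbitrary Ω)⟩
  have hV : 0 < Fintype.card V := Fintype.card_pos
  have hN : (0 : ℝ) < Fintype.card V := by exact_mod_cast hV
  have hΛR : (4 : ℝ) ≤ Λ := by exact_mod_cast hΛ
  have hrR : (1 : ℝ) ≤ r := by exact_mod_cast hr
  set p : ℝ := ((2 * q : ℕ) : ℝ) ^ (2 * q) * (16 * L / (Λ : ℝ) ^ 2) ^ q with hp
  have hp0 : 0 ≤ p := by positivity
  set Z : Ω → ℝ := fun ω => open Classical in
    if Bo π Λ y ω < -(η / 2) then (1 : ℝ) else 0 with hZ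
  -- it is enough to treat the cliques
  have key : ∀ (c : Fin r) (v : V), cm π c Z v ≤ p := by
    by_cases hempty : ∀ ω, ¬ Bo π Λ y ω < -(η / 2)
    · intro c v
      have : Z = fun _ => 0 := by
        funext ω
        simp only [hZ]
        rw [if_neg (hempty ω)]
      rw [this, cm_zero]
      exact hp0
    · push Not at hempty
      obtain ⟨i₀, hi₀⟩ := hempty
      have hlow := neg_le_Bo π Λ hy i₀
      set m : ℝ := av y with hm
      have hm0 : 0 < m := by
        have h1 : η / 2 < (r : ℝ) ^ 2 * m := by linarith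
        by_contra hcon
        push Not at hcon
        have : (r : ℝ) ^ 2 * m ≤ 0 := mul_nonpos_of_nonneg_of_nonpos (by positivity) hcon
        linarith
      have hmQ : 1 / m ≤ 2 * (r : ℝ) ^ 2 / η := by
        rw [div_le_div_iff₀ hm0 hη]
        linarith
      set Y : Ω → ℝ := fun ω => (1 / m) * y ω with hYdef
      have hY : ∀ ω, 0 ≤ Y ω := fun ω => by
        have := hy ω
        positivity
      have hY1 : av Y = 1 := by
        rw [hYdef, av_const_mul, ← hm]
        field_simp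
      have hY2 : av (fun ω => Y ω ^ 2) ≤ (2 * (r : ℝ) ^ 2 / η) ^ 2 := by
        have : (fun ω => Y ω ^ 2) = fun ω => (1 / m) ^ 2 * y ω ^ 2 := by
          funext ω
          simp only [hYdef]
          ring
        rw [this, av_const_mul]
        calc (1 / m) ^ 2 * av (fun ω => y ω ^ 2) ≤ (1 / m) ^ 2 * 1 :=
              mul_le_mul_of_nonneg_left hy2 (by positivity)
          _ = (1 / m) ^ 2 := mul_one _
          _ ≤ _ := pow_le_pow_left₀ (by positivity) hmQ 2
      have hWL := ra_W_le hπ hq1 hq hV Y hY hY1 (by positivity) hY2 hL1 hLq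
      set P : Fin r → V → ℝ := fun c v => max 0 (1 - cm π c Y v) with hP
      set W : ℝ := ∑ c, (∑ v, P c v ^ 2) / Fintype.card V with hW
      have hP0 : ∀ c v, 0 ≤ P c v := fun c v => le_max_left _ _
      have hP1 : ∀ c v, P c v ≤ 1 := by
        intro c v
        apply max_le zero_le_one
        have := cm_nonneg π c hY v
        linarith
      set mp : Fin r → ℝ := fun c => (∑ v, P c v) / Fintype.card V with hmp
      have hmp0 : ∀ c, 0 ≤ mp c := fun c =>
        div_nonneg (Finset.sum_nonneg fun v _ => hP0 c v) hN.le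
      have hmp1 : ∀ c, mp c ≤ 1 := by
        intro c
        rw [hmp]
        simp only
        rw [div_le_one hN]
        calc ∑ v, P c v ≤ ∑ v : V, (1 : ℝ) := Finset.sum_le_sum fun v _ => hP1 c v
          _ = Fintype.card V := by simp
      set X : Fin r → V → ℝ := fun c v => P c v - mp c with hX
      have hX0 : ∀ c, ∑ v, X c v = 0 := by
        intro c
        simp only [hX, Finset.sum_sub_distrib, Finset.sum_const, Finset.card_univ, nsmul_eq_mul,
          hmp]
        field_simp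
        ring
      have hX1 : ∀ c v, |X c v| ≤ 1 := by
        intro c v
        rw [abs_le]
        constructor
        · have := hP0 c v
          have := hmp1 c
          simp only [hX]
          linarith
        · have := hP1 c v
          have := hmp0 c
          simp only [hX]
          linarith
      have hsq : ∀ c, mp c ^ 2 ≤ (∑ v, P c v ^ 2) / Fintype.card V := by
        intro c
        have h1 := Finset.sum_mul_sq_le_sq_mul_sq Finset.univ (fun _ : V => (1 : ℝ))
          (fun v => P c v)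
        simp only [one_mul, one_pow, Finset.sum_const, Finset.card_univ, nsmul_eq_mul,
          mul_one] at h1
        simp only [hmp]
        rw [div_pow, div_le_div_iff₀ (by positivity) hN]
        nlinarith [mul_le_mul_of_nonneg_right h1 hN.le]
      have hXc : ∀ c, (∑ v, X c v ^ 2) / Fintype.card V ≤
          (∑ v, P c v ^ 2) / Fintype.card V := by
        intro c
        apply div_le_div_of_nonneg_right _ hN.le
        have h2 : ∀ v, X c v ^ 2 = P c v ^ 2 - 2 * mp c * P c v + mp c ^ 2 := by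
          intro v
          simp only [hX]
          ring
        simp only [h2, Finset.sum_add_distrib, Finset.sum_sub_distrib, ← Finset.mul_sum,
          Finset.sum_const, Finset.card_univ, nsmul_eq_mul]
        have h3 : ∑ v, P c v = Fintype.card V * mp c := by
          simp only [hmp]
          field_simp
        rw [h3]
        nlinarith [mul_nonneg hN.le (sq_nonneg (mp c))]
      -- the sum of the means
      have hsum : ∑ c, mp c ≤ Λ / 2 := by
        have h1 := Finset.sum_mul_sq_le_sq_mul_sq Finset.univ (fun _ : Fin r => (1 : ℝ)) mp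
        simp only [one_mul, one_pow, Finset.sum_const, Finset.card_univ, nsmul_eq_mul,
          mul_one, Fintype.card_fin] at h1
        have h2 : ∑ c, mp c ^ 2 ≤ W := Finset.sum_le_sum fun c _ => hsq c
        have h3 : (∑ c, mp c) ^ 2 ≤ (Λ / 2 : ℝ) ^ 2 := by
          have h4 : (r : ℝ) * ∑ c, mp c ^ 2 ≤ r * L :=
            mul_le_mul_of_nonneg_left (h2.trans hWL) (by linarith)
          nlinarith
        exact le_of_sq_le_sq h3 (by positivity)
      -- points of `Z`
      have hpt : ∀ i, Bo π Λ y i < -(η / 2) → (Λ : ℝ) < ∑ c, P c (π c i) := by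
        intro i hi
        have h1 : Bo π Λ Y i < 0 := by
          rw [hYdef, Bo_const_mul]
          apply mul_neg_of_pos_of_neg (by positivity)
          linarith
        unfold Bo at h1
        rw [hY1, mul_one] at h1
        have h2 : (r : ℝ) * (Λ + ∑ c, (cm π c Y (π c i) - 1)) < 0 := by linarith
        have h3 : (Λ : ℝ) + ∑ c, (cm π c Y (π c i) - 1) < 0 := by
          by_contra hcon
          push Not at hcon
          have : 0 ≤ (r : ℝ) * (Λ + ∑ c, (cm π c Y (π c i) - 1)) := by positivity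
          linarith
        have h4 : ∑ c, (1 - cm π c Y (π c i)) ≤ ∑ c, P c (π c i) :=
          Finset.sum_le_sum fun c _ => le_max_right _ _
        have h5 : ∑ c, (1 - cm π c Y (π c i)) = -∑ c, (cm π c Y (π c i) - 1) := by
          rw [← Finset.sum_neg_distrib]
          exact Finset.sum_congr rfl fun c _ => by ring
        linarith
      intro c₀ v₀
      have hpt' : ∀ i, Bo π Λ y i < -(η / 2) →
          (Λ : ℝ) / 4 ≤ ∑ c ∈ Finset.univ.erase c₀, X c (π c i) := by
        intro i hi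
        have h1 := hpt i hi
        have h2 : ∑ c, X c (π c i) = ∑ c, P c (π c i) - ∑ c, mp c := by
          simp only [hX, Finset.sum_sub_distrib]
        have h3 := Finset.add_sum_erase Finset.univ (fun c => X c (π c i)) (Finset.mem_univ c₀)
        have h4 := (abs_le.1 (hX1 c₀ (π c₀ i))).2
        linarith
      have hXL : ∑ c ∈ Finset.univ.erase c₀, (∑ v, X c v ^ 2) / Fintype.card V ≤ L := by
        calc ∑ c ∈ Finset.univ.erase c₀, (∑ v, X c v ^ 2) / Fintype.card V ≤
            ∑ c, (∑ v, X c v ^ 2) / Fintype.card V := by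
              apply Finset.sum_le_sum_of_subset_of_nonneg (Finset.erase_subset _ _)
              intro c _ _
              positivity
          _ ≤ W := Finset.sum_le_sum fun c _ => hXc c
          _ ≤ L := hWL
      obtain ⟨-, hM⟩ := moment hπ hq1 hq X hX0 hX1 (Finset.univ.erase c₀) hL1 hXL
      have hM' := hM c₀ (Finset.notMem_erase _ _) v₀
      -- Markov
      have hpos : (0 : ℝ) < (Λ / 4 : ℝ) ^ (2 * q) := by positivity
      have h1 : ∀ ω, (Λ / 4 : ℝ) ^ (2 * q) * Z ω ≤
          (∑ c ∈ Finset.univ.erase c₀, X c (π c ω)) ^ (2 * q) := by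
        intro ω
        simp only [hZ]
        split_ifs with h
        · rw [mul_one]
          exact pow_le_pow_left₀ (by positivity) (hpt' ω h) _
        · rw [mul_zero, pow_mul]
          positivity
      have h2 := cm_mono π c₀ h1 v₀
      rw [cm_const_mul] at h2
      have h3 : (Λ / 4 : ℝ) ^ (2 * q) * cm π c₀ Z v₀ ≤
          ((2 * q : ℕ) : ℝ) ^ (2 * q) * L ^ q := h2.trans hM'
      have h4 : (Λ / 4 : ℝ) ^ (2 * q) * p = ((2 * q : ℕ) : ℝ) ^ (2 * q) * L ^ q := by
        rw [hp, pow_mul (Λ / 4 : ℝ) 2 q]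
        have : (((Λ : ℝ) / 4) ^ 2) ^ q * (16 * L / (Λ : ℝ) ^ 2) ^ q = L ^ q := by
          rw [← mul_pow]
          congr 1
          have : (Λ : ℝ) ≠ 0 := by positivity
          field_simp
          ring
        calc (((Λ : ℝ) / 4) ^ 2) ^ q * (((2 * q : ℕ) : ℝ) ^ (2 * q) *
              (16 * L / (Λ : ℝ) ^ 2) ^ q) = ((2 * q : ℕ) : ℝ) ^ (2 * q) *
                ((((Λ : ℝ) / 4) ^ 2) ^ q * (16 * L / (Λ : ℝ) ^ 2) ^ q) := by ring
          _ = _ := by rw [this]
      rw [← h4] at h3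
      exact le_of_mul_le_mul_left h3 hpos
  refine ⟨?_, key⟩
  have h1 := sum_cm π ⟨0, hr⟩ Z
  have h2 : ∑ v, cm π ⟨0, hr⟩ Z v ≤ ∑ _v : V, p := Finset.sum_le_sum fun v _ => key _ v
  rw [h1, Finset.sum_const, Finset.card_univ, nsmul_eq_mul] at h2
  exact le_of_mul_le_mul_left h2 hN

end Pool.Agent.Helper47.PK
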