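import Pool.Agent.Helper47.PK.Family

/-! Project PK, piece PK-13: numerics of the thresholds.  `Λ = N / (4 (j + 1))` (natural division),
`r = (j + 1) Λ`, `q = 20 j + 60`, `t = 2 q`, `η = N^(-7)`, `L = sqrt N`. -/

set_option autoImplicit false

namespace Pool.Agent.Helper47.PK

/-- `p = C_q (16 L / Λ^2)^q` -/
noncomputable def pn (j N : ℕ) : ℝ :=
  ((2 * qj j : ℕ) : ℝ) ^ (2 * qj j) * (16 * Real.sqrt N / (Lm j N : ℝ) ^ 2) ^ (qj j)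

theorem thrNum_base (j N : ℕ) (h : 8 * (j + 1) ≤ N) :
    4 * rj j N ≤ N ∧ N < 8 * rj j N ∧ Lm j N ≤ rj j N := by
  have h1 : 4 * (j + 1) * Lm j N + N % (4 * (j + 1)) = N := Nat.div_add_mod N (4 * (j + 1))
  have h2 : N % (4 * (j + 1)) < 4 * (j + 1) := Nat.mod_lt _ (by omega)
  have h3 : 4 * (j + 1) * Lm j N = 4 * rj j N := by unfold rj; ring
  refine ⟨by omega, by omega, ?_⟩
  unfold rj
  exact Nat.le_mul_of_pos_left _ (by omega)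

attribute [local irreducible] qj tj Lm rj

theorem thrNum_p (j N : ℕ) (h : 8 * (j + 1) ≤ N) :
    0 ≤ pn j N ∧ pn j N ≤ (((2 * qj j) ^ (2 * qj j) * (1024 * (j + 1) ^ 2) ^ (qj j) : ℕ) : ℝ) /
      (N : ℝ) ^ (30 * j + 90) := by
  obtain ⟨h1, h2, h3⟩ := thrNum_base j N h
  have hN : (0 : ℝ) < N := by
    have : 0 < N := by omega
    exact_mod_cast this
  have hj : (0 : ℝ) < (j : ℝ) + 1 := by positivity
  have hr : (N : ℝ) ≤ 8 * (((j : ℝ) + 1) * Lm j N) := by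
    have : (N : ℝ) ≤ 8 * (rj j N : ℝ) := by exact_mod_cast h2.le
    simpa [rj] using this
  have hL : (N : ℝ) / (8 * ((j : ℝ) + 1)) ≤ Lm j N := by
    rw [div_le_iff₀ (by positivity)]
    linarith
  have hL0 : (0 : ℝ) < (N : ℝ) / (8 * ((j : ℝ) + 1)) := by positivity
  have hs0 : 0 ≤ Real.sqrt N := Real.sqrt_nonneg _
  have h4 : 16 * Real.sqrt N / (Lm j N : ℝ) ^ 2 ≤
      (1024 * ((j : ℝ) + 1) ^ 2) * (Real.sqrt N / (N : ℝ) ^ 2) := by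
    calc 16 * Real.sqrt N / (Lm j N : ℝ) ^ 2
        ≤ 16 * Real.sqrt N / ((N : ℝ) / (8 * ((j : ℝ) + 1))) ^ 2 := by
          apply div_le_div_of_nonneg_left (by positivity) (by positivity)
          exact pow_le_pow_left₀ hL0.le hL 2
      _ = _ := by field_simp; ring
  have h5 : (Real.sqrt N / (N : ℝ) ^ 2) ^ (qj j) = 1 / (N : ℝ) ^ (30 * j + 90) := by
    have e1 : qj j = 2 * (10 * j + 30) := by unfold qj; ring
    have e2 : 30 * j + 90 = 3 * (10 * j + 30) := by ring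
    rw [e1, e2, pow_mul, pow_mul, div_pow, Real.sq_sqrt hN.le, ← one_div_pow]
    congr 1
    field_simp
  constructor
  · unfold pn
    exact mul_nonneg (pow_nonneg (Nat.cast_nonneg _) _) (pow_nonneg (div_nonneg (mul_nonneg (by norm_num) (Real.sqrt_nonneg _)) (sq_nonneg _)) _)
  · unfold pn
    calc ((2 * qj j : ℕ) : ℝ) ^ (2 * qj j) * (16 * Real.sqrt N / (Lm j N : ℝ) ^ 2) ^ (qj j)
        ≤ ((2 * qj j : ℕ) : ℝ) ^ (2 * qj j) *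
          ((1024 * ((j : ℝ) + 1) ^ 2) * (Real.sqrt N / (N : ℝ) ^ 2)) ^ (qj j) := by
          apply mul_le_mul_of_nonneg_left _ (pow_nonneg (Nat.cast_nonneg _) _)
          exact pow_le_pow_left₀ (div_nonneg (mul_nonneg (by norm_num) (Real.sqrt_nonneg _))
            (sq_nonneg _)) h4 _
      _ = _ := by
          rw [mul_pow, h5]
          push_cast
          ring

/-- all the real estimates used below -/
theorem thrNum_all (j N : ℕ) (h : 16 * (j + 1) ≤ N)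
    (hC : (2 * qj j) ^ (2 * qj j) * (1024 * (j + 1) ^ 2) ^ (qj j) ≤ N) :
    (2 : ℝ) ≤ N ∧ 4 * (rj j N : ℝ) ≤ N ∧ (N : ℝ) ≤ 8 * rj j N ∧ (Lm j N : ℝ) ≤ rj j N ∧
      pn j N ≤ 1 / (N : ℝ) ^ 89 := by
  obtain ⟨h1, h2, h3⟩ := thrNum_base j N (by omega)
  obtain ⟨p0, p1⟩ := thrNum_p j N (by omega)
  have hN : (2 : ℝ) ≤ N := by
    have : 2 ≤ N := by omega
    exact_mod_cast this
  refine ⟨hN, by exact_mod_cast h1, by exact_mod_cast h2.le, by exact_mod_cast h3, ?_⟩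
  refine p1.trans ?_
  have hC' : (((2 * qj j) ^ (2 * qj j) * (1024 * (j + 1) ^ 2) ^ (qj j) : ℕ) : ℝ) ≤ N := by
    exact_mod_cast hC
  have hpw : (N : ℝ) ^ 90 ≤ (N : ℝ) ^ (30 * j + 90) :=
    pow_le_pow_right₀ (by linarith) (by omega)
  have hN0 : (0 : ℝ) < N := by linarith
  calc _ ≤ (N : ℝ) / (N : ℝ) ^ 90 :=
        div_le_div₀ hN0.le hC' (by positivity) hpw
    _ = _ := by field_simp

/-- Piece PK-13a.  For fixed `j` and all large `N`: `N / (8 (j+1)) ≤ Λ ≤ N / (4 (j+1))`, `r ≤ N / 4`,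
`r Λ ≤ N^2 / 16`; everything follows from `p ≤ C N^(-3q/2)` and powers of `N`. -/
theorem num_good (j : ℕ) : ∃ N₀ : ℕ, ∀ N : ℕ, N₀ ≤ N →
    2 ≤ N ∧ 4 ≤ Lm j N ∧ 1 ≤ rj j N ∧ rj j N ≤ N ∧ (1 : ℝ) ≤ Real.sqrt N ∧
    4 * (rj j N : ℝ) * Real.sqrt N ≤ (Lm j N : ℝ) ^ 2 ∧
    4 ^ (qj j) * ((2 * qj j : ℕ) : ℝ) ^ (2 * qj j) * (2 * (rj j N : ℝ) ^ 2 / ej N) ^ 2 ≤
      (Real.sqrt N) ^ (qj j) ∧
    ej N ≤ 1 / 8 ∧
    ((rj j N : ℝ) * Lm j N + (rj j N : ℝ) ^ 2) * pn j N ≤ 1 ∧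
    ((rj j N : ℝ) * Lm j N + (rj j N : ℝ) ^ 2) * Real.sqrt (N * pn j N) ≤ ej N := by
  refine ⟨16 * (j + 1) + (2 * qj j) ^ (2 * qj j) * (1024 * (j + 1) ^ 2) ^ (qj j) +
    4 ^ (qj j) * (2 * qj j) ^ (2 * qj j) + (64 * (j + 1) ^ 2) ^ 2, ?_⟩
  intro N hN
  have a1 : 16 * (j + 1) ≤ N := by omega
  have a2 : (2 * qj j) ^ (2 * qj j) * (1024 * (j + 1) ^ 2) ^ (qj j) ≤ N := by omega
  have a3 : 4 ^ (qj j) * (2 * qj j) ^ (2 * qj j) ≤ N := by omega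
  have a4 : (64 * (j + 1) ^ 2) ^ 2 ≤ N := by omega
  obtain ⟨b1, b2, b3, b4, b5⟩ := thrNum_all j N a1 a2
  obtain ⟨c1, c2, c3⟩ := thrNum_base j N (by omega)
  obtain ⟨p0, -⟩ := thrNum_p j N (by omega)
  have hN0 : (0 : ℝ) < N := by linarith
  have hN1 : (1 : ℝ) ≤ N := by linarith
  have hr0 : (0 : ℝ) ≤ rj j N := Nat.cast_nonneg _
  have hL0 : (0 : ℝ) ≤ Lm j N := Nat.cast_nonneg _
  have hLr : (rj j N : ℝ) * Lm j N + (rj j N : ℝ) ^ 2 ≤ (N : ℝ) ^ 2 := by nlinarith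
  have hLr0 : 0 ≤ (rj j N : ℝ) * Lm j N + (rj j N : ℝ) ^ 2 := by positivity
  have hsq : Real.sqrt N ^ 2 = N := Real.sq_sqrt hN0.le
  have hs0 : 0 ≤ Real.sqrt N := Real.sqrt_nonneg _
  have hej : ej N = ((N : ℝ) ^ 7)⁻¹ := rfl
  refine ⟨by omega, ?_, by omega, by omega, ?_, ?_, ?_, ?_, ?_, ?_⟩
  · unfold Lm
    rw [Nat.le_div_iff_mul_le (by omega)]
    omega
  · rw [Real.one_le_sqrt]; exact hN1
  · have hj : (0 : ℝ) < (j : ℝ) + 1 := by positivity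
    have d1 : 64 * ((j : ℝ) + 1) ^ 2 ≤ Real.sqrt N := by
      apply Real.le_sqrt_of_sq_le
      exact_mod_cast a4
    have d2 : (N : ℝ) ≤ 8 * (((j : ℝ) + 1) * Lm j N) := by
      have : (N : ℝ) ≤ 8 * (rj j N : ℝ) := b3
      simpa [rj] using this
    -- 4 r s ≤ N s, N^2 ≤ 64 (j+1)^2 Λ^2 ≤ s Λ^2
    have d3 : (N : ℝ) ^ 2 ≤ Real.sqrt N * (Lm j N : ℝ) ^ 2 := by
      calc (N : ℝ) ^ 2 ≤ (8 * (((j : ℝ) + 1) * Lm j N)) ^ 2 := pow_le_pow_left₀ hN0.le d2 2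
        _ = 64 * ((j : ℝ) + 1) ^ 2 * (Lm j N : ℝ) ^ 2 := by ring
        _ ≤ _ := mul_le_mul_of_nonneg_right d1 (by positivity)
    have d4 : (N : ℝ) * Real.sqrt N * Real.sqrt N ≤ (Lm j N : ℝ) ^ 2 * Real.sqrt N := by
      calc (N : ℝ) * Real.sqrt N * Real.sqrt N = (N : ℝ) * Real.sqrt N ^ 2 := by ring
        _ = (N : ℝ) ^ 2 := by rw [hsq]; ring
        _ ≤ _ := by rw [mul_comm]; exact d3
    have hs1 : 0 < Real.sqrt N := Real.sqrt_pos.2 hN0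
    have d5 := le_of_mul_le_mul_right d4 hs1
    refine le_trans ?_ d5
    exact mul_le_mul_of_nonneg_right b2 hs0
  · have e1 : qj j = 2 * (10 * j + 30) := by unfold qj; ring
    have e2 : (Real.sqrt N) ^ (qj j) = (N : ℝ) ^ (10 * j + 30) := by
      conv_lhs => rw [e1]
      rw [pow_mul, hsq]
    rw [e2]
    have d1 : (4 : ℝ) ^ (qj j) * ((2 * qj j : ℕ) : ℝ) ^ (2 * qj j) ≤ N := by
      exact_mod_cast a3
    have d2 : 2 * (rj j N : ℝ) ^ 2 / ej N ≤ (N : ℝ) ^ 9 := by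
      rw [hej, div_inv_eq_mul]
      have : 2 * (rj j N : ℝ) ^ 2 ≤ (N : ℝ) ^ 2 := by nlinarith
      calc 2 * (rj j N : ℝ) ^ 2 * (N : ℝ) ^ 7 ≤ (N : ℝ) ^ 2 * (N : ℝ) ^ 7 :=
            mul_le_mul_of_nonneg_right this (by positivity)
        _ = _ := by ring
    have d3 : 0 ≤ 2 * (rj j N : ℝ) ^ 2 / ej N := by rw [hej]; positivity
    calc _ ≤ (N : ℝ) * ((N : ℝ) ^ 9) ^ 2 :=
          mul_le_mul d1 (pow_le_pow_left₀ d3 d2 2) (by positivity) hN0.le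
      _ = (N : ℝ) ^ 19 := by ring
      _ ≤ _ := pow_le_pow_right₀ hN1 (by omega)
  · rw [hej]
    have d1 : (8 : ℝ) ≤ (N : ℝ) ^ 7 := by
      calc (8 : ℝ) ≤ 2 ^ 7 := by norm_num
        _ ≤ _ := pow_le_pow_left₀ (by norm_num) b1 7
    rw [one_div]
    exact inv_anti₀ (by norm_num) d1
  · calc _ ≤ (N : ℝ) ^ 2 * (1 / (N : ℝ) ^ 89) := mul_le_mul hLr b5 p0 (by positivity)
      _ = 1 / (N : ℝ) ^ 87 := by field_simp
      _ ≤ 1 := by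
        rw [div_le_one (by positivity)]
        exact one_le_pow₀ hN1
  · have d1 : Real.sqrt (N * pn j N) ≤ 1 / (N : ℝ) ^ 44 := by
      rw [Real.sqrt_le_left (by positivity)]
      calc (N : ℝ) * pn j N ≤ N * (1 / (N : ℝ) ^ 89) := mul_le_mul_of_nonneg_left b5 hN0.le
        _ = _ := by field_simp
    calc _ ≤ (N : ℝ) ^ 2 * (1 / (N : ℝ) ^ 44) :=
          mul_le_mul hLr d1 (Real.sqrt_nonneg _) (by positivity)
      _ = ((N : ℝ) ^ 42)⁻¹ := by field_simp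
      _ ≤ _ := by
        rw [hej]
        exact inv_anti₀ (by positivity) (pow_le_pow_right₀ hN1 (by norm_num))

/-- Piece PK-13b.  `p n^(1/2) ≤ C N^(-q/2 + 1/2)` with `n = N^(2q+1)`, and
`S / η ≤ N^10` with `S = (r Λ + 2 r^2) N^(1/2)`, `i + 1 ≤ j + 1`: the exponent is at most
`-(10 j + 30) + 1/2 + 10 (j + 1) < -14 - 1`. -/
theorem num_der (j : ℕ) (C : ℝ) : ∃ N₀ : ℕ, ∀ N : ℕ, N₀ ≤ N → ∀ i ≤ j,
    C * pn j N * Real.sqrt ((N : ℝ) ^ (tj j + 1)) *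
      ((((rj j N : ℝ) * Lm j N + 2 * (rj j N : ℝ) ^ 2) * Real.sqrt N) / ej N) ^ (i + 1) ≤
      ((N : ℝ) ^ 14)⁻¹ := by
  obtain ⟨C1, hC1⟩ : ∃ C1 : ℕ, C1 = (2 * qj j) ^ (2 * qj j) * (1024 * (j + 1) ^ 2) ^ (qj j) :=
    ⟨_, rfl⟩
  refine ⟨16 * (j + 1) + C1 + ⌈|C| * C1⌉₊, ?_⟩
  intro N hN i hi
  have a1 : 16 * (j + 1) ≤ N := by omega
  have a2 : C1 ≤ N := by omega
  have a3 : |C| * C1 ≤ N := by
    have h1 : |C| * C1 ≤ ⌈|C| * C1⌉₊ := Nat.le_ceil _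
    have h2 : ⌈|C| * C1⌉₊ ≤ N := by omega
    have h3 : ((⌈|C| * C1⌉₊ : ℕ) : ℝ) ≤ N := by exact_mod_cast h2
    linarith
  obtain ⟨b1, b2, b3, b4, -⟩ := thrNum_all j N a1 (hC1 ▸ a2)
  obtain ⟨p0, p1⟩ := thrNum_p j N (by omega)
  rw [← hC1] at p1
  have hN0 : (0 : ℝ) < N := by linarith
  have hN1 : (1 : ℝ) ≤ N := by linarith
  have hr0 : (0 : ℝ) ≤ rj j N := Nat.cast_nonneg _
  have hL0 : (0 : ℝ) ≤ Lm j N := Nat.cast_nonneg _
  have hLr : (rj j N : ℝ) * Lm j N + 2 * (rj j N : ℝ) ^ 2 ≤ (N : ℝ) ^ 2 := by nlinarith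
  have hLr0 : 0 ≤ (rj j N : ℝ) * Lm j N + 2 * (rj j N : ℝ) ^ 2 := by positivity
  have hs0 : 0 ≤ Real.sqrt N := Real.sqrt_nonneg _
  have hs1 : Real.sqrt N ≤ N := by
    rw [Real.sqrt_le_left hN0.le]
    nlinarith
  have hej : ej N = ((N : ℝ) ^ 7)⁻¹ := rfl
  set S : ℝ := (((rj j N : ℝ) * Lm j N + 2 * (rj j N : ℝ) ^ 2) * Real.sqrt N) / ej N with hS
  have hS0 : 0 ≤ S := by rw [hS, hej]; positivity
  have hS1 : S ≤ (N : ℝ) ^ 10 := by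
    rw [hS, hej, div_inv_eq_mul]
    calc _ ≤ ((N : ℝ) ^ 2 * N) * (N : ℝ) ^ 7 :=
          mul_le_mul_of_nonneg_right (mul_le_mul hLr hs1 hs0 (by positivity)) (by positivity)
      _ = _ := by ring
  have hSp : S ^ (i + 1) ≤ (N : ℝ) ^ (10 * j + 10) := by
    calc S ^ (i + 1) ≤ ((N : ℝ) ^ 10) ^ (i + 1) := pow_le_pow_left₀ hS0 hS1 _
      _ = (N : ℝ) ^ (10 * (i + 1)) := by rw [← pow_mul]
      _ ≤ _ := pow_le_pow_right₀ hN1 (by omega)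
  have hsn : Real.sqrt ((N : ℝ) ^ (tj j + 1)) ≤ (N : ℝ) ^ (20 * j + 61) := by
    rw [Real.sqrt_le_left (by positivity), ← pow_mul]
    apply pow_le_pow_right₀ hN1
    unfold tj qj
    omega
  have hCp : C * pn j N ≤ (N : ℝ) / (N : ℝ) ^ (30 * j + 90) := by
    calc C * pn j N ≤ |C| * pn j N := mul_le_mul_of_nonneg_right (le_abs_self C) p0
      _ ≤ |C| * ((C1 : ℝ) / (N : ℝ) ^ (30 * j + 90)) :=
          mul_le_mul_of_nonneg_left p1 (abs_nonneg C)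
      _ = (|C| * C1) / (N : ℝ) ^ (30 * j + 90) := by ring
      _ ≤ _ := div_le_div_of_nonneg_right a3 (by positivity)
  have hR0 : 0 ≤ (N : ℝ) / (N : ℝ) ^ (30 * j + 90) := by positivity
  calc _ ≤ (N : ℝ) / (N : ℝ) ^ (30 * j + 90) * (N : ℝ) ^ (20 * j + 61) *
        (N : ℝ) ^ (10 * j + 10) :=
        mul_le_mul (mul_le_mul hCp hsn (Real.sqrt_nonneg _) hR0) hSp (by positivity)
          (by positivity)
    _ = ((N : ℝ) ^ 18)⁻¹ := by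
        have e1 : (N : ℝ) ^ (30 * j + 90) =
          (N : ℝ) ^ (20 * j + 61) * (N : ℝ) ^ (10 * j + 10) * (N : ℝ) ^ 18 * N := by
          rw [← pow_add, ← pow_add, ← pow_succ]
          congr 1
          ring
        rw [e1]
        field_simp
    _ ≤ _ := inv_anti₀ (by positivity) (pow_le_pow_right₀ hN1 (by norm_num))

/-- Piece PK-13c.  Sizes needed for the special values of `P` and for the non-smoothness proof. -/
theorem num_sizes (j : ℕ) : ∃ N₀ : ℕ, ∀ N : ℕ, N₀ ≤ N →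
    2 ≤ N ∧ 1 ≤ Lm j N ∧ 1 ≤ rj j N ∧ rj j N ≤ N ∧ N ≤ 8 * rj j N ∧
    (rj j N : ℝ) * Lm j N + (rj j N : ℝ) ^ 2 * N ≤ (N : ℝ) ^ (tj j + 1) ∧
    (rj j N : ℝ) * Lm j N + 2 * (rj j N : ℝ) * N ≤ (N : ℝ) ^ 2 := by
  refine ⟨16 * (j + 1), ?_⟩
  intro N hN
  obtain ⟨c1, c2, c3⟩ := thrNum_base j N (by omega)
  have b1 : (2 : ℝ) ≤ N := by
    have : 2 ≤ N := by omega
    exact_mod_cast this
  have b2 : 4 * (rj j N : ℝ) ≤ N := by exact_mod_cast c1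
  have b4 : (Lm j N : ℝ) ≤ rj j N := by exact_mod_cast c3
  have hr0 : (0 : ℝ) ≤ rj j N := Nat.cast_nonneg _
  have hL0 : (0 : ℝ) ≤ Lm j N := Nat.cast_nonneg _
  have hN0 : (0 : ℝ) < N := by linarith
  have hN1 : (1 : ℝ) ≤ N := by linarith
  have hrL : (rj j N : ℝ) * Lm j N ≤ (N : ℝ) ^ 2 / 4 := by nlinarith
  have hrr : (rj j N : ℝ) ^ 2 ≤ (N : ℝ) ^ 2 / 4 := by nlinarith
  refine ⟨by omega, ?_, by omega, by omega, by omega, ?_, ?_⟩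
  · unfold Lm
    rw [Nat.le_div_iff_mul_le (by omega)]
    omega
  · calc (rj j N : ℝ) * Lm j N + (rj j N : ℝ) ^ 2 * N
        ≤ (N : ℝ) ^ 2 / 4 + (N : ℝ) ^ 2 / 4 * N :=
          add_le_add hrL (mul_le_mul_of_nonneg_right hrr hN0.le)
      _ ≤ (N : ℝ) ^ 3 := by nlinarith [sq_nonneg (N : ℝ), mul_nonneg (sq_nonneg (N : ℝ)) hN0.le]
      _ ≤ _ := by
        apply pow_le_pow_right₀ hN1
        unfold tj qj
        omega
  · nlinarith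

end Pool.Agent.Helper47.PK
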