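import Pool.Agent.Helper47.PK.Family
import Pool.Agent.Helper47.PK.Design
import Pool.Agent.Helper47.PK.RareSet
import Pool.Agent.Helper47.PK.DerBound
import Pool.Agent.Helper47.PK.ThrNum

/-! Project PK: existence of the thresholds. -/

set_option autoImplicit false

namespace Pool.Agent.Helper47.PK

open Finset

theorem pj_isDes {j N : ℕ} (hN : N.Prime) (hr : rj j N ≤ N) : IsDes (tj j) (pj j N) :=
  rs_isDes hN hr

theorem good_block {j N : ℕ} (hN : N.Prime) (h : 2 ≤ N ∧ 4 ≤ Lm j N ∧ 1 ≤ rj j N ∧ rj j N ≤ N ∧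
    (1 : ℝ) ≤ Real.sqrt N ∧
    4 * (rj j N : ℝ) * Real.sqrt N ≤ (Lm j N : ℝ) ^ 2 ∧
    4 ^ (qj j) * ((2 * qj j : ℕ) : ℝ) ^ (2 * qj j) * (2 * (rj j N : ℝ) ^ 2 / ej N) ^ 2 ≤
      (Real.sqrt N) ^ (qj j) ∧
    ej N ≤ 1 / 8 ∧
    ((rj j N : ℝ) * Lm j N + (rj j N : ℝ) ^ 2) * pn j N ≤ 1 ∧
    ((rj j N : ℝ) * Lm j N + (rj j N : ℝ) ^ 2) * Real.sqrt (N * pn j N) ≤ ej N) :
    Good (pj j N) (Lm j N) (ej N) (pn j N) := by
  obtain ⟨h2, hΛ, hr1, hr2, hL1, hL, hLq, he, g1, g2⟩ := h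
  have hN0 : (0 : ℝ) < N := by exact_mod_cast hN.pos
  have : Nonempty (Fin (tj j + 1) → Fin N) := ⟨fun _ => ⟨0, hN.pos⟩⟩
  have he0 : 0 < ej N := by unfold ej; positivity
  refine ⟨he0, he, ?_, ?_, g1, ?_⟩
  · unfold pn
    exact mul_nonneg (pow_nonneg (Nat.cast_nonneg _) _) (pow_nonneg (by positivity) _)
  · exact rare_of (pj_isDes hN hr2) (q := qj j) (by unfold qj; omega) (by unfold tj; exact le_rfl) hr1
      hΛ hL1 hL he0 hLq
  · rw [Fintype.card_fin]; exact g2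

theorem exists_thr : ∃ thr : ℕ → ℕ, Thr thr := by
  choose C hC0 hC using RR_bound
  choose n1 hn1 using num_good
  choose n2 hn2 using fun j => num_der j (C j)
  refine ⟨fun j => 2 ^ j + n1 j + n2 j, ⟨fun j => by omega, ?_, ?_⟩⟩
  · intro j N hN hp
    have h2j := Nat.two_pow_pos j
    exact ⟨pn j N, good_block hp (hn1 j N (by omega))⟩
  · intro j N hN hp i hi x
    have h2j := Nat.two_pow_pos j
    have hg := good_block hp (hn1 j N (by omega))
    obtain ⟨h2, hΛ, hr1, hr2, -⟩ := hn1 j N (by omega)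
    have : Nonempty (Fin (tj j + 1) → Fin N) := ⟨fun _ => ⟨0, hp.pos⟩⟩
    have hcm : ∀ (c : Fin (rj j N)) (v : Fin N), cm (pj j N) c (fun _ => 1) v ≤ 1 := fun c v =>
      (cm_comp_self (pj_isDes hp hr2) c (fun _ => 1) v).le
    have h := hC j (Fin (tj j + 1) → Fin N) (Fin N) (rj j N) (pj j N) (Lm j N) (ej N) (pn j N)
      hg.eta_pos (hg.eta_le.trans (by norm_num)) hg.p_nonneg hg.rare hr1 hcm i hi x
    refine h.trans ?_
    have h3 := hn2 j N (by omega) i hi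
    simp only [Fintype.card_pi, Fintype.card_fin, Finset.prod_const, Finset.card_univ]
    push_cast
    exact h3

end Pool.Agent.Helper47.PK
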