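import Pool.Agent.Helper47.PK.Block
import Pool.Agent.Helper47.PK.ThrMain
import Pool.Agent.Helper47.PK.Sep

/-! Project PK: the hypotheses of the non-smoothness theorem hold for the family of blocks. -/

set_option autoImplicit false

namespace Pool.Agent.Helper47.PK

open Finset
open scoped ENNReal

theorem block_nonempty {thr : ℕ → ℕ} (h : Thr thr) (j N : ℕ) (hs : 2 ≤ N ∧ 1 ≤ Lm j N ∧
    1 ≤ rj j N ∧ rj j N ≤ N ∧ N ≤ 8 * rj j N ∧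
    (rj j N : ℝ) * Lm j N + (rj j N : ℝ) ^ 2 * N ≤ (N : ℝ) ^ (tj j + 1) ∧
    (rj j N : ℝ) * Lm j N + 2 * (rj j N : ℝ) * N ≤ (N : ℝ) ^ 2) :
    ∀ y : Ix thr, y.1 = j → y.2.1.1 = N →
      Nonempty (Pool.Agent.Helper23.PZ.BlockData (Eb thr y) N ((j + 1) * Lm j N) (Lm j N) (tj j)) := by
  rintro ⟨j', ⟨N', hN'⟩, k⟩ rfl rfl
  simp only at hs ⊢
  obtain ⟨h2, hΛ, hr1, hr2, -, g1, g2⟩ := hs
  obtain ⟨p, hp⟩ := h.good j' N' hN'.2 hN'.1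
  exact ⟨blockData h2 (pj_isDes hN'.1 hr2) (by unfold tj qj; omega) hp (Fintype.card_fin _)
    (by simp) hΛ g1 g2⟩

theorem no_smooth_hyp {thr : ℕ → ℕ} (h : Thr thr) (e : ℕ ≃ Ix thr) :
    ∀ A0 : ℕ, ∃ A ≥ A0, ∃ t : ℕ, ∀ p0 b0 : ℕ, ∃ p ≥ p0, ∃ Λ : ℕ, A * Λ ≤ p ∧ p ≤ 8 * A * Λ ∧
      ∃ B : Finset ℕ, p ^ 12 ≤ B.card ∧ ∀ b ∈ B, b0 ≤ b ∧
        Nonempty (Pool.Agent.Helper23.PZ.BlockData (Eb thr (e b)) p (A * Λ) Λ t) := by
  intro A0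
  refine ⟨A0 + 1, by omega, tj A0, fun p0 b0 => ?_⟩
  obtain ⟨n1, hn1⟩ := num_sizes A0
  obtain ⟨n2, hn2⟩ := exists_avoid thr ((Finset.range b0).map e.toEmbedding) A0
  obtain ⟨N, hN, hNp⟩ := Nat.exists_infinite_primes (p0 + n1 + n2 + thr A0)
  have hs := hn1 N (by omega)
  refine ⟨N, by omega, Lm A0 N, ?_, ?_, ?_⟩
  · exact hs.2.2.2.1
  · have := hs.2.2.2.2.1
    unfold rj at this
    rw [mul_assoc]
    exact this
  set g : Fin (N ^ 12) ↪ ℕ := ⟨fun k => e.symm ⟨A0, ⟨N, hNp, by omega⟩, k⟩, by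
    intro k k' hk
    have h1 := e.symm.injective hk
    exact eq_of_heq (Sigma.mk.inj (eq_of_heq (Sigma.mk.inj h1).2)).2⟩ with hg
  refine ⟨Finset.univ.map g, ?_, ?_⟩
  · rw [Finset.card_map, Finset.card_univ, Fintype.card_fin]
  · intro b hb
    obtain ⟨k, -, rfl⟩ := Finset.mem_map.1 hb
    have he : e (g k) = ⟨A0, ⟨N, hNp, by omega⟩, k⟩ := e.apply_symm_apply _
    refine ⟨?_, ?_⟩
    · by_contra hlt
      push Not at hlt
      have h1 := hn2 (e (g k)) (by rw [he]) (by rw [he]; show n2 ≤ N; omega)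
      exact h1 (Finset.mem_map.2 ⟨g k, Finset.mem_range.2 hlt, rfl⟩)
    · exact block_nonempty h A0 N hs (e (g k)) (by rw [he]) (by rw [he])

end Pool.Agent.Helper47.PK
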