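import Pool.Agent.Helper47.PK.SmoothX
import Pool.Agent.Helper47.PK.NonSmooth

/-! Project PK: the counterexample, from the abstract non-smoothness theorem. -/

set_option autoImplicit false

namespace Pool.Agent.Helper47.PK

open scoped ENNReal

/-- the conclusion, given the abstract non-smoothness theorem (helper23) -/
theorem main_of (no_smooth : ∀ (E : ℕ → Type) [∀ b, NormedAddCommGroup (E b)]
      [∀ b, NormedSpace ℝ (E b)],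
      (∀ A0 : ℕ, ∃ A ≥ A0, ∃ t : ℕ, ∀ p0 b0 : ℕ, ∃ p ≥ p0, ∃ Λ : ℕ, A * Λ ≤ p ∧ p ≤ 8 * A * Λ ∧
        ∃ B : Finset ℕ, p ^ 12 ≤ B.card ∧ ∀ b ∈ B, b0 ≤ b ∧
          Nonempty (Pool.Agent.Helper23.PZ.BlockData (E b) p (A * Λ) Λ t)) →
      ¬ ∃ N : lp E 4 → ℝ, SN ((⊤ : ℕ∞) : WithTop ℕ∞) N) :
    ¬ (∀ (X : Type) [NormedAddCommGroup X] [NormedSpace ℝ X] [CompleteSpace X]
      [TopologicalSpace.SeparableSpace X],
      (∀ k : ℕ, ∃ N : X → ℝ,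
        (∀ x y : X, N (x + y) ≤ N x + N y) ∧
        (∀ (t : ℝ) (x : X), N (t • x) = |t| * N x) ∧
        (∃ c C : ℝ, 0 < c ∧ ∀ x : X, c * ‖x‖ ≤ N x ∧ N x ≤ C * ‖x‖) ∧
        ContDiffOn ℝ (k : WithTop ℕ∞) N {x : X | x ≠ 0}) →
      ∃ N : X → ℝ,
        (∀ x y : X, N (x + y) ≤ N x + N y) ∧
        (∀ (t : ℝ) (x : X), N (t • x) = |t| * N x) ∧
        (∃ c C : ℝ, 0 < c ∧ ∀ x : X, c * ‖x‖ ≤ N x ∧ N x ≤ C * ‖x‖) ∧
        ContDiffOn ℝ ((⊤ : ℕ∞) : WithTop ℕ∞) N {x : X | x ≠ 0}) := by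
  intro H
  obtain ⟨thr, h⟩ := exists_thr
  obtain ⟨e⟩ := exists_enum thr
  have hsep : TopologicalSpace.SeparableSpace (lp (fun b : ℕ => Eb thr (e b)) 4) := lp_separable _
  exact no_smooth (fun b : ℕ => Eb thr (e b)) (no_smooth_hyp h e)
    (H (lp (fun b : ℕ => Eb thr (e b)) 4) (exists_smooth h e))

end Pool.Agent.Helper47.PK
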