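import Pool.Agent.Helper47.PK.Indep

/-! Project PK, piece PK-04: moments of sums of functions of the classes. -/

set_option autoImplicit false
set_option linter.unusedSectionVars false

namespace Pool.Agent.Helper47.PK

open Finset

variable {Ω V : Type} [Fintype Ω] [Fintype V] [DecidableEq V] {r t : ℕ} {π : Fin r → Ω → V}

/-- the product space -/
lemma mo_prod_all (g : Fin r → V → ℝ) :
    av (fun x : Fin r → V => ∏ c, g c (x c)) = ∏ c, ((∑ v, g c v) / Fintype.card V) := by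
  unfold av
  rw [Finset.prod_div_distrib, Finset.prod_const, Finset.card_univ, Fintype.card_fin,
    Finset.prod_univ_sum, Fintype.piFinset_univ]
  congr 1
  simp

/-- products over some of the coordinates -/
lemma mo_prod [Nonempty V] (U : Finset (Fin r)) (g : Fin r → V → ℝ) :
    av (fun x : Fin r → V => ∏ c ∈ U, g c (x c)) = ∏ c ∈ U, ((∑ v, g c v) / Fintype.card V) := by
  have hV : (Fintype.card V : ℝ) ≠ 0 := by exact_mod_cast Fintype.card_ne_zero
  have h := mo_prod_all (fun (c : Fin r) (v : V) => if c ∈ U then g c v else 1)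
  have h1 : ∀ x : Fin r → V, ∏ c, (if c ∈ U then g c (x c) else 1) = ∏ c ∈ U, g c (x c) := by
    intro x
    rw [Finset.prod_ite_mem, Finset.univ_inter]
  simp only [h1] at h
  rw [h, ← Finset.prod_subset (Finset.subset_univ U)]
  · apply Finset.prod_congr rfl
    intro c hc
    simp [hc]
  · intro c _ hc
    simp [hc, hV]

/-- expansion of a power -/
lemma mo_expand (n : ℕ) (S : Finset (Fin r)) (a : Fin r → ℝ) :
    (∑ c ∈ S, a c) ^ n =
      ∑ f ∈ Fintype.piFinset (fun _ : Fin n => S), ∏ c ∈ Finset.univ.image f,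
        ∏ _i ∈ Finset.univ.filter (fun i => f i = c), a c := by
  have h := Finset.prod_univ_sum (fun _ : Fin n => S) (fun _ c => a c)
  simp only [Finset.prod_const, Finset.card_univ, Fintype.card_fin] at h
  rw [h]
  apply Finset.sum_congr rfl
  intro f _
  rw [← Finset.prod_fiberwise_of_maps_to (g := f) (t := Finset.univ.image f)
    (fun i _ => Finset.mem_image_of_mem f (Finset.mem_univ i))]
  apply Finset.prod_congr rfl
  intro c _
  apply Finset.prod_congr rfl
  intro i hi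
  rw [(Finset.mem_filter.1 hi).2]

lemma mo_transfer [Nonempty Ω] [Nonempty V] (hπ : IsDes t π) (n : ℕ) (hn : n ≤ t)
    (X : Fin r → V → ℝ) (S : Finset (Fin r)) :
    av (fun ω => (∑ c ∈ S, X c (π c ω)) ^ n) =
      av (fun x : Fin r → V => (∑ c ∈ S, X c (x c)) ^ n) := by
  simp only [mo_expand]
  rw [av_sum, av_sum]
  apply Finset.sum_congr rfl
  intro f hf
  have hcard : (Finset.univ.image f).card ≤ n := by
    refine Finset.card_image_le.trans ?_
    simp
  rw [av_prod hπ _ (by omega) (fun c v => ∏ _i ∈ Finset.univ.filter (fun i => f i = c), X c v),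
    mo_prod _ (fun c v => ∏ _i ∈ Finset.univ.filter (fun i => f i = c), X c v)]

lemma mo_transfer_cm [Nonempty Ω] [Nonempty V] (hπ : IsDes t π) (n : ℕ) (hn : n ≤ t)
    (X : Fin r → V → ℝ) (S : Finset (Fin r)) (c₀ : Fin r) (hc : c₀ ∉ S) (v₀ : V) :
    cm π c₀ (fun ω => (∑ c ∈ S, X c (π c ω)) ^ n) v₀ =
      av (fun x : Fin r → V => (∑ c ∈ S, X c (x c)) ^ n) := by
  simp only [mo_expand]
  rw [cm_sum, av_sum]
  apply Finset.sum_congr rfl
  intro f hf
  have hcard : (Finset.univ.image f).card ≤ n := by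
    refine Finset.card_image_le.trans ?_
    simp
  rw [cm_prod hπ c₀ v₀ _ ?_ (by omega)
      (fun c v => ∏ _i ∈ Finset.univ.filter (fun i => f i = c), X c v),
    mo_prod _ (fun c v => ∏ _i ∈ Finset.univ.filter (fun i => f i = c), X c v)]
  intro hmem
  obtain ⟨i, _, hi⟩ := Finset.mem_image.1 hmem
  rw [← hi] at hc
  exact hc (Fintype.mem_piFinset.1 hf i)

/-- the exponential moment in one class -/
lemma mo_exp_class [Nonempty V] (X : V → ℝ) (hX : ∑ v, X v = 0) (h1 : ∀ v, |X v| ≤ 1) (l : ℝ)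
    (hl : |l| ≤ 1) :
    (∑ v, Real.exp (l * X v)) / Fintype.card V ≤
      Real.exp (l ^ 2 * ((∑ v, X v ^ 2) / Fintype.card V)) := by
  have hpR : (0 : ℝ) < Fintype.card V := by exact_mod_cast Fintype.card_pos
  have h2 : ∀ v, Real.exp (l * X v) ≤ 1 + l * X v + (l * X v) ^ 2 := by
    intro v
    have hlx : |l * X v| ≤ 1 := by
      rw [abs_mul]
      nlinarith [abs_nonneg l, abs_nonneg (X v), h1 v]
    have := Real.abs_exp_sub_one_sub_id_le hlx
    linarith [(abs_le.1 this).2]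
  have h3 : (∑ v, Real.exp (l * X v)) ≤
      Fintype.card V * (1 + l ^ 2 * ((∑ v, X v ^ 2) / Fintype.card V)) := by
    calc ∑ v, Real.exp (l * X v) ≤ ∑ v, (1 + l * X v + (l * X v) ^ 2) :=
        Finset.sum_le_sum fun v _ => h2 v
      _ = Fintype.card V * (1 + l ^ 2 * ((∑ v, X v ^ 2) / Fintype.card V)) := by
        rw [Finset.sum_add_distrib, Finset.sum_add_distrib, ← Finset.mul_sum, hX]
        simp only [mul_pow, ← Finset.mul_sum]
        simp
        field_simp
  rw [div_le_iff₀ hpR, mul_comm]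
  refine h3.trans (mul_le_mul_of_nonneg_left ?_ hpR.le)
  have := Real.add_one_le_exp (l ^ 2 * ((∑ v, X v ^ 2) / Fintype.card V))
  linarith

/-- the exponential moment on the product space -/
lemma mo_exp [Nonempty V] (X : Fin r → V → ℝ) (hX : ∀ c, ∑ v, X c v = 0)
    (h1 : ∀ c v, |X c v| ≤ 1) (S : Finset (Fin r)) (l : ℝ) (hl : |l| ≤ 1) :
    av (fun x : Fin r → V => Real.exp (l * ∑ c ∈ S, X c (x c))) ≤
      Real.exp (l ^ 2 * ∑ c ∈ S, (∑ v, X c v ^ 2) / Fintype.card V) := by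
  have h2 : ∀ x : Fin r → V, Real.exp (l * ∑ c ∈ S, X c (x c)) =
      ∏ c ∈ S, Real.exp (l * X c (x c)) := by
    intro x
    rw [Finset.mul_sum, Real.exp_sum]
  simp only [h2]
  rw [mo_prod S (fun c v => Real.exp (l * X c v)), Finset.mul_sum, Real.exp_sum]
  apply Finset.prod_le_prod
  · intro c _
    positivity
  · intro c _
    exact mo_exp_class _ (hX c) (h1 c) l hl

lemma mo_fact_le (n : ℕ) (hn : 2 ≤ n) : 2 * n.factorial ≤ n ^ n := by
  induction n, hn using Nat.le_induction with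
  | base => decide
  | succ n hn ih =>
    rw [Nat.factorial_succ, pow_succ]
    calc 2 * ((n + 1) * n.factorial) = (n + 1) * (2 * n.factorial) := by ring
      _ ≤ (n + 1) * n ^ n := Nat.mul_le_mul_left _ ih
      _ ≤ (n + 1) * (n + 1) ^ n := Nat.mul_le_mul_left _ (Nat.pow_le_pow_left (by omega) n)
      _ = _ := by ring

lemma mo_pow_le_exp (q : ℕ) (hq : 1 ≤ q) (y : ℝ) :
    y ^ (2 * q) ≤ (2 * q).factorial / 2 * (Real.exp y + Real.exp (-y) - 2) := by
  have h := Real.hasSum_cosh y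
  have h1 := sum_le_hasSum {0, q} (fun i _ => by
    rw [pow_mul]
    positivity) h
  rw [Finset.sum_pair (by omega)] at h1
  simp only [mul_zero, pow_zero, Nat.factorial_zero, Nat.cast_one, div_one] at h1
  rw [Real.cosh_eq] at h1
  have hf : (0 : ℝ) < (2 * q).factorial := by exact_mod_cast Nat.factorial_pos _
  have h2 : y ^ (2 * q) / (2 * q).factorial ≤ (Real.exp y + Real.exp (-y) - 2) / 2 := by
    linarith
  rw [div_le_iff₀ hf] at h2
  linarith

lemma mo_product [Nonempty V] {q : ℕ} (hq1 : 1 ≤ q) (X : Fin r → V → ℝ)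
    (hX0 : ∀ c, ∑ v, X c v = 0) (hX1 : ∀ c v, |X c v| ≤ 1)
    (S : Finset (Fin r)) {W : ℝ} (hW1 : 1 ≤ W)
    (hW : ∑ c ∈ S, (∑ v, X c v ^ 2) / Fintype.card V ≤ W) :
    av (fun x : Fin r → V => (∑ c ∈ S, X c (x c)) ^ (2 * q)) ≤
      ((2 * q : ℕ) : ℝ) ^ (2 * q) * W ^ q := by
  set l : ℝ := 1 / Real.sqrt W with hl
  have hsW : 1 ≤ Real.sqrt W := by
    rw [show (1 : ℝ) = Real.sqrt 1 from Real.sqrt_one.symm]
    exact Real.sqrt_le_sqrt hW1
  have hl0 : 0 < l := by positivity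
  have hl1 : |l| ≤ 1 := by
    rw [abs_of_pos hl0, hl, div_le_one (by linarith)]
    exact hsW
  have hl2 : l ^ 2 = 1 / W := by
    rw [hl, div_pow, Real.sq_sqrt (by linarith)]
    simp
  have hlV : l ^ 2 * ∑ c ∈ S, (∑ v, X c v ^ 2) / Fintype.card V ≤ 1 := by
    rw [hl2]
    have : (1 / W) * ∑ c ∈ S, (∑ v, X c v ^ 2) / Fintype.card V ≤ (1 / W) * W :=
      mul_le_mul_of_nonneg_left hW (by positivity)
    rw [one_div, inv_mul_cancel₀ (by linarith)] at this
    rw [one_div]
    exact this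
  have hE1 := mo_exp X hX0 hX1 S l hl1
  have hE2 := mo_exp X hX0 hX1 S (-l) (by rwa [abs_neg])
  rw [neg_sq] at hE2
  have he : Real.exp (l ^ 2 * ∑ c ∈ S, (∑ v, X c v ^ 2) / Fintype.card V) ≤ 3 :=
    (Real.exp_le_exp.2 hlV).trans ((Real.exp_one_lt_d9).le.trans (by norm_num))
  have hWq : 0 < W ^ q := by positivity
  have hf : (0 : ℝ) < (2 * q).factorial := by exact_mod_cast Nat.factorial_pos _
  have hb : ∀ x : Fin r → V, (∑ c ∈ S, X c (x c)) ^ (2 * q) ≤
      W ^ q * ((2 * q).factorial / 2) * ((Real.exp (l * ∑ c ∈ S, X c (x c)) +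
        Real.exp (-l * ∑ c ∈ S, X c (x c))) - 2) := by
    intro x
    have h2 := mo_pow_le_exp q hq1 (l * ∑ c ∈ S, X c (x c))
    rw [mul_pow, pow_mul l, hl2, div_pow, one_pow, one_div, inv_mul_le_iff₀ hWq] at h2
    rw [neg_mul, mul_assoc]
    exact h2
  calc av (fun x : Fin r → V => (∑ c ∈ S, X c (x c)) ^ (2 * q)) ≤
      av (fun x : Fin r → V => W ^ q * ((2 * q).factorial / 2) *
        ((Real.exp (l * ∑ c ∈ S, X c (x c)) +
        Real.exp (-l * ∑ c ∈ S, X c (x c))) - 2)) := av_mono hb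
    _ = W ^ q * ((2 * q).factorial / 2) * ((av (fun x : Fin r → V =>
        Real.exp (l * ∑ c ∈ S, X c (x c))) + av (fun x : Fin r → V =>
        Real.exp (-l * ∑ c ∈ S, X c (x c)))) - 2) := by
        rw [av_const_mul, av_sub, av_add, av_const]
    _ ≤ W ^ q * ((2 * q).factorial / 2) * ((3 + 3) - 2) := by
        apply mul_le_mul_of_nonneg_left _ (by positivity)
        linarith
    _ = (2 * (2 * q).factorial : ℕ) * W ^ q := by
        push_cast
        ring
    _ ≤ (((2 * q) ^ (2 * q) : ℕ) : ℝ) * W ^ q := by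
        apply mul_le_mul_of_nonneg_right _ hWq.le
        exact_mod_cast mo_fact_le (2 * q) (by omega)
    _ = _ := by
        push_cast
        ring

/-- Piece PK-04.  `X c` has mean `0` and `|X c| ≤ 1`, and `∑_{c ∈ S} E X_c^2 ≤ W` with `W ≥ 1`; then
`E[(∑_{c ∈ S} X_c)^(2q)] ≤ (2q)^(2q) W^q`, also conditionally on a clique of a class not in `S`.

Proof.  By independence (expand the power) the mean is the same as on the product space of all
`x : Fin r → V`.  There the exponential moments of `l ∑ X_c` are at most `exp (l^2 W)` for `|l| ≤ 1`;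
take `l = W^(-1/2)` and `y^(2q) ≤ (2q)! (cosh y - 1)`. -/
theorem moment [Nonempty Ω] {q : ℕ} (hπ : IsDes t π) (hq1 : 1 ≤ q) (hq : 2 * q ≤ t)
    (X : Fin r → V → ℝ) (hX0 : ∀ c, ∑ v, X c v = 0) (hX1 : ∀ c v, |X c v| ≤ 1)
    (S : Finset (Fin r)) {W : ℝ} (hW1 : 1 ≤ W)
    (hW : ∑ c ∈ S, (∑ v, X c v ^ 2) / Fintype.card V ≤ W) :
    av (fun ω => (∑ c ∈ S, X c (π c ω)) ^ (2 * q)) ≤ ((2 * q : ℕ) : ℝ) ^ (2 * q) * W ^ q ∧
    ∀ c₀ ∉ S, ∀ v₀, cm π c₀ (fun ω => (∑ c ∈ S, X c (π c ω)) ^ (2 * q)) v₀ ≤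
      ((2 * q : ℕ) : ℝ) ^ (2 * q) * W ^ q := by
  rcases isEmpty_or_nonempty V with hV | hV
  · have hr : ∀ c : Fin r, False := fun c => hV.false (π c (Classical.arbitrary Ω))
    refine ⟨?_, fun c₀ => (hr c₀).elim⟩
    have hS : S = ∅ := Finset.eq_empty_of_forall_notMem fun c => (hr c).elim
    have h0 : (fun ω : Ω => (∑ c ∈ S, X c (π c ω)) ^ (2 * q)) = fun _ => 0 := by
      funext ω
      rw [hS, Finset.sum_empty, zero_pow (by omega)]
    rw [h0, av_zero]
    positivity
  · have h := mo_product hq1 X hX0 hX1 S hW1 hW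
    refine ⟨?_, fun c₀ hc v₀ => ?_⟩
    · rw [mo_transfer hπ (2 * q) hq X S]
      exact h
    · rw [mo_transfer_cm hπ (2 * q) hq X S c₀ hc v₀]
      exact h

end Pool.Agent.Helper47.PK
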