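import Pool.Agent.Helper47.PK.FB
import Pool.Agent.Helper47.PK.Polar

/-! Project PK, piece PK-09b-e: `PP` and `QQ` are quartics; the convex quartic `QQ`; the quadratic
form. -/

set_option autoImplicit false

namespace Pool.Agent.Helper47.PK

open Finset

section aux

variable {F : Type} [AddCommGroup F] [Module ℝ F]

/-- auxiliary: products of four linear functionals -/
theorem quartic_four (φ : Fin 4 → F →ₗ[ℝ] ℝ) : IsQ4 (fun x => ∏ i, φ i x) :=
  ⟨(MultilinearMap.mkPiAlgebra ℝ (Fin 4) ℝ).compLinearMap φ, fun x => by simp⟩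

theorem quartic_add {P Q : F → ℝ} (hP : IsQ4 P) (hQ : IsQ4 Q) : IsQ4 (fun x => P x + Q x) := by
  obtain ⟨L, hL⟩ := hP
  obtain ⟨M, hM⟩ := hQ
  exact ⟨L + M, fun x => by
    show P x + Q x = L (fun _ => x) + M (fun _ => x)
    rw [hL, hM]⟩

theorem quartic_smul {P : F → ℝ} (a : ℝ) (hP : IsQ4 P) : IsQ4 (fun x => a * P x) := by
  obtain ⟨L, hL⟩ := hP
  exact ⟨a • L, fun x => by
    show a * P x = a * L (fun _ => x)
    rw [hL]⟩

theorem quartic_zero : IsQ4 (fun _ : F => (0 : ℝ)) := ⟨0, fun _ => rfl⟩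

theorem quartic_sum {ι : Type} (s : Finset ι) {P : ι → F → ℝ} (h : ∀ k ∈ s, IsQ4 (P k)) :
    IsQ4 (fun x => ∑ k ∈ s, P k x) := by
  classical
  induction s using Finset.induction_on with
  | empty => simpa using quartic_zero
  | insert a s ha ih =>
    simp only [Finset.sum_insert ha]
    exact quartic_add (h a (Finset.mem_insert_self _ _))
      (ih fun k hk => h k (Finset.mem_insert_of_mem hk))

theorem quartic_sq_mul_sq (φ ψ : F →ₗ[ℝ] ℝ) : IsQ4 (fun x => φ x ^ 2 * ψ x ^ 2) := by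
  have h := quartic_four ![φ, φ, ψ, ψ]
  have e : (fun x : F => ∏ i, (![φ, φ, ψ, ψ] : Fin 4 → F →ₗ[ℝ] ℝ) i x) =
      fun x => φ x ^ 2 * ψ x ^ 2 := by
    funext x
    simp [Fin.prod_univ_four]
    ring
  rwa [e] at h

end aux

variable {Ω V : Type} [Fintype Ω] [Fintype V] [DecidableEq V] {r : ℕ} (π : Fin r → Ω → V)
  (Λ : ℕ)

/-- auxiliary: product of two diagonal quadratic forms -/
theorem quartic_mul (a b : Ω → ℝ) :
    IsQ4 (fun x : Ω → ℝ => (∑ ω, a ω * x ω ^ 2) * ∑ ω, b ω * x ω ^ 2) := by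
  have e : (fun x : Ω → ℝ => (∑ ω, a ω * x ω ^ 2) * ∑ ω, b ω * x ω ^ 2) =
      fun x : Ω → ℝ => ∑ i, ∑ j, (a i * b j) *
        ((LinearMap.proj i : (Ω → ℝ) →ₗ[ℝ] ℝ) x ^ 2 *
          (LinearMap.proj j : (Ω → ℝ) →ₗ[ℝ] ℝ) x ^ 2) := by
    funext x
    rw [Finset.sum_mul_sum]
    refine Finset.sum_congr rfl fun i _ => Finset.sum_congr rfl fun j _ => ?_
    show a i * x i ^ 2 * (b j * x j ^ 2) = a i * b j * (x i ^ 2 * x j ^ 2)
    ring
  rw [e]
  exact quartic_sum _ fun i _ => quartic_sum _ fun j _ => quartic_smul _ (quartic_sq_mul_sq _ _)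

/-- auxiliary: the mean of the squares as a sum -/
theorem quartic_av (x : Ω → ℝ) :
    av (fun ω => x ω ^ 2) = ∑ ω, (1 / (Fintype.card Ω : ℝ)) * x ω ^ 2 := by
  unfold av
  rw [← Finset.mul_sum]
  ring

/-- auxiliary: the conditional mean of the squares as a sum -/
theorem quartic_cm (c : Fin r) (v : V) (x : Ω → ℝ) :
    cm π c (fun ω => x ω ^ 2) v =
      ∑ ω, (if π c ω = v then (Fintype.card V : ℝ) / (Fintype.card Ω : ℝ) else 0) * x ω ^ 2 := by
  unfold cm av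
  rw [mul_div_assoc', Finset.mul_sum, Finset.sum_div]
  refine Finset.sum_congr rfl fun ω _ => ?_
  split_ifs
  · ring
  · simp

theorem quartic_avav : IsQ4 (fun x : Ω → ℝ =>
    av (fun ω => x ω ^ 2) * av (fun ω => x ω ^ 2)) := by
  simp only [quartic_av]
  exact quartic_mul _ _

theorem quartic_cmcm (c : Fin r) (v : V) : IsQ4 (fun x : Ω → ℝ =>
    cm π c (fun ω => x ω ^ 2) v * cm π c (fun ω => x ω ^ 2) v) := by
  simp only [quartic_cm]
  exact quartic_mul _ _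

theorem quartic_four_av : IsQ4 (fun x : Ω → ℝ => av (fun ω => x ω ^ 4)) := by
  have e : (fun x : Ω → ℝ => av (fun ω => x ω ^ 4)) =
      fun x : Ω → ℝ => ∑ i, (1 / (Fintype.card Ω : ℝ)) *
        ((LinearMap.proj i : (Ω → ℝ) →ₗ[ℝ] ℝ) x ^ 2 *
          (LinearMap.proj i : (Ω → ℝ) →ₗ[ℝ] ℝ) x ^ 2) := by
    funext x
    unfold av
    rw [← Finset.mul_sum, div_eq_inv_mul, one_div]
    congr 1
    refine Finset.sum_congr rfl fun i _ => ?_
    show x i ^ 4 = x i ^ 2 * x i ^ 2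
    ring
  rw [e]
  exact quartic_sum _ fun i _ => quartic_smul _ (quartic_sq_mul_sq _ _)

/-- auxiliary: the quartic written out -/
theorem quartic_PP (x : Ω → ℝ) : PP π Λ x = av (fun ω => x ω ^ 4) +
    ((r : ℝ) * Λ * (av (fun ω => x ω ^ 2) * av (fun ω => x ω ^ 2)) +
      (r : ℝ) * ∑ c, ((∑ v, cm π c (fun ω => x ω ^ 2) v * cm π c (fun ω => x ω ^ 2) v) /
        Fintype.card V - av (fun ω => x ω ^ 2) * av (fun ω => x ω ^ 2))) := by
  unfold PP
  rw [av_mul_Bo]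

/-- auxiliary: the convex quartic written out -/
theorem quartic_QQ (x : Ω → ℝ) : QQ π Λ x = av (fun ω => x ω ^ 4) +
    ((r : ℝ) * Λ * (av (fun ω => x ω ^ 2)) ^ 2 +
      (r : ℝ) * ∑ c, ((Fintype.card V : ℝ)⁻¹ * ∑ v, (cm π c (fun ω => x ω ^ 2) v) ^ 2)) := by
  unfold QQ
  rw [quartic_PP, Finset.sum_sub_distrib, Finset.sum_const, Finset.card_univ, Fintype.card_fin,
    nsmul_eq_mul]
  have e : (∑ c : Fin r, (∑ v, cm π c (fun ω => x ω ^ 2) v * cm π c (fun ω => x ω ^ 2) v) /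
      (Fintype.card V : ℝ)) =
      ∑ c : Fin r, ((Fintype.card V : ℝ)⁻¹ * ∑ v, (cm π c (fun ω => x ω ^ 2) v) ^ 2) := by
    refine Finset.sum_congr rfl fun c _ => ?_
    rw [div_eq_inv_mul]
    congr 1
    exact Finset.sum_congr rfl fun v _ => by ring
  rw [e]
  ring

theorem quartic_isQ4_PP : IsQ4 (fun x : Ω → ℝ => PP π Λ x) := by
  have e : (fun x : Ω → ℝ => PP π Λ x) = fun x : Ω → ℝ => av (fun ω => x ω ^ 4) +
      ((r : ℝ) * Λ * (av (fun ω => x ω ^ 2) * av (fun ω => x ω ^ 2)) +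
      (r : ℝ) * ∑ c, ((Fintype.card V : ℝ)⁻¹ * (∑ v, cm π c (fun ω => x ω ^ 2) v *
        cm π c (fun ω => x ω ^ 2) v) +
        (-1) * (av (fun ω => x ω ^ 2) * av (fun ω => x ω ^ 2)))) := by
    funext x
    rw [quartic_PP]
    congr 3
    refine Finset.sum_congr rfl fun c _ => ?_
    rw [div_eq_inv_mul]
    ring
  rw [e]
  refine quartic_add quartic_four_av (quartic_add (quartic_smul _ quartic_avav)
    (quartic_smul _ (quartic_sum _ fun c _ => quartic_add (quartic_smul _ ?_)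
      (quartic_smul _ quartic_avav))))
  exact quartic_sum _ fun v _ => quartic_cmcm π c v

theorem quartic_isQ4_QQ : IsQ4 (fun x : Ω → ℝ => QQ π Λ x) := by
  have e : (fun x : Ω → ℝ => QQ π Λ x) = fun x : Ω → ℝ => PP π Λ x + (r : ℝ) ^ 2 *
      (av (fun ω => x ω ^ 2) * av (fun ω => x ω ^ 2)) := by
    funext x
    unfold QQ
    rw [sq (av _)]
  rw [e]
  exact quartic_add (quartic_isQ4_PP π Λ) (quartic_smul _ quartic_avav)

/-- Piece PK-09b.  All terms are linear combinations of products of four linear functionals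
(`(MultilinearMap.mkPiAlgebra ℝ (Fin 4) ℝ).compLinearMap`), e.g. of `x_i^2 x_j^2`: `IsQ4` is closed under
sums and scalar multiples, and `P x = ∑_{i,j} K i j (x i)^2 (x j)^2` because `Bo` is linear in `y`. -/
theorem isQ4_PP : IsQ4 (fun x : FB π Λ => PP π Λ x) := quartic_isQ4_PP π Λ

theorem isQ4_QQ : IsQ4 (fun x : FB π Λ => QQ π Λ x) := quartic_isQ4_QQ π Λ

/-- auxiliary: diagonal quadratic forms with nonnegative coefficients are convex -/
theorem quartic_convex_sq (a : Ω → ℝ) (ha : ∀ ω, 0 ≤ a ω) :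
    ConvexOn ℝ Set.univ (fun x : Ω → ℝ => ∑ ω, a ω * x ω ^ 2) := by
  refine ⟨convex_univ, fun x _ y _ s t hs ht hst => ?_⟩
  simp only [smul_eq_mul]
  rw [Finset.mul_sum, Finset.mul_sum, ← Finset.sum_add_distrib]
  refine Finset.sum_le_sum fun ω _ => ?_
  have h := (Even.convexOn_pow (n := 2) (𝕜 := ℝ) (by decide)).2 (Set.mem_univ (x ω))
    (Set.mem_univ (y ω)) hs ht hst
  simp only [smul_eq_mul] at h
  have h2 := mul_le_mul_of_nonneg_left h (ha ω)
  simp only [Pi.add_apply, Pi.smul_apply, smul_eq_mul]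
  linarith

theorem quartic_convex_sqsq (a : Ω → ℝ) (ha : ∀ ω, 0 ≤ a ω) :
    ConvexOn ℝ Set.univ (fun x : Ω → ℝ => (∑ ω, a ω * x ω ^ 2) ^ 2) := by
  have h := (quartic_convex_sq a ha).pow (fun x _ => Finset.sum_nonneg fun ω _ =>
    mul_nonneg (ha ω) (sq_nonneg _)) 2
  exact h

theorem quartic_convex_four : ConvexOn ℝ Set.univ (fun x : Ω → ℝ => av (fun ω => x ω ^ 4)) := by
  refine ⟨convex_univ, fun x _ y _ a b ha hb hab => ?_⟩
  simp only [smul_eq_mul]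
  rw [← av_const_mul, ← av_const_mul, ← av_add]
  refine av_mono fun ω => ?_
  have := (Even.convexOn_pow (n := 4) (𝕜 := ℝ) (by decide)).2 (Set.mem_univ (x ω))
    (Set.mem_univ (y ω)) ha hb hab
  simpa [smul_eq_mul] using this

omit [Fintype Ω] in
theorem quartic_convex_sum {ι : Type} (s : Finset ι) {f : ι → (Ω → ℝ) → ℝ}
    (h : ∀ k ∈ s, ConvexOn ℝ Set.univ (f k)) :
    ConvexOn ℝ Set.univ (fun x => ∑ k ∈ s, f k x) := by
  classical
  induction s using Finset.induction_on with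
  | empty => simpa using convexOn_const (𝕜 := ℝ) (0 : ℝ) convex_univ
  | insert a s ha ih =>
    simp only [Finset.sum_insert ha]
    exact (h a (Finset.mem_insert_self _ _)).add
      (ih fun k hk => h k (Finset.mem_insert_of_mem hk))

/-- Piece PK-09c.  `QQ x = E x^4 + r Λ (E x^2)^2 + r ∑_c (1/N) ∑_v (cm π c (x^2) v)^2` (`av_mul_Bo`: the
terms `-(E x^2)^2` cancel, there are `r` of them); every term is a nonnegative multiple of a square of a
nonnegative convex function (`E x^2`, `cm π c (x^2) v`), and `E x^4` is convex: so `QQ` is convex. -/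
theorem QQ_convex : ConvexOn ℝ Set.univ (QQ π Λ) := by
  have e : QQ π Λ = fun x : Ω → ℝ => av (fun ω => x ω ^ 4) +
    ((r : ℝ) * Λ * (av (fun ω => x ω ^ 2)) ^ 2 +
      (r : ℝ) * ∑ c, ((Fintype.card V : ℝ)⁻¹ * ∑ v, (cm π c (fun ω => x ω ^ 2) v) ^ 2)) := by
    funext x
    exact quartic_QQ π Λ x
  rw [e]
  have h1 : ConvexOn ℝ Set.univ (fun x : Ω → ℝ => (r : ℝ) * Λ * (av (fun ω => x ω ^ 2)) ^ 2) := by
    have h := (quartic_convex_sqsq (Ω := Ω) (fun _ => 1 / (Fintype.card Ω : ℝ))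
      (fun _ => by positivity)).smul (show (0 : ℝ) ≤ (r : ℝ) * Λ by positivity)
    simpa only [quartic_av, smul_eq_mul] using h
  have h2 : ConvexOn ℝ Set.univ (fun x : Ω → ℝ =>
      (r : ℝ) * ∑ c, ((Fintype.card V : ℝ)⁻¹ * ∑ v, (cm π c (fun ω => x ω ^ 2) v) ^ 2)) := by
    have h3 : ConvexOn ℝ Set.univ (fun x : Ω → ℝ =>
        ∑ c, ((Fintype.card V : ℝ)⁻¹ * ∑ v, (cm π c (fun ω => x ω ^ 2) v) ^ 2)) := by
      refine quartic_convex_sum _ fun c _ => ?_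
      have h4 : ConvexOn ℝ Set.univ (fun x : Ω → ℝ =>
          ∑ v, (cm π c (fun ω => x ω ^ 2) v) ^ 2) := by
        refine quartic_convex_sum _ fun v _ => ?_
        simp only [quartic_cm]
        refine quartic_convex_sqsq _ fun ω => ?_
        split_ifs
        · positivity
        · exact le_rfl
      have h5 := h4.smul (show (0 : ℝ) ≤ (Fintype.card V : ℝ)⁻¹ by positivity)
      simpa only [smul_eq_mul] using h5
    have h6 := h3.smul (show (0 : ℝ) ≤ (r : ℝ) by positivity)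
    simpa only [smul_eq_mul] using h6
  exact quartic_convex_four.add (h1.add h2)

theorem PP_le_QQ (x : Ω → ℝ) : PP π Λ x ≤ QQ π Λ x := by
  unfold QQ
  have : 0 ≤ (r : ℝ) ^ 2 * (av (fun ω => x ω ^ 2)) ^ 2 := by positivity
  linarith

/-- Piece PK-09d.  `r = A Λ`, so `r^2 (E x^2)^2 = A (r Λ) (E x^2)^2 ≤ A P x`
(`av_mul_Bo`, `var_cm_nonneg`). -/
theorem QQ_le {A : ℕ} (hA : r = A * Λ) (x : Ω → ℝ) : QQ π Λ x ≤ (1 + (A : ℝ)) * PP π Λ x := by
  have h1 : (r : ℝ) * Λ * (av (fun ω => x ω ^ 2)) ^ 2 ≤ PP π Λ x := by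
    rw [quartic_PP]
    have h2 := av_four_nonneg x
    have h3 : 0 ≤ ∑ c, ((∑ v, cm π c (fun ω => x ω ^ 2) v * cm π c (fun ω => x ω ^ 2) v) /
        Fintype.card V - av (fun ω => x ω ^ 2) * av (fun ω => x ω ^ 2)) :=
      Finset.sum_nonneg fun c _ => var_cm_nonneg π c _
    have h4 : 0 ≤ (r : ℝ) * ∑ c, ((∑ v, cm π c (fun ω => x ω ^ 2) v *
        cm π c (fun ω => x ω ^ 2) v) /
        Fintype.card V - av (fun ω => x ω ^ 2) * av (fun ω => x ω ^ 2)) :=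
      mul_nonneg (Nat.cast_nonneg _) h3
    rw [sq (av _)]
    linarith
  have h5 : (r : ℝ) ^ 2 * (av (fun ω => x ω ^ 2)) ^ 2 ≤ (A : ℝ) * PP π Λ x := by
    have h6 : (r : ℝ) ^ 2 * (av (fun ω => x ω ^ 2)) ^ 2 =
        (A : ℝ) * ((r : ℝ) * Λ * (av (fun ω => x ω ^ 2)) ^ 2) := by
      have h7 : (r : ℝ) = A * Λ := by rw [hA]; push_cast; ring
      rw [sq (r : ℝ)]
      nth_rw 2 [h7]
      ring
    rw [h6]
    exact mul_le_mul_of_nonneg_left h1 (Nat.cast_nonneg _)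
  unfold QQ
  linarith

theorem quartic_sq_le_norm (x : FB π Λ) : av (fun ω => (x : Ω → ℝ) ω ^ 2) ≤ ‖x‖ ^ 2 := by
  have h1 := av_sq_le (fun ω => (x : Ω → ℝ) ω ^ 2)
  have h2 := av_four_le_norm π Λ x
  have e : (fun ω => ((x : Ω → ℝ) ω ^ 2) ^ 2) = fun ω => (x : Ω → ℝ) ω ^ 4 := by
    funext ω; ring
  rw [e] at h1
  have h3 : (av (fun ω => (x : Ω → ℝ) ω ^ 2)) ^ 2 ≤ (‖x‖ ^ 2) ^ 2 := by
    calc _ ≤ ‖x‖ ^ 4 := h1.trans h2
      _ = _ := by ring
  exact le_of_sq_le_sq h3 (by positivity)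

theorem quartic_av_mul_le (x y : FB π Λ) :
    |av (fun ω => (x : Ω → ℝ) ω * (y : Ω → ℝ) ω)| ≤ ‖x‖ * ‖y‖ := by
  have h1 := av_mul_sq_le (fun ω => (x : Ω → ℝ) ω) (fun ω => (y : Ω → ℝ) ω)
  have hx := quartic_sq_le_norm π Λ x
  have hy := quartic_sq_le_norm π Λ y
  have hx0 : 0 ≤ av (fun ω => (x : Ω → ℝ) ω ^ 2) := av_nonneg fun ω => sq_nonneg _
  have h2 : av (fun ω => (x : Ω → ℝ) ω ^ 2) * av (fun ω => (y : Ω → ℝ) ω ^ 2) ≤
      ‖x‖ ^ 2 * ‖y‖ ^ 2 := mul_le_mul hx hy (av_nonneg fun ω => sq_nonneg _) (by positivity)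
  refine abs_le_of_sq_le_sq ?_ (by positivity)
  calc _ ≤ ‖x‖ ^ 2 * ‖y‖ ^ 2 := h1.trans h2
    _ = _ := by ring

/-- Piece PK-09e.  The quadratic form `6 η E x^2` on `FB π Λ`: bounded bilinear form of norm at most
`6 η` (`E |x y| ≤ (E x^2)^(1/2) (E y^2)^(1/2)`, `E x^2 ≤ (E x^4)^(1/2) ≤ ‖x‖^2`). -/
theorem exists_quad {η : ℝ} (hη : 0 ≤ η) :
    ∃ M : ContinuousMultilinearMap ℝ (fun _ : Fin 2 => FB π Λ) ℝ,
      (∀ x : FB π Λ, 6 * η * av (fun ω => (x : Ω → ℝ) ω ^ 2) = M (fun _ => x)) ∧ ‖M‖ ≤ 6 * η := by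
  set M0 : MultilinearMap ℝ (fun _ : Fin 2 => FB π Λ) ℝ :=
    (6 * η / (Fintype.card Ω : ℝ)) • ∑ ω, (MultilinearMap.mkPiAlgebra ℝ (Fin 2) ℝ).compLinearMap
      (fun _ => ((evl π Λ ω : FB π Λ →L[ℝ] ℝ) : FB π Λ →ₗ[ℝ] ℝ)) with hM0
  have hM : ∀ m : Fin 2 → FB π Λ, M0 m =
      6 * η * av (fun ω => (m 0 : Ω → ℝ) ω * (m 1 : Ω → ℝ) ω) := by
    intro m
    rw [hM0, _root_.smul_apply, _root_.sum_apply, smul_eq_mul]
    unfold av
    rw [div_mul_eq_mul_div, mul_div_assoc]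
    congr 2
    refine Finset.sum_congr rfl fun ω _ => ?_
    simp [Fin.prod_univ_two]
  refine ⟨M0.mkContinuous (6 * η) fun m => ?_, fun x => ?_, ?_⟩
  · rw [hM, Real.norm_eq_abs, abs_mul, abs_of_nonneg (show 0 ≤ 6 * η by positivity),
      Fin.prod_univ_two]
    exact mul_le_mul_of_nonneg_left (quartic_av_mul_le π Λ _ _) (by positivity)
  · show _ = M0 (fun _ => x)
    rw [hM]
    congr 2
    funext ω
    ring
  · exact MultilinearMap.mkContinuous_norm_le _ (by positivity) _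

end Pool.Agent.Helper47.PK
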