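import Pool.Agent.Helper47.PK.FB
import Pool.Agent.Helper47.PK.HHProp

/-! Project PK: smoothness on `FB π Λ`. -/

set_option autoImplicit false

namespace Pool.Agent.Helper47.PK

open Finset

variable {Ω V : Type} [Fintype Ω] [Fintype V] [DecidableEq V] {r : ℕ} (π : Fin r → Ω → V)
  (Λ : ℕ)

theorem contDiff_coord (n : WithTop ℕ∞) (ω : Ω) :
    ContDiff ℝ n (fun x : FB π Λ => (x : Ω → ℝ) ω) :=
  (evl π Λ ω).contDiff

theorem contDiff_av {n : WithTop ℕ∞} {f : FB π Λ → Ω → ℝ}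
    (hf : ∀ ω, ContDiff ℝ n (fun x => f x ω)) : ContDiff ℝ n (fun x => av (f x)) := by
  unfold av
  exact (ContDiff.sum fun ω _ => hf ω).div_const _

theorem contDiff_cm {n : WithTop ℕ∞} {f : FB π Λ → Ω → ℝ}
    (hf : ∀ ω, ContDiff ℝ n (fun x => f x ω)) (c : Fin r) (v : V) :
    ContDiff ℝ n (fun x => cm π c (f x) v) := by
  unfold cm
  refine contDiff_const.mul (contDiff_av π Λ fun ω => ?_)
  split_ifs
  · exact hf ω
  · exact contDiff_const

theorem contDiff_Bo {n : WithTop ℕ∞} {f : FB π Λ → Ω → ℝ}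
    (hf : ∀ ω, ContDiff ℝ n (fun x => f x ω)) (i : Ω) :
    ContDiff ℝ n (fun x => Bo π Λ (f x) i) := by
  unfold Bo
  have h1 := contDiff_av π Λ hf
  refine (contDiff_const.mul h1).add (contDiff_const.mul (ContDiff.sum fun c _ => ?_))
  exact (contDiff_cm π Λ hf c _).sub h1

theorem contDiff_pow_coord (n : WithTop ℕ∞) (k : ℕ) (ω : Ω) :
    ContDiff ℝ n (fun x : FB π Λ => (x : Ω → ℝ) ω ^ k) :=
  (contDiff_coord π Λ n ω).pow k

theorem contDiff_PP (n : WithTop ℕ∞) : ContDiff ℝ n (fun x : FB π Λ => PP π Λ x) := by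
  unfold PP
  refine (contDiff_av π Λ fun ω => contDiff_pow_coord π Λ n 4 ω).add
    (contDiff_av π Λ fun ω => (contDiff_pow_coord π Λ n 2 ω).mul
      (contDiff_Bo π Λ (fun i => contDiff_pow_coord π Λ n 2 i) ω))

theorem contDiff_G1 (η : ℝ) :
    ContDiff ℝ ((⊤ : ℕ∞) : WithTop ℕ∞) (fun x : FB π Λ => G1 π Λ η x) := by
  unfold G1
  refine contDiff_av π Λ fun ω => (contDiff_pow_coord π Λ _ 2 ω).mul ?_
  exact (gam_contDiff η).comp (contDiff_Bo π Λ (fun i => contDiff_pow_coord π Λ _ 2 i) ω)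

theorem contDiff_RR (η : ℝ) :
    ContDiff ℝ ((⊤ : ℕ∞) : WithTop ℕ∞) (fun x : FB π Λ => RR π Λ η x) := by
  unfold RR
  exact (chi_contDiff.comp (contDiff_av π Λ fun ω => contDiff_pow_coord π Λ _ 4 ω)).mul
    (contDiff_G1 π Λ η)

end Pool.Agent.Helper47.PK
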