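import Pool.Agent.Helper47.PK.Family
import Pool.Agent.Helper47.PK.Quartic
import Pool.Agent.Helper47.PK.Smooth
import Pool.Agent.Helper47.PK.ConvexC
import Pool.Agent.Helper47.PK.Sep
import Pool.Agent.Helper23.PZ.Sum

/-! Project PK: for every `k` the space has an equivalent `C^k` norm. -/

set_option autoImplicit false
set_option linter.unusedSectionVars false

namespace Pool.Agent.Helper47.PK

open Finset
open scoped ENNReal

section

variable {Ω V : Type} [Fintype Ω] [Fintype V] [DecidableEq V] {r : ℕ} {π : Fin r → Ω → V}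
  {Λ : ℕ}

theorem G1_nonneg {η : ℝ} (hη : 0 < η) (x : Ω → ℝ) : 0 ≤ G1 π Λ η x := by
  unfold G1
  exact av_nonneg fun ω => mul_nonneg (sq_nonneg _) (gam_nonneg hη _)

theorem RR_nonneg {η : ℝ} (hη : 0 < η) (x : Ω → ℝ) : 0 ≤ RR π Λ η x :=
  mul_nonneg (chi_nonneg _) (G1_nonneg hη x)

theorem RR_neg (η : ℝ) (x : FB π Λ) : RR π Λ η (-x) = RR π Λ η x := by
  have h2 : (fun ω => ((-x : FB π Λ) : Ω → ℝ) ω ^ 2) = fun ω => (x : Ω → ℝ) ω ^ 2 := by
    funext ω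
    exact neg_sq _
  have h4 : (fun ω => ((-x : FB π Λ) : Ω → ℝ) ω ^ 4) = fun ω => (x : Ω → ℝ) ω ^ 4 := by
    funext ω
    exact Even.neg_pow (by decide) _
  unfold RR G1
  have h3 : ∀ ω, ((-x : FB π Λ) : Ω → ℝ) ω ^ 2 = (x : Ω → ℝ) ω ^ 2 := fun ω => congrFun h2 ω
  rw [h4, h2]
  simp only [h3]

theorem RR_zero (η : ℝ) : RR π Λ η (0 : FB π Λ) = 0 := by
  unfold RR G1
  have h : (fun ω => ((0 : FB π Λ) : Ω → ℝ) ω ^ 2 *
      gam η (Bo π Λ (fun i => ((0 : FB π Λ) : Ω → ℝ) i ^ 2) ω)) = fun _ => 0 := by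
    funext ω
    have : ((0 : FB π Λ) : Ω → ℝ) ω ^ 2 = 0 := by
      show (0 : ℝ) ^ 2 = 0
      norm_num
    rw [this, zero_mul]
  rw [h, av_zero, mul_zero]

theorem av_two_neg (x : FB π Λ) : av (fun ω => ((-x : FB π Λ) : Ω → ℝ) ω ^ 2) =
    av (fun ω => (x : Ω → ℝ) ω ^ 2) := by
  congr 1
  funext ω
  exact neg_sq _

theorem av_two_zero : av (fun ω => ((0 : FB π Λ) : Ω → ℝ) ω ^ 2) = 0 := by
  have : (fun ω => ((0 : FB π Λ) : Ω → ℝ) ω ^ 2) = fun _ => 0 := by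
    funext ω
    show (0 : ℝ) ^ 2 = 0
    norm_num
  rw [this, av_zero]

/-- the function of a block used for `C^K` norms -/
noncomputable def fblk (K : ℕ) (j : ℕ) (π : Fin r → Ω → V) (Λ : ℕ) (η : ℝ) (x : FB π Λ) : ℝ :=
  if j < K then QQ π Λ x
  else 6 * η * av (fun ω => (x : Ω → ℝ) ω ^ 2) + PP π Λ x + 2 * RR π Λ η x

theorem block_fun (K j : ℕ) {η p B : ℝ} (hB : 0 ≤ B) (hg : Good π Λ η p) (hA : r = (j + 1) * Λ)
    (hder : ∀ i ≤ j, ∀ x : FB π Λ, ‖iteratedFDeriv ℝ i (fun z : FB π Λ => RR π Λ η z) x‖ ≤ B) :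
    ∃ (L : ContinuousMultilinearMap ℝ (fun _ : Fin 4 => FB π Λ) ℝ)
      (M : ContinuousMultilinearMap ℝ (fun _ : Fin 2 => FB π Λ) ℝ) (R : FB π Λ → ℝ),
      ‖L‖ ≤ 256 * (2 * (1 + (K : ℝ))) ∧ ‖M‖ ≤ 6 * η ∧ ContDiff ℝ (K : WithTop ℕ∞) R ∧
      (∀ i ≤ K, ∀ v, ‖iteratedFDeriv ℝ i R v‖ ≤ 2 * B) ∧
      (∀ v, fblk K j π Λ η v = L (fun _ => v) + M (fun _ => v) + R v) := by
  have hK0 : (0 : ℝ) ≤ K := Nat.cast_nonneg _
  by_cases hj : j < K
  · have h1 : ∀ x : FB π Λ, |QQ π Λ x| ≤ 2 * (1 + (K : ℝ)) * ‖x‖ ^ 4 := by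
      intro x
      have h2 := QQ_le π Λ (A := j + 1) hA x
      have h3 := PP_le_two π Λ hg x
      have h4 := PP_nonneg π Λ x
      have h5 := PP_le_QQ π Λ x
      rw [abs_of_nonneg (h4.trans h5)]
      have h6 : ((j + 1 : ℕ) : ℝ) ≤ K := by exact_mod_cast hj
      calc QQ π Λ x ≤ (1 + ((j + 1 : ℕ) : ℝ)) * PP π Λ x := h2
        _ ≤ (1 + (K : ℝ)) * (2 * ‖x‖ ^ 4) := mul_le_mul (by linarith) h3 h4 (by linarith)
        _ = _ := by ring
    obtain ⟨L, hL1, hL2⟩ := polar (isQ4_QQ π Λ) (by positivity) h1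
    refine ⟨L, 0, fun _ => 0, hL2, ?_, contDiff_const, ?_, ?_⟩
    · rw [norm_zero]; have := hg.eta_pos; positivity
    · intro i _ v
      have : iteratedFDeriv ℝ i (fun _ : FB π Λ => (0 : ℝ)) = 0 := iteratedFDeriv_fun_zero ..
      rw [this]
      simpa using hB
    · intro v
      unfold fblk
      rw [if_pos hj, ← hL1 v]
      simp
  · have h1 : ∀ x : FB π Λ, |PP π Λ x| ≤ 2 * ‖x‖ ^ 4 := by
      intro x
      rw [abs_of_nonneg (PP_nonneg π Λ x)]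
      exact PP_le_two π Λ hg x
    obtain ⟨L, hL1, hL2⟩ := polar (isQ4_PP π Λ) (by norm_num) h1
    obtain ⟨M, hM1, hM2⟩ := exists_quad π Λ hg.eta_pos.le
    refine ⟨L, M, fun x => 2 * RR π Λ η x, ?_, hM2, ?_, ?_, ?_⟩
    · refine hL2.trans ?_
      nlinarith
    · have h2 := (contDiff_RR π Λ η).of_le (m := (K : WithTop ℕ∞)) (by exact_mod_cast le_top)
      exact contDiff_const.mul h2
    · intro i hi v
      have h2 : ContDiff ℝ (i : WithTop ℕ∞) (fun x : FB π Λ => RR π Λ η x) :=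
        (contDiff_RR π Λ η).of_le (by exact_mod_cast le_top)
      have h3 : (fun x : FB π Λ => 2 * RR π Λ η x) = (2 : ℝ) • fun x : FB π Λ => RR π Λ η x := by
        funext x; simp
      rw [h3, iteratedFDeriv_const_smul_apply h2.contDiffAt, norm_smul, Real.norm_of_nonneg (by norm_num)]
      exact mul_le_mul_of_nonneg_left (hder i (by omega) v) (by norm_num)
    · intro v
      unfold fblk
      rw [if_neg hj, ← hL1 v, ← hM1 v]
      ring

theorem fblk_neg (K j : ℕ) (η : ℝ) (x : FB π Λ) : fblk K j π Λ η (-x) = fblk K j π Λ η x := by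
  have hP : PP π Λ (-x : FB π Λ) = PP π Λ x := PP_neg π Λ x
  unfold fblk QQ
  rw [hP, av_two_neg, RR_neg]

theorem fblk_zero (K j : ℕ) (η : ℝ) : fblk K j π Λ η 0 = 0 := by
  have hP : PP π Λ (0 : FB π Λ) = 0 := PP_zero π Λ
  unfold fblk QQ
  rw [hP, av_two_zero, RR_zero]
  simp

theorem le_fblk (K j : ℕ) {η : ℝ} (hη : 0 < η) (x : FB π Λ) : ‖x‖ ^ 4 ≤ fblk K j π Λ η x := by
  have h1 := norm_pow_le_PP π Λ x
  unfold fblk
  split_ifs
  · exact h1.trans (PP_le_QQ π Λ x)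
  · have h2 : 0 ≤ av (fun ω => (x : Ω → ℝ) ω ^ 2) := av_nonneg fun ω => sq_nonneg _
    have h3 := RR_nonneg (π := π) (Λ := Λ) hη x
    have h4 : 0 ≤ 6 * η * av (fun ω => (x : Ω → ℝ) ω ^ 2) := by positivity
    linarith

theorem fblk_convex (K j : ℕ) {η p : ℝ} (hg : Good π Λ η p) :
    ConvexOn ℝ (Metric.closedBall (0 : FB π Λ) (1 / 2)) (fblk K j π Λ η) := by
  have hball : ∀ x ∈ Metric.closedBall (0 : FB π Λ) (1 / 2),
      av (fun ω => (x : Ω → ℝ) ω ^ 4) ≤ 1 / 2 := by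
    intro x hx
    rw [mem_closedBall_zero_iff] at hx
    refine (av_four_le_norm π Λ x).trans ?_
    calc ‖x‖ ^ 4 ≤ (1 / 2) ^ 4 := pow_le_pow_left₀ (norm_nonneg _) hx 4
      _ ≤ 1 / 2 := by norm_num
  refine ⟨convex_closedBall _ _, ?_⟩
  intro x hx y hy a b ha hb hab
  by_cases hj : j < K
  · unfold fblk
    simp only [if_pos hj]
    exact (QQ_convex π Λ).2 (Set.mem_univ _) (Set.mem_univ _) ha hb hab
  · have hxy := (convex_closedBall (0 : FB π Λ) (1 / 2)) hx hy ha hb hab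
    have h1 : ∀ z ∈ Metric.closedBall (0 : FB π Λ) (1 / 2), fblk K j π Λ η z = ff π Λ η z := by
      intro z hz
      unfold fblk ff RR
      rw [if_neg hj, chi_eq_one (hball z hz), one_mul]
    rw [h1 x hx, h1 y hy, h1 _ hxy]
    exact (ff_convex π Λ hg).2 ((hball x hx).trans (by norm_num : (1 : ℝ) / 2 ≤ 1))
      ((hball y hy).trans (by norm_num : (1 : ℝ) / 2 ≤ 1)) ha hb hab

end

/-- for every `k` there is an equivalent `C^k` norm -/
theorem exists_smooth {thr : ℕ → ℕ} (h : Thr thr) (e : ℕ ≃ Ix thr) (k : ℕ) :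
    ∃ N : lp (fun b : ℕ => Eb thr (e b)) 4 → ℝ, SN (k : WithTop ℕ∞) N := by
  choose p hp using h.good
  have hsum := (e.summable_iff (f := fun b : Ix thr => (((b.2.1.1 : ℕ) : ℝ) ^ 14)⁻¹)).2
    (summable_Ix thr h.pow)
  have hg : ∀ b : ℕ, Good (pj (e b).1 (e b).2.1.1) (Lm (e b).1 (e b).2.1.1) (ej (e b).2.1.1)
      (p (e b).1 (e b).2.1.1 (e b).2.1.2.2 (e b).2.1.2.1) := fun b => hp _ _ _ _
  have hd := fun b : ℕ => h.der (e b).1 (e b).2.1.1 (e b).2.1.2.2 (e b).2.1.2.1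
  choose L M R hL hM hR hRb hf using fun b : ℕ => block_fun (k + 1) (e b).1
    (B := (((e b).2.1.1 : ℝ) ^ 14)⁻¹) (by positivity) (hg b) rfl (hd b)
  have hm : Summable (fun b : ℕ => (6 * ej (e b).2.1.1) ^ 2) := by
    have h5 := hsum.mul_left 36
    refine h5.congr fun b => ?_
    unfold ej
    simp only [Function.comp]
    rw [mul_pow, ← inv_pow, ← inv_pow, ← pow_mul]
    norm_num
  obtain ⟨N, h1, h2, h3, h4⟩ := Pool.Agent.Helper23.PZ.lp_smooth_norm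
    (E := fun b : ℕ => Eb thr (e b)) (k + 1) (by omega) L _ hL M
    (fun b => 6 * ej (e b).2.1.1) hM hm R hR (fun b => 2 * (((e b).2.1.1 : ℝ) ^ 14)⁻¹)
    (hsum.mul_left 2)
    (fun b i v hi => hRb b i hi v)
    (fun b => fblk (k + 1) (e b).1 (pj (e b).1 (e b).2.1.1) (Lm (e b).1 (e b).2.1.1)
      (ej (e b).2.1.1)) hf
    (fun b v => fblk_neg _ _ _ v) (fun b => fblk_zero _ _ _)
    (fun b v => le_fblk _ _ (hg b).eta_pos v) (1 / 2) (by norm_num)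
    (fun b => fblk_convex _ _ (hg b))
  exact ⟨N, h1, h2, h3, h4.of_le (by exact_mod_cast Nat.le_succ k)⟩

end Pool.Agent.Helper47.PK
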